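import Pool.Agent.P8H72.JF.Stm1

/-! Project JF, package BAS (helper44): elementary facts on symplectic matrices -/

set_option autoImplicit false

namespace Pool.Agent.P8H72.JF

open Matrix

theorem cg_iff {g : ℕ} (M : ℤ) (A : Mat g) : Cg M A ↔ ∃ C : Mat g, A = 1 + M • C := by
  constructor
  · intro h
    choose C hC using h
    refine ⟨Matrix.of C, ?_⟩
    ext x y
    rw [Matrix.add_apply, Matrix.smul_apply, Matrix.of_apply, smul_eq_mul, ← hC x y]
    ring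
  · rintro ⟨C, rfl⟩ x y
    rw [Matrix.add_apply, Matrix.smul_apply, smul_eq_mul]
    exact ⟨C x y, by ring⟩

theorem symp_mul {g : ℕ} {A B : Mat g} (hA : Symp A) (hB : Symp B) : Symp (A * B) := by
  unfold Symp at *
  rw [transpose_mul]
  calc Bᵀ * Aᵀ * Jm g * (A * B) = Bᵀ * (Aᵀ * Jm g * A) * B := by simp only [Matrix.mul_assoc]
    _ = Jm g := by rw [hA, hB]

theorem symp_inv {g : ℕ} (A : GG g) (hA : Symp A.1) : Symp (A⁻¹).1 := by
  unfold Symp at *
  have h1 : A.1 * (A⁻¹).1 = 1 := A.mul_inv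
  have h2 : ((A⁻¹).1)ᵀ * (A.1)ᵀ = 1 := by rw [← transpose_mul, h1, transpose_one]
  calc ((A⁻¹).1)ᵀ * Jm g * (A⁻¹).1 = ((A⁻¹).1)ᵀ * ((A.1)ᵀ * Jm g * A.1) * (A⁻¹).1 := by rw [hA]
    _ = (((A⁻¹).1)ᵀ * (A.1)ᵀ) * Jm g * (A.1 * (A⁻¹).1) := by simp only [Matrix.mul_assoc]
    _ = Jm g := by rw [h1, h2, Matrix.one_mul, Matrix.mul_one]

theorem cg_mul {g : ℕ} {M : ℤ} {A B : Mat g} (hA : Cg M A) (hB : Cg M B) : Cg M (A * B) := by
  rw [cg_iff] at *
  obtain ⟨C, rfl⟩ := hA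
  obtain ⟨D, rfl⟩ := hB
  refine ⟨C + D + M • (C * D), ?_⟩
  simp only [Matrix.add_mul, Matrix.mul_add, Matrix.one_mul, Matrix.mul_one, Matrix.smul_mul,
    Matrix.mul_smul, smul_add]
  abel

theorem cg_inv {g : ℕ} {M : ℤ} (A : GG g) (hA : Cg M A.1) : Cg M (A⁻¹).1 := by
  rw [cg_iff] at *
  obtain ⟨C, hC⟩ := hA
  refine ⟨-((A⁻¹).1 * C), ?_⟩
  have h1 : (A⁻¹).1 * A.1 = 1 := A.inv_mul
  have h2 : (A⁻¹).1 * A.1 = (A⁻¹).1 + M • ((A⁻¹).1 * C) := by
    rw [hC, Matrix.mul_add, Matrix.mul_one, Matrix.mul_smul]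
  rw [smul_neg, ← sub_eq_add_neg, ← h1, h2, add_sub_cancel_right]

theorem symp_fix {g : ℕ} {J : Set (Fin g)} {A : Mat g} (hA : Symp A) (hF : Fix J A) (j : Fin g)
    (hj : j ∈ J) (y : Fin g ⊕ Fin g) :
    A (Sum.inl j) y = (1 : Mat g) (Sum.inl j) y ∧ A (Sum.inr j) y = (1 : Mat g) (Sum.inr j) y := by
  have hc1 : ∀ x, Aᵀ (Sum.inl j) x = (1 : Mat g) (Sum.inl j) x := fun x => by
    rw [transpose_apply, (hF j hj x).1, Matrix.one_apply, Matrix.one_apply]
    simp only [eq_comm]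
  have hc2 : ∀ x, Aᵀ (Sum.inr j) x = (1 : Mat g) (Sum.inr j) x := fun x => by
    rw [transpose_apply, (hF j hj x).2, Matrix.one_apply, Matrix.one_apply]
    simp only [eq_comm]
  have hJ1 : ∀ (B : Mat g) (y : Fin g ⊕ Fin g), (Jm g * B) (Sum.inl j) y = B (Sum.inr j) y := by
    intro B y
    rw [Matrix.mul_apply, Fintype.sum_sum_type]
    simp [Jm, Matrix.one_apply]
  have hJ2 : ∀ (B : Mat g) (y : Fin g ⊕ Fin g), (Jm g * B) (Sum.inr j) y = - B (Sum.inl j) y := by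
    intro B y
    rw [Matrix.mul_apply, Fintype.sum_sum_type]
    simp [Jm, Matrix.one_apply]
  have h0 : Aᵀ * (Jm g * A) = Jm g * 1 := by
    rw [Matrix.mul_one, ← Matrix.mul_assoc]
    exact hA
  have h1 : (Aᵀ * (Jm g * A)) (Sum.inl j) y = (Jm g * A) (Sum.inl j) y := by
    rw [Matrix.mul_apply]
    simp only [hc1]
    rw [← Matrix.mul_apply, Matrix.one_mul]
  have h2 : (Aᵀ * (Jm g * A)) (Sum.inr j) y = (Jm g * A) (Sum.inr j) y := by
    rw [Matrix.mul_apply]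
    simp only [hc2]
    rw [← Matrix.mul_apply, Matrix.one_mul]
  rw [h0, hJ1, hJ1] at h1
  rw [h0, hJ2, hJ2] at h2
  exact ⟨(neg_injective h2).symm, h1.symm⟩

theorem t_BAS : S_BAS := by
  refine ⟨fun g A B => symp_mul, fun g A => symp_inv A, fun g M A B => cg_mul,
    fun g M A => cg_inv A, ?_, ?_, ?_, fun g J A hA hF j hj y => symp_fix hA hF j hj y⟩
  · intro g X hX
    constructor
    · change (fromBlocks 1 X 0 1 : Mat g)ᵀ * fromBlocks 0 1 (-1) 0 * fromBlocks 1 X 0 1 =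
        fromBlocks 0 1 (-1) 0
      simp [fromBlocks_transpose, fromBlocks_multiply, hX]
    · change (fromBlocks 1 0 X 1 : Mat g)ᵀ * fromBlocks 0 1 (-1) 0 * fromBlocks 1 0 X 1 =
        fromBlocks 0 1 (-1) 0
      simp [fromBlocks_transpose, fromBlocks_multiply, hX]
  · intro g P
    have h1 : (P⁻¹).1 * P.1 = 1 := congrArg Subtype.val (inv_mul_cancel P)
    have h2 : (P.1)ᵀ * ((P⁻¹).1)ᵀ = 1 := by rw [← transpose_mul, h1, transpose_one]
    change (fromBlocks P.1 0 0 ((P⁻¹).1)ᵀ : Mat g)ᵀ * fromBlocks 0 1 (-1) 0 *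
      fromBlocks P.1 0 0 ((P⁻¹).1)ᵀ = fromBlocks 0 1 (-1) 0
    rw [fromBlocks_transpose, fromBlocks_multiply, fromBlocks_multiply, transpose_transpose]
    simp only [transpose_zero, Matrix.mul_zero, Matrix.zero_mul, Matrix.mul_one, zero_add, add_zero,
      Matrix.mul_neg, Matrix.neg_mul, neg_zero, h1, h2]
  · intro g M X hX
    have h1 : ∀ (i j : Fin g), M ∣ X i j - 0 := fun i j => by rw [sub_zero]; exact hX i j
    constructor
    · rintro (i | i) (j | j)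
      · change M ∣ (1 : Matrix (Fin g) (Fin g) ℤ) i j - (1 : Mat g) (Sum.inl i) (Sum.inl j)
        simp [Matrix.one_apply]
      · change M ∣ X i j - (1 : Mat g) (Sum.inl i) (Sum.inr j)
        simpa [Matrix.one_apply] using hX i j
      · change M ∣ (0 : Matrix (Fin g) (Fin g) ℤ) i j - (1 : Mat g) (Sum.inr i) (Sum.inl j)
        simp [Matrix.one_apply]
      · change M ∣ (1 : Matrix (Fin g) (Fin g) ℤ) i j - (1 : Mat g) (Sum.inr i) (Sum.inr j)
        simp [Matrix.one_apply]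
    · rintro (i | i) (j | j)
      · change M ∣ (1 : Matrix (Fin g) (Fin g) ℤ) i j - (1 : Mat g) (Sum.inl i) (Sum.inl j)
        simp [Matrix.one_apply]
      · change M ∣ (0 : Matrix (Fin g) (Fin g) ℤ) i j - (1 : Mat g) (Sum.inl i) (Sum.inr j)
        simp [Matrix.one_apply]
      · change M ∣ X i j - (1 : Mat g) (Sum.inr i) (Sum.inl j)
        simpa [Matrix.one_apply] using hX i j
      · change M ∣ (1 : Matrix (Fin g) (Fin g) ℤ) i j - (1 : Mat g) (Sum.inr i) (Sum.inr j)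
        simp [Matrix.one_apply]

end Pool.Agent.P8H72.JF
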