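import Pool.Agent.P8H72.JF.Stm2

set_option autoImplicit false

/-!
# Project JF (helper72), package CHA: characteristic subgroups of finite index of the surface group
-/

namespace Pool.Agent.P8H72.JF

open Matrix

/-- reduction of the homology class modulo `m` -/
def hmod (g m : ℕ) : Sg g →* Multiplicative (Fin g ⊕ Fin g → ZMod m) :=
  (AddMonoidHom.toMultiplicative ((Int.castAddHom (ZMod m)).compLeft (Fin g ⊕ Fin g))).comp (hm g)

theorem hmod_ker (g m : ℕ) (x : Sg g) : x ∈ (hmod g m).ker ↔ ∀ y, (m : ℤ) ∣ hv x y := by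
  rw [MonoidHom.mem_ker]
  have h1 : hmod g m x = Multiplicative.ofAdd (fun y => ((hv x y : ℤ) : ZMod m)) := rfl
  rw [h1]
  constructor
  · intro h y
    have h2 : (fun y => ((hv x y : ℤ) : ZMod m)) = 0 := h
    have h3 := congrFun h2 y
    exact (ZMod.intCast_zmod_eq_zero_iff_dvd _ _).1 h3
  · intro h
    have h2 : (fun y => ((hv x y : ℤ) : ZMod m)) = 0 := by
      funext y
      exact (ZMod.intCast_zmod_eq_zero_iff_dvd _ _).2 (h y)
    rw [h2]
    rfl

theorem t_CHA : S_CHA := by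
  intro hR g m hm0
  obtain ⟨ρ, hρ, -⟩ := hR g
  have : NeZero m := ⟨by omega⟩
  refine ⟨(hmod g m).ker, ?_, ?_, hmod_ker g m⟩
  · rw [Subgroup.characteristic_iff_le_comap]
    intro φ x hx
    rw [Subgroup.mem_comap]
    have hx' := (hmod_ker g m x).1 hx
    refine (hmod_ker g m _).2 fun y => ?_
    have h1 : hv (φ x) = (ρ φ).1 *ᵥ hv x := hρ φ x
    have h2 : hv (φ.toMonoidHom x) = (ρ φ).1 *ᵥ hv x := h1
    rw [h2]
    show (m : ℤ) ∣ ∑ z, (ρ φ).1 y z * hv x z
    exact Finset.dvd_sum fun z _ => Dvd.dvd.mul_left (hx' z) _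
  · infer_instance

end Pool.Agent.P8H72.JF
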