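import Pool.Agent.P8H72.JF.Stm1

/-!
Package COL of project JF: reduction of a column.
-/

set_option autoImplicit false

namespace Pool.Agent.P8H72.JF

open Matrix

/-- a nonzero integer vector is a multiple of a unimodular vector -/
theorem exists_gcd {g : ℕ} (D : Set (Fin g)) (a : Fin g → ℤ) (ha0 : a ≠ 0)
    (ha : ∀ i, i ∉ D → a i = 0) :
    ∃ (δ : ℤ) (a' ρ : Fin g → ℤ), δ ≠ 0 ∧ (∀ i, a i = δ * a' i) ∧ (∀ i, i ∉ D → a' i = 0) ∧
      (∀ i, i ∉ D → ρ i = 0) ∧ ρ ⬝ᵥ a' = 1 := by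
  classical
  obtain ⟨δ, hδ⟩ := (inferInstance : (Ideal.span (Set.range a)).IsPrincipal).principal
  have h1 : ∀ i, δ ∣ a i := by
    intro i
    have : a i ∈ Ideal.span (Set.range a) := Ideal.subset_span ⟨i, rfl⟩
    rw [hδ] at this
    exact Ideal.mem_span_singleton.1 this
  have h2 : δ ∈ Ideal.span (Set.range a) := by
    rw [hδ]
    exact Ideal.mem_span_singleton_self δ
  obtain ⟨ρ, hρ⟩ := Ideal.mem_span_range_iff_exists_fun.1 h2
  choose a' ha' using h1
  have hδ0 : δ ≠ 0 := by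
    rintro rfl
    apply ha0
    funext i
    rw [ha' i, zero_mul]
    rfl
  have hsup : ∀ i, i ∉ D → a' i = 0 := by
    intro i hi
    have := ha i hi
    rw [ha' i] at this
    exact (mul_eq_zero.1 this).resolve_left hδ0
  refine ⟨δ, a', fun i => if i ∈ D then ρ i else 0, hδ0, ha', hsup, fun i hi => if_neg hi, ?_⟩
  apply mul_left_cancel₀ hδ0
  rw [mul_one, dotProduct, Finset.mul_sum]
  refine Eq.trans ?_ hρ
  refine Finset.sum_congr rfl fun i _ => ?_
  rw [ha' i]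
  by_cases hi : i ∈ D
  · rw [if_pos hi]
    ring
  · rw [if_neg hi, hsup i hi]
    ring

theorem t_COL : S_COL := by
  intro hSYM hPRI g D k l hk hl hkl M a c α β hM h2 ha hc hαβ hak hcM
  have hsing : ∀ i, i ∉ D → (Pi.single k 1 : Fin g → ℤ) i = 0 := by
    intro i hi
    exact Pi.single_eq_of_ne (by rintro rfl; exact hi hk) _
  have ha0 : a ≠ 0 := by
    rintro rfl
    have h := hak k
    rw [Pi.zero_apply, Pi.single_eq_same] at h
    have h3 : (2 : ℤ) ∣ 0 - 1 := (h2.trans (dvd_pow_self M two_ne_zero)).trans h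
    norm_num at h3
  obtain ⟨δ, a', ρ, hδ0, ha', hsup, hρs, hρ⟩ := exists_gcd D a ha0 ha
  choose c' hc' using hcM
  choose w2 hw2 using hak
  have hM2 : M ^ 2 ≠ 0 := pow_ne_zero 2 hM
  have hc's : ∀ i, i ∉ D → c' i = 0 := by
    intro i hi
    have := hc i hi
    rw [hc' i] at this
    exact (mul_eq_zero.1 this).resolve_left hM2
  have haa : a = δ • a' := funext ha'
  have hcc : c = M ^ 2 • c' := funext hc'
  obtain ⟨w, r', hws, hrs, hr⟩ := hPRI g D k l hk hl hkl (M • c') (M • β) (α ⬝ᵥ a') δ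
    (fun i hi => by rw [Pi.smul_apply, hc's i hi, smul_zero])
    (by
      rw [← hαβ, haa, hcc, dotProduct_smul, dotProduct_smul, smul_dotProduct, dotProduct_smul]
      simp only [smul_eq_mul]
      ring)
  obtain ⟨p, hp⟩ : ∃ p, p = M • c' + δ • w := ⟨_, rfl⟩
  rw [← hp] at hr
  have hps : ∀ i, i ∉ D → p i = 0 := by
    intro i hi
    rw [hp, Pi.add_apply, Pi.smul_apply, Pi.smul_apply, hc's i hi, hws i hi, smul_zero, smul_zero,
      add_zero]
  obtain ⟨Y0, hY1, hY2, hY3⟩ := hSYM g D a' ρ w hρs hws hρ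
  obtain ⟨X0, hX1, hX2, hX3⟩ := hSYM g D p r' (-w2) hrs (by
    intro i hi
    have := hw2 i
    rw [ha i hi, hsing i hi, sub_zero] at this
    rw [Pi.neg_apply, (mul_eq_zero.1 this.symm).resolve_left hM2, neg_zero]) hr
  obtain ⟨Z0, hZ1, hZ2, hZ3⟩ := hSYM g D (Pi.single k 1) (Pi.single k 1) (-p) hsing
    (fun i hi => by rw [Pi.neg_apply, hps i hi, neg_zero])
    (by rw [single_dotProduct, Pi.single_eq_same, mul_one])
  have hc1 : c + (M • Y0) *ᵥ a = M • p := by
    rw [haa, hcc, Matrix.smul_mulVec, Matrix.mulVec_smul, hY3, hp, smul_add, smul_smul, smul_smul,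
      pow_two]
  refine ⟨M • Y0, M • X0, M • Z0, ⟨?_, ?_, ?_⟩, fun i j => ⟨?_, ?_, ?_⟩,
    fun i j hi => ⟨?_, ?_, ?_⟩, ?_, ?_⟩
  · rw [transpose_smul, hY1]
  · rw [transpose_smul, hX1]
  · rw [transpose_smul, hZ1]
  · exact Dvd.intro _ rfl
  · exact Dvd.intro _ rfl
  · exact Dvd.intro _ rfl
  · rw [Matrix.smul_apply, hY2 i j hi, smul_zero]
  · rw [Matrix.smul_apply, hX2 i j hi, smul_zero]
  · rw [Matrix.smul_apply, hZ2 i j hi, smul_zero]
  · rw [hc1, Matrix.smul_mulVec, Matrix.mulVec_smul, hX3]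
    funext i
    have := hw2 i
    simp only [Pi.add_apply, Pi.smul_apply, Pi.neg_apply, smul_eq_mul]
    linear_combination this
  · rw [hc1, Matrix.smul_mulVec, hZ3, smul_neg, add_neg_cancel]

end Pool.Agent.P8H72.JF
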