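import Pool.Agent.P8H72.JF.Stm1

/-!
# Package EMB of project JF (by helper66)

The embedding of `GL_4(ℤ)` in `GL_{2g}(ℤ)` by two planes.
-/

set_option autoImplicit false

namespace Pool.Agent.P8H72.JF.EmbAux

open Matrix

variable {m n : Type} [Fintype m] [Fintype n] [DecidableEq m] [DecidableEq n]

/-- `em B = 1 + E (B - 1) Eᵀ` -/
def em (E : Matrix n m ℤ) (B : Matrix m m ℤ) : Matrix n n ℤ := 1 + E * (B - 1) * Eᵀ

theorem em_one (E : Matrix n m ℤ) : em E 1 = 1 := by
  simp [em]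

theorem em_mul (E : Matrix n m ℤ) (hE : Eᵀ * E = 1) (A B : Matrix m m ℤ) :
    em E (A * B) = em E A * em E B := by
  unfold em
  have h1 : (E * (A - 1) * Eᵀ) * (E * (B - 1) * Eᵀ) = E * ((A - 1) * (B - 1)) * Eᵀ := by
    calc (E * (A - 1) * Eᵀ) * (E * (B - 1) * Eᵀ) = E * (A - 1) * (Eᵀ * E) * (B - 1) * Eᵀ := by
          simp only [Matrix.mul_assoc]
      _ = _ := by rw [hE, Matrix.mul_one]; simp only [Matrix.mul_assoc]
  have h2 : A * B - 1 = (A - 1) + (B - 1) + (A - 1) * (B - 1) := by noncomm_ring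
  have h3 : E * (A * B - 1) * Eᵀ = E * (A - 1) * Eᵀ + E * (B - 1) * Eᵀ +
      (E * (A - 1) * Eᵀ) * (E * (B - 1) * Eᵀ) := by
    rw [h1, h2, Matrix.mul_add, Matrix.mul_add, Matrix.add_mul, Matrix.add_mul]
  rw [h3]
  generalize E * (A - 1) * Eᵀ = a
  generalize E * (B - 1) * Eᵀ = b
  noncomm_ring

/-- the homomorphism -/
def emH (E : Matrix n m ℤ) (hE : Eᵀ * E = 1) : Matrix m m ℤ →* Matrix n n ℤ where
  toFun := em E
  map_one' := em_one E
  map_mul' := em_mul E hE

/-- the matrix of the inclusion -/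
def ee {g : ℕ} (k l : Fin g) : Matrix (Fin g) (Fin 2) ℤ :=
  fun i j => if i = (if j = 0 then k else l) then 1 else 0

theorem ee_tr {g : ℕ} {k l : Fin g} (h : k ≠ l) : (ee k l)ᵀ * ee k l = 1 := by
  ext i j
  fin_cases i <;> fin_cases j <;> simp [Matrix.mul_apply, ee, Matrix.one_apply, h, h.symm]

/-- the block matrix -/
def EE {g : ℕ} (k l : Fin g) : Matrix (Fin g ⊕ Fin g) (Fin 2 ⊕ Fin 2) ℤ := fromBlocks (ee k l) 0 0 (ee k l)

theorem EE_tr {g : ℕ} {k l : Fin g} (h : k ≠ l) : (EE k l)ᵀ * EE k l = 1 := by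
  unfold EE
  rw [fromBlocks_transpose, fromBlocks_multiply, ee_tr h]
  simp

theorem em_blocks {g : ℕ} (k l : Fin g) (A B C D : Matrix (Fin 2) (Fin 2) ℤ) :
    em (EE k l) (fromBlocks A B C D) =
      fromBlocks (em (ee k l) A) (ee k l * B * (ee k l)ᵀ) (ee k l * C * (ee k l)ᵀ) (em (ee k l) D) := by
  have h1 : fromBlocks A B C D - 1 = fromBlocks (A - 1) B C (D - 1) := by
    rw [← fromBlocks_one, sub_eq_add_neg, fromBlocks_neg, fromBlocks_add]
    simp [sub_eq_add_neg]
  unfold em EE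
  rw [h1, fromBlocks_multiply, fromBlocks_transpose, fromBlocks_multiply, ← fromBlocks_one, fromBlocks_add]
  simp

theorem dvd_ee {g : ℕ} {M : ℤ} (k l : Fin g) (X : Matrix (Fin 2) (Fin 2) ℤ) (hX : ∀ i j, M ∣ X i j) (i j : Fin g) :
    M ∣ (ee k l * X * (ee k l)ᵀ) i j := by
  rw [Matrix.mul_apply]
  refine Finset.dvd_sum fun x _ => Dvd.dvd.mul_right ?_ _
  rw [Matrix.mul_apply]
  exact Finset.dvd_sum fun y _ => Dvd.dvd.mul_left (hX _ _) _

theorem sym_ee {g : ℕ} (k l : Fin g) (X : Matrix (Fin 2) (Fin 2) ℤ) (hX : Xᵀ = X) :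
    (ee k l * X * (ee k l)ᵀ)ᵀ = ee k l * X * (ee k l)ᵀ := by
  rw [transpose_mul, transpose_mul, hX, transpose_transpose, Matrix.mul_assoc]

theorem det_em {g : ℕ} {k l : Fin g} (h : k ≠ l) (P : Matrix (Fin 2) (Fin 2) ℤ) :
    (em (ee k l) P).det = P.det := by
  unfold em
  rw [Matrix.mul_assoc, Matrix.det_one_add_mul_comm, Matrix.mul_assoc, ee_tr h, Matrix.mul_one]
  congr 1
  abel

/-- on the special linear group -/
def sl {g : ℕ} {k l : Fin g} (h : k ≠ l) : SpecialLinearGroup (Fin 2) ℤ →* SpecialLinearGroup (Fin g) ℤ where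
  toFun P := ⟨em (ee k l) P.1, by rw [det_em h]; exact P.2⟩
  map_one' := Subtype.ext (em_one _)
  map_mul' A B := Subtype.ext (em_mul _ (ee_tr h) A.1 B.1)

/-- the homomorphism on the general linear groups -/
def H {g : ℕ} {k l : Fin g} (h : k ≠ l) : GG 2 →* GG g := Units.map (emH (EE k l) (EE_tr h))

theorem H_val {g : ℕ} {k l : Fin g} (h : k ≠ l) (A : GG 2) : (H h A).1 = em (EE k l) A.1 := rfl

theorem H_S {g : ℕ} {k l : Fin g} (h : k ≠ l) (X : Matrix (Fin 2) (Fin 2) ℤ) :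
    H h (S X) = S (ee k l * X * (ee k l)ᵀ) := by
  apply Units.ext
  rw [H_val]
  show em (EE k l) (fromBlocks 1 X 0 1) = fromBlocks 1 _ 0 1
  rw [em_blocks, em_one]
  simp

theorem H_T {g : ℕ} {k l : Fin g} (h : k ≠ l) (X : Matrix (Fin 2) (Fin 2) ℤ) :
    H h (T X) = T (ee k l * X * (ee k l)ᵀ) := by
  apply Units.ext
  rw [H_val]
  show em (EE k l) (fromBlocks 1 0 X 1) = fromBlocks 1 0 _ 1
  rw [em_blocks, em_one]
  simp

theorem em_tr {g : ℕ} (k l : Fin g) (P : Matrix (Fin 2) (Fin 2) ℤ) :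
    em (ee k l) Pᵀ = (em (ee k l) P)ᵀ := by
  unfold em
  rw [transpose_add, transpose_mul, transpose_mul, transpose_transpose, transpose_sub, transpose_one, transpose_one,
    Matrix.mul_assoc]

theorem H_U {g : ℕ} {k l : Fin g} (h : k ≠ l) (P : SpecialLinearGroup (Fin 2) ℤ) :
    H h (U P) = U (sl h P) := by
  apply Units.ext
  rw [H_val]
  show em (EE k l) (fromBlocks P.1 0 0 ((P⁻¹).1)ᵀ) = fromBlocks (sl h P).1 0 0 (((sl h P)⁻¹).1)ᵀ
  rw [em_blocks, ← map_inv, em_tr, Matrix.mul_zero, Matrix.zero_mul]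
  rfl

theorem ee_single {g : ℕ} {k l : Fin g} (h : k ≠ l) (t : ℤ) (i j : Fin g) :
    (ee k l * !![t, 0; 0, 0] * (ee k l)ᵀ) i j = if i = k ∧ j = k then t else 0 := by
  by_cases hi : i = k <;> by_cases hj : j = k <;>
    simp [Matrix.mul_apply, Fin.sum_univ_two, ee, hi, hj]

theorem em_single {g : ℕ} {k l : Fin g} (h : k ≠ l) (t : ℤ) (i j : Fin g) :
    (em (ee k l) !![t, 0; 0, 1]) i j = if i = k ∧ j = k then t else (1 : Matrix (Fin g) (Fin g) ℤ) i j := by
  have h1 : (!![t, 0; 0, 1] - 1 : Matrix (Fin 2) (Fin 2) ℤ) = !![t - 1, 0; 0, 0] := by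
    ext i j; fin_cases i <;> fin_cases j <;> simp
  unfold em
  rw [h1, Matrix.add_apply, ee_single h]
  by_cases hij : i = k ∧ j = k
  · rw [if_pos hij, if_pos hij, hij.1, hij.2, Matrix.one_apply_eq]; ring
  · rw [if_neg hij, if_neg hij, add_zero]

end Pool.Agent.P8H72.JF.EmbAux

namespace Pool.Agent.P8H72.JF

open Matrix EmbAux

theorem t_EMB : S_EMB := by
  intro hB g k l hkl M N hN
  have h8 := hB.2.2.2.2.2.2.2
  refine ⟨N.comap (H hkl), ⟨?_, ?_, ?_, ?_, ?_⟩, ?_⟩
  · intro X hX hM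
    rw [Subgroup.mem_comap, H_S]
    exact hN.s _ (sym_ee _ _ X hX) (dvd_ee _ _ X hM)
  · intro X hX hM
    rw [Subgroup.mem_comap, H_T]
    exact hN.t _ (sym_ee _ _ X hX) (dvd_ee _ _ X hM)
  · intro P hP
    rw [Subgroup.mem_comap, H_U]
    refine hN.u _ fun i j => ?_
    have e1 : (sl hkl P).1 i j - (1 : Matrix (Fin g) (Fin g) ℤ) i j =
        (ee k l * (P.1 - 1) * (ee k l)ᵀ : Matrix (Fin g) (Fin g) ℤ) i j := by
      have e2 : (sl hkl P).1 = (1 : Matrix (Fin g) (Fin g) ℤ) + ee k l * (P.1 - 1) * (ee k l)ᵀ := rfl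
      rw [e2, Matrix.add_apply, add_sub_cancel_left]
    rw [e1]
    exact dvd_ee _ _ _ (fun a b => by rw [Matrix.sub_apply]; exact hP a b) i j
  · intro X hX n hn
    rw [Subgroup.mem_comap] at hn ⊢
    rw [map_mul, map_mul, map_inv, H_S]
    exact hN.cs _ (sym_ee _ _ X hX) _ hn
  · intro X hX n hn
    rw [Subgroup.mem_comap] at hn ⊢
    rw [map_mul, map_mul, map_inv, H_T]
    exact hN.ct _ (sym_ee _ _ X hX) _ hn
  · intro A hA hC hF
    have hR := h8 g {k' | k' ≠ k} A.1 hA hF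
    -- the entries
    have hdet : A.1 (Sum.inl k) (Sum.inl k) * A.1 (Sum.inr k) (Sum.inr k) -
        A.1 (Sum.inl k) (Sum.inr k) * A.1 (Sum.inr k) (Sum.inl k) = 1 := by
      have h1 : (A.1ᵀ * Jm g * A.1) (Sum.inl k) (Sum.inr k) = (Jm g) (Sum.inl k) (Sum.inr k) := by
        rw [show A.1ᵀ * Jm g * A.1 = Jm g from hA]
      have h2 : (Jm g) (Sum.inl k) (Sum.inr k) = 1 := by simp [Jm]
      rw [h2, Matrix.mul_apply, Fintype.sum_sum_type] at h1
      have h3 : ∀ i, (A.1ᵀ * Jm g) (Sum.inl k) (Sum.inl i) = - A.1 (Sum.inr i) (Sum.inl k) := by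
        intro i
        rw [Matrix.mul_apply, Fintype.sum_sum_type]
        simp [Jm, Matrix.one_apply]
      have h4 : ∀ i, (A.1ᵀ * Jm g) (Sum.inl k) (Sum.inr i) = A.1 (Sum.inl i) (Sum.inl k) := by
        intro i
        rw [Matrix.mul_apply, Fintype.sum_sum_type]
        simp [Jm, Matrix.one_apply]
      simp only [h3, h4] at h1
      rw [Finset.sum_eq_single k, Finset.sum_eq_single k] at h1
      · linarith
      · intro i _ hi
        have := (hR i hi (Sum.inl k)).1
        rw [this]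
        simp [Matrix.one_apply, hi]
      · simp
      · intro i _ hi
        have := (hR i hi (Sum.inl k)).2
        rw [this]
        simp [Matrix.one_apply]
      · simp
    refine ⟨_, _, _, _, hdet, ?_, ?_, ?_, ?_, ?_⟩
    · have := hC (Sum.inl k) (Sum.inl k)
      rwa [Matrix.one_apply_eq] at this
    · have := hC (Sum.inl k) (Sum.inr k)
      rwa [Matrix.one_apply_ne (by simp), sub_zero] at this
    · have := hC (Sum.inr k) (Sum.inl k)
      rwa [Matrix.one_apply_ne (by simp), sub_zero] at this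
    · have := hC (Sum.inr k) (Sum.inr k)
      rwa [Matrix.one_apply_eq] at this
    · intro hL
      rw [Subgroup.mem_comap] at hL
      convert hL using 1
      apply Units.ext
      rw [H_val]
      show A.1 = em (EE k l) (fromBlocks !![_, 0; 0, 1] !![_, 0; 0, 0] !![_, 0; 0, 0] !![_, 0; 0, 1])
      rw [em_blocks]
      ext x y
      rcases x with i | i <;> rcases y with j | j
      · rw [fromBlocks_apply₁₁, em_single hkl]
        by_cases hi : i = k
        · by_cases hj : j = k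
          · rw [if_pos ⟨hi, hj⟩, hi, hj]
          · rw [if_neg (fun h => hj h.2), (hF j hj _).1]
            simp [Matrix.one_apply]
        · rw [if_neg (fun h => hi h.1), (hR i hi _).1]
          simp [Matrix.one_apply]
      · rw [fromBlocks_apply₁₂, ee_single hkl]
        by_cases hi : i = k
        · by_cases hj : j = k
          · rw [if_pos ⟨hi, hj⟩, hi, hj]
          · rw [if_neg (fun h => hj h.2), (hF j hj _).2]
            simp [Matrix.one_apply]
        · rw [if_neg (fun h => hi h.1), (hR i hi _).1]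
          simp [Matrix.one_apply]
      · rw [fromBlocks_apply₂₁, ee_single hkl]
        by_cases hi : i = k
        · by_cases hj : j = k
          · rw [if_pos ⟨hi, hj⟩, hi, hj]
          · rw [if_neg (fun h => hj h.2), (hF j hj _).1]
            simp [Matrix.one_apply]
        · rw [if_neg (fun h => hi h.1), (hR i hi _).2]
          simp [Matrix.one_apply]
      · rw [fromBlocks_apply₂₂, em_single hkl]
        by_cases hi : i = k
        · by_cases hj : j = k
          · rw [if_pos ⟨hi, hj⟩, hi, hj]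
          · rw [if_neg (fun h => hj h.2), (hF j hj _).2]
            simp [Matrix.one_apply]
        · rw [if_neg (fun h => hi h.1), (hR i hi _).2]
          simp [Matrix.one_apply]

end Pool.Agent.P8H72.JF
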