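import Pool.Agent.P8H72.JF.Stm2

set_option autoImplicit false

namespace Pool.Agent.P8H72.JF

open Matrix

namespace FRM

theorem hv_mk (g : ℕ) (w : FreeGroup (Fin g ⊕ Fin g)) :
    hv (PresentedGroup.mk ({rel g} : Set (FreeGroup (Fin g ⊕ Fin g))) w)
      = Multiplicative.toAdd (fh g w) := by
  have h : (hm g).comp (PresentedGroup.mk ({rel g} : Set (FreeGroup (Fin g ⊕ Fin g)))) = fh g := by
    ext x : 1
    rw [MonoidHom.comp_apply]
    unfold hm
    exact PresentedGroup.toGroup.of (rels := {rel g}) (f := fun x => fh g (FreeGroup.of x)) _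
  unfold hv
  rw [← h]
  rfl

theorem key (hH : S_HEI) (g : ℕ) (φ : MulAut (Sg g)) (A : Mat g)
    (hA : ∀ x, hv (φ x) = A *ᵥ hv x) : ∃ k : ℤ, A * Jm g * Aᵀ = k • Jm g := by
  obtain ⟨mk, hmk⟩ : ∃ mk : FreeGroup (Fin g ⊕ Fin g) →* Sg g,
    mk = PresentedGroup.mk ({rel g} : Set (FreeGroup (Fin g ⊕ Fin g))) := ⟨_, rfl⟩
  have hsurj : Function.Surjective mk := by
    rw [hmk]
    exact QuotientGroup.mk'_surjective _
  choose w hw using fun y : Fin g ⊕ Fin g => hsurj (φ (mk (FreeGroup.of y)))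
  have hcomp : mk.comp (FreeGroup.lift w) = (φ.toMonoidHom).comp mk := by
    ext y : 1
    rw [MonoidHom.comp_apply, FreeGroup.lift_apply_of]
    exact hw y
  have hc : ∀ x, mk (FreeGroup.lift w x) = φ (mk x) := fun x => DFunLike.congr_fun hcomp x
  have hvm : ∀ x, hv (mk x) = Multiplicative.toAdd (fh g x) := by
    intro x
    rw [hmk]
    exact hv_mk g x
  refine hH g (FreeGroup.lift w) A (fun x => ?_) ?_
  · rw [← hvm, ← hvm, hc, hA]
  · have h1 : mk (rel g) = 1 := by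
      rw [hmk]
      exact (QuotientGroup.eq_one_iff _).2 (Subgroup.subset_normalClosure (Set.mem_singleton _))
    have h2 : mk (FreeGroup.lift w (rel g)) = 1 := by
      rw [hc, h1, map_one]
    rw [hmk] at h2
    exact (QuotientGroup.eq_one_iff _).1 h2

theorem JJ (g : ℕ) : Jm g * Jm g = -1 := by
  unfold Jm
  rw [fromBlocks_multiply, ← fromBlocks_one, fromBlocks_neg]
  congr 1 <;> simp

theorem flp {g : ℕ} {A : Mat g} {k : ℤ} (hk : k * k = 1) (h : A * Jm g * Aᵀ = k • Jm g) :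
    Aᵀ * Jm g * A = k • Jm g := by
  have hJ := JJ g
  have h1 : A * ((-k) • (Jm g * Aᵀ * Jm g)) = 1 := by
    rw [Matrix.mul_smul, ← Matrix.mul_assoc, ← Matrix.mul_assoc, h, Matrix.smul_mul, hJ, smul_smul,
      smul_neg, ← neg_smul]
    rw [show -(-k * k) = (1 : ℤ) by linarith, one_smul]
  have h2 := mul_eq_one_comm.1 h1
  rw [Matrix.smul_mul] at h2
  have h3 : Jm g * Aᵀ * Jm g * A = (-k) • (1 : Mat g) := by
    rw [← h2, smul_smul, show -k * -k = (1 : ℤ) by linarith, one_smul]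
  have h4 : Jm g * (Jm g * Aᵀ * Jm g * A) = -(Aᵀ * Jm g * A) := by
    calc Jm g * (Jm g * Aᵀ * Jm g * A) = (Jm g * Jm g) * (Aᵀ * Jm g * A) := by
          simp only [Matrix.mul_assoc]
      _ = -(Aᵀ * Jm g * A) := by rw [hJ, Matrix.neg_mul, Matrix.one_mul]
  rw [h3, Matrix.mul_smul, Matrix.mul_one] at h4
  have h5 : Aᵀ * Jm g * A = -((-k) • Jm g) := by rw [h4, neg_neg]
  rw [h5, neg_smul, neg_neg]

end FRM

open FRM in
theorem t_FRM : S_FRM := by
  intro hH g hg φ A hA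
  obtain ⟨k, hk⟩ := key hH g φ A.1 hA
  have hB : ∀ x, hv (φ⁻¹ x) = (A⁻¹).1 *ᵥ hv x := by
    intro x
    have h1 := hA (φ⁻¹ x)
    have h2 : φ (φ⁻¹ x) = x := MulEquiv.apply_symm_apply φ x
    rw [h2] at h1
    have h3 : (A⁻¹).1 * A.1 = 1 := A.inv_mul
    rw [h1, Matrix.mulVec_mulVec, h3, Matrix.one_mulVec]
  obtain ⟨k', hk'⟩ := key hH g φ⁻¹ (A⁻¹).1 hB
  have h4 : A.1 * (A⁻¹).1 = 1 := A.mul_inv
  have h5 : Jm g = (k * k') • Jm g := by
    calc Jm g = (A.1 * (A⁻¹).1) * Jm g * (A.1 * (A⁻¹).1)ᵀ := by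
          rw [h4, Matrix.transpose_one, Matrix.one_mul, Matrix.mul_one]
      _ = A.1 * ((A⁻¹).1 * Jm g * ((A⁻¹).1)ᵀ) * (A.1)ᵀ := by
          rw [Matrix.transpose_mul]
          simp only [Matrix.mul_assoc]
      _ = (k * k') • Jm g := by
          rw [hk', Matrix.mul_smul, Matrix.smul_mul, hk, smul_smul, mul_comm]
  have h6 : k * k' = 1 := by
    have h7 := congrFun (congrFun h5 (Sum.inl ⟨0, hg⟩)) (Sum.inr ⟨0, hg⟩)
    simp only [Jm, Matrix.smul_apply, Matrix.fromBlocks_apply₁₂, Matrix.one_apply_eq, smul_eq_mul,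
      mul_one] at h7
    exact h7.symm
  rcases Int.mul_eq_one_iff_eq_one_or_neg_one.1 h6 with ⟨h7, _⟩ | ⟨h7, _⟩
  · left
    have := flp (by rw [h7]; norm_num) hk
    rw [h7, one_smul] at this
    exact this
  · right
    have := flp (by rw [h7]; norm_num) hk
    rw [h7, neg_smul, one_smul] at this
    exact this

end Pool.Agent.P8H72.JF
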