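import Pool.Agent.P8H72.JF.Stm1
import Pool.Agent.H185.ZM.Euc

/-!
Package GEN1 of project JF (helper95): the elementary symplectic matrices are generated by the
short ones.
-/

set_option autoImplicit false

namespace Pool.Agent.P8H72.JF

open Matrix Pool.Agent.H185.ZM

namespace G1

variable {g : ℕ}

theorem S_add (X Y : Matrix (Fin g) (Fin g) ℤ) : (S (X + Y) : GG g) = S X * S Y := by
  apply Units.ext
  show fromBlocks 1 (X + Y) 0 1 = fromBlocks 1 X 0 1 * fromBlocks 1 Y 0 1
  rw [fromBlocks_multiply]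
  simp only [Matrix.one_mul, Matrix.mul_one, Matrix.zero_mul, Matrix.mul_zero, add_zero, zero_add]
  rw [add_comm]

theorem T_add (X Y : Matrix (Fin g) (Fin g) ℤ) : (T (X + Y) : GG g) = T X * T Y := by
  apply Units.ext
  show fromBlocks 1 0 (X + Y) 1 = fromBlocks 1 0 X 1 * fromBlocks 1 0 Y 1
  rw [fromBlocks_multiply]
  simp only [Matrix.one_mul, Matrix.mul_one, Matrix.zero_mul, Matrix.mul_zero, add_zero, zero_add]

theorem S_zero : (S (0 : Matrix (Fin g) (Fin g) ℤ) : GG g) = 1 := by
  apply Units.ext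
  show fromBlocks 1 0 0 1 = (1 : Mat g)
  exact fromBlocks_one

theorem T_zero : (T (0 : Matrix (Fin g) (Fin g) ℤ) : GG g) = 1 := by
  apply Units.ext
  show fromBlocks 1 0 0 1 = (1 : Mat g)
  exact fromBlocks_one

theorem S_neg (X : Matrix (Fin g) (Fin g) ℤ) : (S (-X) : GG g) = (S X)⁻¹ := by
  rw [eq_inv_iff_mul_eq_one, ← S_add, neg_add_cancel, S_zero]

theorem T_neg (X : Matrix (Fin g) (Fin g) ℤ) : (T (-X) : GG g) = (T X)⁻¹ := by
  rw [eq_inv_iff_mul_eq_one, ← T_add, neg_add_cancel, T_zero]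

theorem U_mul (P Q : SpecialLinearGroup (Fin g) ℤ) : (U (P * Q) : GG g) = U P * U Q := by
  apply Units.ext
  show fromBlocks (P * Q).1 0 0 (((P * Q)⁻¹).1)ᵀ =
    fromBlocks P.1 0 0 ((P⁻¹).1)ᵀ * fromBlocks Q.1 0 0 ((Q⁻¹).1)ᵀ
  rw [fromBlocks_multiply, ← transpose_mul, _root_.mul_inv_rev]
  simp only [Matrix.zero_mul, Matrix.mul_zero, add_zero, zero_add]
  rfl

theorem U_one : (U (1 : SpecialLinearGroup (Fin g) ℤ) : GG g) = 1 := by
  apply Units.ext
  show fromBlocks (1 : SpecialLinearGroup (Fin g) ℤ).1 0 0 (((1 : SpecialLinearGroup (Fin g) ℤ)⁻¹).1)ᵀ = (1 : Mat g)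
  rw [inv_one]
  show fromBlocks (1 : Matrix (Fin g) (Fin g) ℤ) 0 0 (1 : Matrix (Fin g) (Fin g) ℤ)ᵀ = (1 : Mat g)
  rw [transpose_one]
  exact fromBlocks_one

/-- `U` as a homomorphism -/
def Uh (g : ℕ) : SpecialLinearGroup (Fin g) ℤ →* GG g where
  toFun := U
  map_one' := U_one
  map_mul' := U_mul

/-- matrix units -/
abbrev E (i j : Fin g) : Matrix (Fin g) (Fin g) ℤ := Matrix.single i j 1

theorem ee (i j k : Fin g) : E i j * E j k = E i k := by
  simp [E]

theorem ez {i j k l : Fin g} (h : j ≠ k) : E i j * E k l = 0 := by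
  simp [E, h]

theorem U_el_val {i j : Fin g} (h : i ≠ j) (r : ℤ) :
    (U (el h r) : GG g).1 = fromBlocks (1 + single i j r) 0 0 (1 + single j i (-r)) := by
  show fromBlocks (el h r).1 0 0 (((el h r)⁻¹).1)ᵀ = _
  rw [el_inv]
  show fromBlocks (1 + single i j r) 0 0 ((1 + single i j (-r) : Matrix (Fin g) (Fin g) ℤ))ᵀ = _
  rw [transpose_add, transpose_one, transpose_single]

/-- the element of order four of the plane `i` -/
def w (i : Fin g) : GG g := T (E i i) * S (-(E i i)) * T (E i i)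

theorem w_val (i : Fin g) : (w i).1 = fromBlocks (1 - E i i) (-(E i i)) (E i i) (1 - E i i) := by
  show fromBlocks 1 0 (E i i) 1 * fromBlocks 1 (-(E i i)) 0 1 * fromBlocks 1 0 (E i i) 1 = _
  rw [fromBlocks_multiply, fromBlocks_multiply]
  simp only [Matrix.one_mul, Matrix.mul_one, Matrix.zero_mul, Matrix.mul_zero, add_zero, zero_add,
    Matrix.mul_neg, Matrix.neg_mul, Matrix.add_mul, ee]
  congr 1
  · abel
  · abel

theorem w_mem {R : Subgroup (GG g)} {i : Fin g} (h : S (E i i) ∈ R ∧ T (E i i) ∈ R) : w i ∈ R := by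
  unfold w
  rw [S_neg]
  exact mul_mem (mul_mem h.2 (inv_mem h.1)) h.2

theorem conj_w {i j : Fin g} (h : i ≠ j) :
    w i * T (E i j + E j i) = U (el h (-1)) * w i := by
  apply Units.ext
  rw [Units.val_mul, Units.val_mul, w_val, U_el_val]
  show fromBlocks (1 - E i i) (-(E i i)) (E i i) (1 - E i i) * fromBlocks 1 0 (E i j + E j i) 1 = _
  have h1 : (single i j (-1) : Matrix (Fin g) (Fin g) ℤ) = -(E i j) := by
    unfold E; rw [← single_neg]
  have h2 : (single j i (-(-1)) : Matrix (Fin g) (Fin g) ℤ) = E j i := by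
    unfold E; rw [neg_neg]
  rw [h1, h2, fromBlocks_multiply, fromBlocks_multiply]
  simp only [Matrix.one_mul, Matrix.mul_one, Matrix.zero_mul, Matrix.mul_zero, add_zero, zero_add,
    Matrix.mul_neg, Matrix.neg_mul, Matrix.add_mul, Matrix.mul_add, Matrix.sub_mul, Matrix.mul_sub,
    ee, ez h, ez h.symm]
  congr 1
  · abel
  · abel
  · abel
  · abel

/-- symmetric matrices are sums of elementary ones -/
theorem mem_symm (A : AddSubgroup (Matrix (Fin g) (Fin g) ℤ)) (h1 : ∀ i, E i i ∈ A)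
    (h2 : ∀ i j, i ≠ j → E i j + E j i ∈ A) (X : Matrix (Fin g) (Fin g) ℤ) (hX : Xᵀ = X) :
    X ∈ A := by
  classical
  have hsym : ∀ a b, X b a = X a b := fun a b => congrFun (congrFun hX a) b
  obtain ⟨Di, hDi⟩ : ∃ Di : Matrix (Fin g) (Fin g) ℤ, Di = Matrix.of fun i j => if i = j then X i j else 0 :=
    ⟨_, rfl⟩
  obtain ⟨Lo, hLo⟩ : ∃ Lo : Matrix (Fin g) (Fin g) ℤ, Lo = Matrix.of fun i j => if j < i then X i j else 0 :=
    ⟨_, rfl⟩
  have hD : Di ∈ A := by
    rw [matrix_eq_sum_single Di]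
    refine sum_mem fun i _ => sum_mem fun j _ => ?_
    by_cases hij : i = j
    · subst hij
      have : (single i i (Di i i) : Matrix (Fin g) (Fin g) ℤ) = Di i i • E i i := by
        unfold E; rw [smul_single, smul_eq_mul, mul_one]
      rw [this]
      exact A.zsmul_mem (h1 i) _
    · have : Di i j = 0 := by rw [hDi]; simp [hij]
      rw [this, single_zero]
      exact zero_mem _
  have hL : Lo + Loᵀ ∈ A := by
    have e1 : Lo + Loᵀ = ∑ i, ∑ j, (single i j (Lo i j) + single j i (Lo i j)) := by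
      simp only [Finset.sum_add_distrib]
      congr 1
      · exact matrix_eq_sum_single Lo
      · conv_lhs => rw [matrix_eq_sum_single Lo]
        simp only [transpose_sum, transpose_single]
    rw [e1]
    refine sum_mem fun i _ => sum_mem fun j _ => ?_
    by_cases hij : i = j
    · subst hij
      have : Lo i i = 0 := by rw [hLo]; simp
      rw [this, single_zero, add_zero]
      exact zero_mem _
    · have : (single i j (Lo i j) + single j i (Lo i j) : Matrix (Fin g) (Fin g) ℤ) =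
          Lo i j • (E i j + E j i) := by
        unfold E; rw [smul_add, smul_single, smul_single, smul_eq_mul, mul_one]
      rw [this]
      exact A.zsmul_mem (h2 i j hij) _
  have e : X = Di + (Lo + Loᵀ) := by
    ext a b
    rw [Matrix.add_apply, Matrix.add_apply, transpose_apply, hDi, hLo]
    simp only [Matrix.of_apply]
    rcases lt_trichotomy a b with h | h | h
    · rw [if_neg h.ne, if_neg (not_lt.2 h.le), if_pos h, hsym]; ring
    · subst h; simp
    · rw [if_neg h.ne', if_pos h, if_neg (not_lt.2 h.le)]; ring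
  rw [e]
  exact add_mem hD hL

/-- the sum of four matrix units -/
abbrev W (i j : Fin g) : Matrix (Fin g) (Fin g) ℤ := E i i + (E i j + E j i) + E j j

theorem conj_T {i j : Fin g} (h : i ≠ j) :
    U (el h (-1)) * T (E i i) = T (W i j) * U (el h (-1)) := by
  apply Units.ext
  rw [Units.val_mul, Units.val_mul, U_el_val]
  show _ * fromBlocks 1 0 (E i i) 1 = fromBlocks 1 0 (W i j) 1 * _
  have h1 : (single i j (-1) : Matrix (Fin g) (Fin g) ℤ) = -(E i j) := by
    unfold E; rw [← single_neg]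
  have h2 : (single j i (-(-1)) : Matrix (Fin g) (Fin g) ℤ) = E j i := by
    unfold E; rw [neg_neg]
  rw [h1, h2, fromBlocks_multiply, fromBlocks_multiply]
  simp only [Matrix.one_mul, Matrix.mul_one, Matrix.zero_mul, Matrix.mul_zero, add_zero, zero_add,
    Matrix.mul_neg, Matrix.neg_mul, Matrix.add_mul, Matrix.mul_add, W,
    ee, ez h, ez h.symm]
  congr 1
  abel

theorem conj_S {i j : Fin g} (h : i ≠ j) :
    U (el h.symm 1) * S (E i i) = S (W i j) * U (el h.symm 1) := by
  apply Units.ext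
  rw [Units.val_mul, Units.val_mul, U_el_val]
  show _ * fromBlocks 1 (E i i) 0 1 = fromBlocks 1 (W i j) 0 1 * _
  have h1 : (single i j (-1) : Matrix (Fin g) (Fin g) ℤ) = -(E i j) := by
    unfold E; rw [← single_neg]
  have h2 : (single j i 1 : Matrix (Fin g) (Fin g) ℤ) = E j i := rfl
  rw [h1, h2, fromBlocks_multiply, fromBlocks_multiply]
  simp only [Matrix.one_mul, Matrix.mul_one, Matrix.zero_mul, Matrix.mul_zero, add_zero, zero_add,
    Matrix.mul_neg, Matrix.neg_mul, Matrix.add_mul, Matrix.mul_add, W,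
    ee, ez h, ez h.symm]
  congr 1
  abel

end G1

open G1 in
theorem t_GEN1 : S_GEN1 := by
  intro n R hST hadj
  -- adjacent transvections
  have hsingle : ∀ i j : Fin (n + 3), i ≠ j → T (E i j + E j i) ∈ R → ∀ h : i ≠ j, ∀ t : ℤ,
      U (el h t) ∈ R := by
    intro i j _ hT h t
    have h1 : U (el h (-1)) ∈ R := by
      have h2 : U (el h (-1)) = w i * T (E i j + E j i) * (w i)⁻¹ := by
        rw [conj_w h, mul_inv_cancel_right]
      rw [h2]
      exact mul_mem (mul_mem (w_mem (hST i)) hT) (inv_mem (w_mem (hST i)))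
    have h3 : el h t = (el h (-1 : ℤ)) ^ (-t) := by
      have h4 : ∀ k : ℕ, (el h (-1 : ℤ)) ^ k = el h (-(k : ℤ)) := by
        intro k
        induction k with
        | zero => rw [pow_zero, Nat.cast_zero, neg_zero, el_zero]
        | succ k ih => rw [pow_succ, ih, ← el_add]; congr 1; push_cast; ring
      obtain ⟨k, hk | hk⟩ := Int.eq_nat_or_neg t
      · rw [hk, _root_.zpow_neg, zpow_natCast, h4, el_inv, neg_neg]
      · rw [hk, neg_neg, zpow_natCast, h4]
    rw [h3]
    have h5 : U ((el h (-1 : ℤ)) ^ (-t)) = (U (el h (-1 : ℤ))) ^ (-t) := map_zpow (Uh (n + 3)) _ _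
    rw [h5]
    exact R.zpow_mem h1 _
  have htr : ∀ d : ℕ, ∀ i j : Fin (n + 3), (j : ℕ) = i + d + 1 →
      (∀ h : i ≠ j, ∀ t : ℤ, U (el h t) ∈ R) ∧ (∀ h : j ≠ i, ∀ t : ℤ, U (el h t) ∈ R) := by
    intro d
    induction d with
    | zero =>
      intro i j hij
      have hne : i ≠ j := by
        intro h; rw [h] at hij; omega
      have h1 := hadj i j (by omega)
      refine ⟨hsingle i j hne h1, hsingle j i hne.symm ?_⟩
      have h2 : E j i + E i j = E i j + E j i := add_comm _ _
      rw [h2]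
      exact h1
    | succ d ih =>
      intro i j hij
      have hj := j.2
      obtain ⟨k, hk⟩ : ∃ k : Fin (n + 3), (k : ℕ) = i + d + 1 := ⟨⟨i + d + 1, by omega⟩, rfl⟩
      obtain ⟨a1, a2⟩ := ih i k hk
      have hik : i ≠ k := by intro h; rw [← h] at hk; omega
      have hkj : k ≠ j := by intro h; rw [h] at hk; omega
      have hij' : i ≠ j := by intro h; rw [h] at hij; omega
      have hkj1 : (j : ℕ) = k + 1 := by omega
      have h1 := hadj k j hkj1
      have b1 := hsingle k j hkj h1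
      have h1' : T (E j k + E k j) ∈ R := by
        have h2 : E j k + E k j = E k j + E j k := add_comm _ _
        rw [h2]
        exact h1
      have b2 := hsingle j k hkj.symm h1'
      constructor
      · intro h t
        have h2 := el_comm hik hkj h t (1 : ℤ)
        rw [mul_one] at h2
        have h3 : el h t = (el hik t * el hkj 1) * (el hkj 1 * el hik t)⁻¹ := by
          rw [h2, mul_inv_cancel_right]
        rw [h3, U_mul, U_mul]
        have h4 : U ((el hkj 1 * el hik t)⁻¹) = (U (el hkj 1 * el hik t))⁻¹ := map_inv (Uh (n + 3)) _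
        rw [h4, U_mul]
        exact mul_mem (mul_mem (a1 hik t) (b1 hkj 1)) (inv_mem (mul_mem (b1 hkj 1) (a1 hik t)))
      · intro h t
        have h2 := el_comm hkj.symm hik.symm h t (1 : ℤ)
        rw [mul_one] at h2
        have h3 : el h t = (el hkj.symm t * el hik.symm 1) * (el hik.symm 1 * el hkj.symm t)⁻¹ := by
          rw [h2, mul_inv_cancel_right]
        rw [h3, U_mul, U_mul]
        have h4 : U ((el hik.symm 1 * el hkj.symm t)⁻¹) = (U (el hik.symm 1 * el hkj.symm t))⁻¹ :=
          map_inv (Uh (n + 3)) _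
        rw [h4, U_mul]
        exact mul_mem (mul_mem (b2 hkj.symm t) (a2 hik.symm 1))
          (inv_mem (mul_mem (a2 hik.symm 1) (b2 hkj.symm t)))
  have hall : ∀ i j : Fin (n + 3), ∀ h : i ≠ j, ∀ t : ℤ, U (el h t) ∈ R := by
    intro i j h t
    rcases lt_or_gt_of_ne h with h1 | h1
    · have h2 : (i : ℕ) < j := h1
      exact (htr ((j : ℕ) - i - 1) i j (by omega)).1 h t
    · have h2 : (j : ℕ) < i := h1
      exact (htr ((i : ℕ) - j - 1) j i (by omega)).2 h t
  have hU : ∀ P, U P ∈ R := by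
    intro P
    have h1 : EE (n + 3) ℤ ≤ R.comap (Uh (n + 3)) := by
      unfold EE
      rw [Subgroup.closure_le]
      rintro _ ⟨i, j, h, c, rfl⟩
      exact hall i j h c
    have h2 : P ∈ EE (n + 3) ℤ := by
      have h3 : EE (n + 3) ℤ = ⊤ := EE_eq_top
      rw [h3]
      exact Subgroup.mem_top _
    exact h1 h2
  refine ⟨?_, hU⟩
  -- symmetric matrices
  intro X hX
  obtain ⟨AS, hAS⟩ : ∃ A : AddSubgroup (Matrix (Fin (n + 3)) (Fin (n + 3)) ℤ), ∀ Y, Y ∈ A ↔ S Y ∈ R := by
    refine ⟨{ carrier := {Y | S Y ∈ R}, add_mem' := ?_, zero_mem' := ?_, neg_mem' := ?_ }, fun Y => Iff.rfl⟩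
    · intro a b ha hb
      show S (a + b) ∈ R
      rw [S_add]
      exact mul_mem ha hb
    · show S 0 ∈ R
      rw [S_zero]
      exact one_mem _
    · intro a ha
      show S (-a) ∈ R
      rw [S_neg]
      exact inv_mem ha
  obtain ⟨AT, hAT⟩ : ∃ A : AddSubgroup (Matrix (Fin (n + 3)) (Fin (n + 3)) ℤ), ∀ Y, Y ∈ A ↔ T Y ∈ R := by
    refine ⟨{ carrier := {Y | T Y ∈ R}, add_mem' := ?_, zero_mem' := ?_, neg_mem' := ?_ }, fun Y => Iff.rfl⟩
    · intro a b ha hb
      show T (a + b) ∈ R
      rw [T_add]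
      exact mul_mem ha hb
    · show T 0 ∈ R
      rw [T_zero]
      exact one_mem _
    · intro a ha
      show T (-a) ∈ R
      rw [T_neg]
      exact inv_mem ha
  have cut : ∀ (A : AddSubgroup (Matrix (Fin (n + 3)) (Fin (n + 3)) ℤ)) (i j : Fin (n + 3)),
      E i i ∈ A → E j j ∈ A → W i j ∈ A → E i j + E j i ∈ A := by
    intro A i j h1 h2 h3
    have h4 := sub_mem (sub_mem h3 h1) h2
    have h5 : W i j - E i i - E j j = E i j + E j i := by
      show E i i + (E i j + E j i) + E j j - E i i - E j j = _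
      abel
    rw [h5] at h4
    exact h4
  constructor
  · rw [← hAS]
    refine mem_symm AS (fun i => (hAS _).2 (hST i).1) (fun i j h => ?_) X hX
    refine cut AS i j ((hAS _).2 (hST i).1) ((hAS _).2 (hST j).1) ((hAS _).2 ?_)
    have h1 : S (W i j) = U (el h.symm 1) * S (E i i) * (U (el h.symm 1))⁻¹ := by
      rw [conj_S h, mul_inv_cancel_right]
    rw [h1]
    exact mul_mem (mul_mem (hU _) (hST i).1) (inv_mem (hU _))
  · rw [← hAT]
    refine mem_symm AT (fun i => (hAT _).2 (hST i).2) (fun i j h => ?_) X hX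
    refine cut AT i j ((hAT _).2 (hST i).2) ((hAT _).2 (hST j).2) ((hAT _).2 ?_)
    have h1 : T (W i j) = U (el h (-1)) * T (E i i) * (U (el h (-1)))⁻¹ := by
      rw [conj_T h, mul_inv_cancel_right]
    rw [h1]
    exact mul_mem (mul_mem (hU _) (hST i).2) (inv_mem (hU _))

end Pool.Agent.P8H72.JF
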