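import Pool.Agent.P8H72.JF.Stm1
import Pool.Agent.Helper460_CSP.Bls

/-!
Package GEN2 of project JF (helper95): normal subgroups of finite index are nice.
-/

set_option autoImplicit false

namespace Pool.Agent.P8H72.JF

open Matrix Pool.Agent.Helper460_CSP

namespace G2

theorem S_add {g : ℕ} (X Y : Matrix (Fin g) (Fin g) ℤ) : (S (X + Y) : GG g) = S X * S Y := by
  apply Units.ext
  show fromBlocks 1 (X + Y) 0 1 = fromBlocks 1 X 0 1 * fromBlocks 1 Y 0 1
  rw [fromBlocks_multiply]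
  simp only [Matrix.one_mul, Matrix.mul_one, Matrix.zero_mul, Matrix.mul_zero, add_zero, zero_add]
  rw [add_comm]

theorem T_add {g : ℕ} (X Y : Matrix (Fin g) (Fin g) ℤ) : (T (X + Y) : GG g) = T X * T Y := by
  apply Units.ext
  show fromBlocks 1 0 (X + Y) 1 = fromBlocks 1 0 X 1 * fromBlocks 1 0 Y 1
  rw [fromBlocks_multiply]
  simp only [Matrix.one_mul, Matrix.mul_one, Matrix.zero_mul, Matrix.mul_zero, add_zero, zero_add]

theorem S_zero {g : ℕ} : (S (0 : Matrix (Fin g) (Fin g) ℤ) : GG g) = 1 := by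
  apply Units.ext
  show fromBlocks 1 0 0 1 = (1 : Mat g)
  exact fromBlocks_one

theorem T_zero {g : ℕ} : (T (0 : Matrix (Fin g) (Fin g) ℤ) : GG g) = 1 := by
  apply Units.ext
  show fromBlocks 1 0 0 1 = (1 : Mat g)
  exact fromBlocks_one

theorem S_pow {g : ℕ} (X : Matrix (Fin g) (Fin g) ℤ) (k : ℕ) : (S X : GG g) ^ k = S ((k : ℤ) • X) := by
  induction k with
  | zero => rw [pow_zero, Nat.cast_zero, zero_smul, S_zero]
  | succ k ih =>
    rw [pow_succ, ih, ← S_add]
    congr 1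
    push_cast
    rw [add_smul, one_smul]

theorem T_pow {g : ℕ} (X : Matrix (Fin g) (Fin g) ℤ) (k : ℕ) : (T X : GG g) ^ k = T ((k : ℤ) • X) := by
  induction k with
  | zero => rw [pow_zero, Nat.cast_zero, zero_smul, T_zero]
  | succ k ih =>
    rw [pow_succ, ih, ← T_add]
    congr 1
    push_cast
    rw [add_smul, one_smul]

theorem U_mul {g : ℕ} (P Q : SpecialLinearGroup (Fin g) ℤ) : (U (P * Q) : GG g) = U P * U Q := by
  apply Units.ext
  show fromBlocks (P * Q).1 0 0 (((P * Q)⁻¹).1)ᵀ =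
    fromBlocks P.1 0 0 ((P⁻¹).1)ᵀ * fromBlocks Q.1 0 0 ((Q⁻¹).1)ᵀ
  rw [fromBlocks_multiply, ← transpose_mul, _root_.mul_inv_rev]
  simp only [Matrix.zero_mul, Matrix.mul_zero, add_zero, zero_add]
  rfl

theorem U_one {g : ℕ} : (U (1 : SpecialLinearGroup (Fin g) ℤ) : GG g) = 1 := by
  apply Units.ext
  show fromBlocks (1 : SpecialLinearGroup (Fin g) ℤ).1 0 0 (((1 : SpecialLinearGroup (Fin g) ℤ)⁻¹).1)ᵀ = (1 : Mat g)
  rw [inv_one]
  show fromBlocks (1 : Matrix (Fin g) (Fin g) ℤ) 0 0 (1 : Matrix (Fin g) (Fin g) ℤ)ᵀ = (1 : Mat g)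
  rw [transpose_one]
  exact fromBlocks_one

/-- `U` as a homomorphism -/
def Uh (g : ℕ) : SpecialLinearGroup (Fin g) ℤ →* GG g where
  toFun := U
  map_one' := U_one
  map_mul' := U_mul

/-- division of a symmetric matrix -/
theorem div_symm {g : ℕ} (M : ℤ) (X : Matrix (Fin g) (Fin g) ℤ) (hX : Xᵀ = X)
    (h : ∀ i j, M ∣ X i j) : ∃ X' : Matrix (Fin g) (Fin g) ℤ, X'ᵀ = X' ∧ X = M • X' := by
  refine ⟨Matrix.of fun i j => X i j / M, ?_, ?_⟩
  · ext i j
    show X j i / M = X i j / M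
    have := congrFun (congrFun hX i) j
    rw [transpose_apply] at this
    rw [this]
  · ext i j
    show X i j = M * (X i j / M)
    exact (Int.mul_ediv_cancel' (h i j)).symm

end G2

open G2 in
theorem t_GEN2 : S_GEN2 := by
  intro n R N m hm hpow hconj hR
  obtain ⟨hST, hU⟩ := hR
  have hM : (8 * (m : ℤ)) ≠ 0 := by
    have : (m : ℤ) ≠ 0 := by exact_mod_cast hm.ne'
    omega
  have key : ∀ r ∈ R, r ^ (m * 8) ∈ N := by
    intro r hr
    rw [pow_mul]
    exact N.pow_mem (hpow r hr) 8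
  have hcast : (8 * (m : ℤ)) = ((m * 8 : ℕ) : ℤ) := by push_cast; ring
  refine ⟨?_, ?_, ?_, ?_, ?_⟩
  · intro X hX hdiv
    obtain ⟨X', h1, h2⟩ := div_symm _ X hX hdiv
    rw [h2, hcast, ← S_pow]
    exact key _ (hST X' h1).1
  · intro X hX hdiv
    obtain ⟨X', h1, h2⟩ := div_symm _ X hX hdiv
    rw [h2, hcast, ← T_pow]
    exact key _ (hST X' h1).2
  · intro P hP
    have hnorm : (N.comap (Uh (n + 3))).Normal := by
      constructor
      intro x hx y
      rw [Subgroup.mem_comap] at hx ⊢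
      rw [map_mul, map_mul, map_inv]
      exact hconj _ (hU y) _ hx
    have h1 : El (Fin (n + 3)) (8 * (m : ℤ)) ≤ N.comap (Uh (n + 3)) := by
      refine @El_le (Fin (n + 3)) _ _ (8 * (m : ℤ)) (N.comap (Uh (n + 3))) hnorm ?_
      intro i j h
      rw [Subgroup.mem_comap]
      have h2 : tv i j h (8 * (m : ℤ)) = tv i j h 1 ^ (m * 8) := by
        have h3 := tv_mul_zpow i j h 1 (8 * (m : ℤ))
        rw [one_mul, hcast, zpow_natCast] at h3
        rw [hcast]
        exact h3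
      rw [h2, map_pow]
      exact key _ (hU _)
    exact h1 (bls hM n P hP)
  · intro X hX x hx
    exact hconj _ (hST X hX).1 x hx
  · intro X hX x hx
    exact hconj _ (hST X hX).2 x hx

end Pool.Agent.P8H72.JF
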