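import Pool.Agent.P8H72.JF.Stm1

/-!
Package IDN of project JF: the identity between long and short roots.
-/

set_option autoImplicit false

namespace Pool.Agent.P8H72.JF.Idn

open Matrix Pool.Agent.P8H72.JF

/-- a matrix of size four by its entries -/
def Q (m11 m12 m13 m14 m21 m22 m23 m24 m31 m32 m33 m34 m41 m42 m43 m44 : ℤ) : Mat 2 :=
  fromBlocks !![m11, m12; m21, m22] !![m13, m14; m23, m24] !![m31, m32; m41, m42]
    !![m33, m34; m43, m44]

theorem Q_congr {m11 m12 m13 m14 m21 m22 m23 m24 m31 m32 m33 m34 m41 m42 m43 m44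
    n11 n12 n13 n14 n21 n22 n23 n24 n31 n32 n33 n34 n41 n42 n43 n44 : ℤ}
    (h11 : m11 = n11) (h12 : m12 = n12) (h13 : m13 = n13) (h14 : m14 = n14) (h21 : m21 = n21) (h22 : m22 = n22) (h23 : m23 = n23) (h24 : m24 = n24) (h31 : m31 = n31) (h32 : m32 = n32) (h33 : m33 = n33) (h34 : m34 = n34) (h41 : m41 = n41) (h42 : m42 = n42) (h43 : m43 = n43) (h44 : m44 = n44) :
    Q m11 m12 m13 m14 m21 m22 m23 m24 m31 m32 m33 m34 m41 m42 m43 m44 =
      Q n11 n12 n13 n14 n21 n22 n23 n24 n31 n32 n33 n34 n41 n42 n43 n44 := by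
  rw [h11, h12, h13, h14, h21, h22, h23, h24, h31, h32, h33, h34, h41, h42, h43, h44]

theorem mulQ (m11 m12 m13 m14 m21 m22 m23 m24 m31 m32 m33 m34 m41 m42 m43 m44
    n11 n12 n13 n14 n21 n22 n23 n24 n31 n32 n33 n34 n41 n42 n43 n44 : ℤ) :
    Q m11 m12 m13 m14 m21 m22 m23 m24 m31 m32 m33 m34 m41 m42 m43 m44 *
      Q n11 n12 n13 n14 n21 n22 n23 n24 n31 n32 n33 n34 n41 n42 n43 n44 =
    Q (m11 * n11 + m12 * n21 + m13 * n31 + m14 * n41) (m11 * n12 + m12 * n22 + m13 * n32 + m14 * n42) (m11 * n13 + m12 * n23 + m13 * n33 + m14 * n43) (m11 * n14 + m12 * n24 + m13 * n34 + m14 * n44) (m21 * n11 + m22 * n21 + m23 * n31 + m24 * n41) (m21 * n12 + m22 * n22 + m23 * n32 + m24 * n42) (m21 * n13 + m22 * n23 + m23 * n33 + m24 * n43) (m21 * n14 + m22 * n24 + m23 * n34 + m24 * n44) (m31 * n11 + m32 * n21 + m33 * n31 + m34 * n41) (m31 * n12 + m32 * n22 + m33 * n32 + m34 * n42) (m31 * n13 + m32 * n23 + m33 * n33 + m34 * n43)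 (m31 * n14 + m32 * n24 + m33 * n34 + m34 * n44) (m41 * n11 + m42 * n21 + m43 * n31 + m44 * n41) (m41 * n12 + m42 * n22 + m43 * n32 + m44 * n42) (m41 * n13 + m42 * n23 + m43 * n33 + m44 * n43) (m41 * n14 + m42 * n24 + m43 * n34 + m44 * n44) := by
  unfold Q
  rw [fromBlocks_multiply]
  simp only [Matrix.mul_fin_two]
  congr 1 <;> ext i j <;> fin_cases i <;> fin_cases j <;> simp <;> ring

theorem S_val (p q r t : ℤ) : (S !![p, q; r, t] : GG 2).1 = Q 1 0 p q 0 1 r t 0 0 1 0 0 0 0 1 := by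
  unfold S Q
  change fromBlocks 1 _ 0 1 = _
  congr 1 <;> ext i j <;> fin_cases i <;> fin_cases j <;> simp

theorem T_val (p q r t : ℤ) : (T !![p, q; r, t] : GG 2).1 = Q 1 0 0 0 0 1 0 0 p q 1 0 r t 0 1 := by
  unfold T Q
  change fromBlocks 1 0 _ 1 = _
  congr 1 <;> ext i j <;> fin_cases i <;> fin_cases j <;> simp

/-- elements of `SL₂` -/
def sl (p q r t : ℤ) (h : p * t - q * r = 1) : SpecialLinearGroup (Fin 2) ℤ :=
  ⟨!![p, q; r, t], by rw [Matrix.det_fin_two_of]; exact h⟩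

theorem U_val (p q r t : ℤ) (h : p * t - q * r = 1) :
    (U (sl p q r t h) : GG 2).1 = Q p q 0 0 r t 0 0 0 0 t (-r) 0 0 (-q) p := by
  unfold U Q
  change fromBlocks (sl p q r t h).1 0 0 (((sl p q r t h)⁻¹).1)ᵀ = _
  rw [show ((sl p q r t h)⁻¹).1 = !![t, -q; -r, p] from by
    rw [Matrix.SpecialLinearGroup.coe_inv]
    change Matrix.adjugate !![p, q; r, t] = _
    rw [Matrix.adjugate_fin_two_of]]
  change fromBlocks !![p, q; r, t] 0 0 _ = _
  congr 1 <;> ext i j <;> fin_cases i <;> fin_cases j <;> simp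

theorem L_val (p q r t : ℤ) (h : p * t - q * r = 1) :
    (L p q r t h : GG 2).1 = Q p 0 q 0 0 1 0 0 r 0 t 0 0 0 0 1 := rfl

theorem hl0 (a x c d : ℤ) (h : a * d - x ^ 2 * c = 1) :
    Q (a) (0) (x ^ 2) (0) (0) (1) (0) (0) (c) (0) (d) (0) (0) (0) (0) (1) *
      Q (1) (0) (0) (0) (0) (1) (0) (0) (0) (-(c * x)) (1) (0) (-(c * x)) (0) (0) (1) =
    Q (a) (-x^3*c) (x^2) (0) (0) (1) (0) (0) (c) (-x*c*d) (d) (0) (-x*c) (0) (0) (1) := by
  rw [mulQ]
  exact Q_congr (by ring)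
    (by ring)
    (by ring)
    (by ring)
    (by ring)
    (by ring)
    (by ring)
    (by ring)
    (by ring)
    (by ring)
    (by ring)
    (by ring)
    (by ring)
    (by ring)
    (by ring)
    (by ring)

theorem hl1 (a x c d : ℤ) (h : a * d - x ^ 2 * c = 1) :
    Q (a) (-x^3*c) (x^2) (0) (0) (1) (0) (0) (c) (-x*c*d) (d) (0) (-x*c) (0) (0) (1) *
      Q (1) (d * x) (0) (0) (0) (1) (0) (0) (0) (0) (1) (-0) (0) (0) (-(d * x)) (1) =
    Q (a) (x) (x^2) (0) (0) (1) (0) (0) (c) (0) (d) (0) (-x*c) (-x^2*c*d) (-x*d) (1) := by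
  rw [mulQ]
  exact Q_congr (by ring)
    (by linear_combination (x) * h)
    (by ring)
    (by ring)
    (by ring)
    (by ring)
    (by ring)
    (by ring)
    (by ring)
    (by ring)
    (by ring)
    (by ring)
    (by ring)
    (by ring)
    (by ring)
    (by ring)

theorem hm0 (a x c d : ℤ) (h : a * d - x ^ 2 * c = 1) :
    Q (1) (0) (0) (0) (0) (1) (0) (0) (0) (0) (1) (0) (0) (1) (0) (1) *
      Q (1) (0) (0) (0) (0) (1) (0) (0) (0) (0) (1) (0) (0) ((1 - c * x ^ 2) * d - 1) (0) (1) =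
    Q (1) (0) (0) (0) (0) (1) (0) (0) (0) (0) (1) (0) (0) (d - x^2*c*d) (0) (1) := by
  rw [mulQ]
  exact Q_congr (by ring)
    (by ring)
    (by ring)
    (by ring)
    (by ring)
    (by ring)
    (by ring)
    (by ring)
    (by ring)
    (by ring)
    (by ring)
    (by ring)
    (by ring)
    (by ring)
    (by ring)
    (by ring)

theorem hm1 (a x c d : ℤ) (h : a * d - x ^ 2 * c = 1) :
    Q (1) (0) (0) (0) (0) (1) (0) (0) (0) (0) (1) (0) (0) (d - x^2*c*d) (0) (1) *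
      Q (1) (0) (0) (0) (0) (1) (0) (1 - a) (0) (0) (1) (0) (0) (0) (0) (1) =
    Q (1) (0) (0) (0) (0) (1) (0) (1 - a) (0) (0) (1) (0) (0) (d - x^2*c*d) (0) (d - x^2*c*d + x^4*c^2) := by
  rw [mulQ]
  exact Q_congr (by ring)
    (by ring)
    (by ring)
    (by ring)
    (by ring)
    (by ring)
    (by ring)
    (by ring)
    (by ring)
    (by ring)
    (by ring)
    (by ring)
    (by ring)
    (by ring)
    (by ring)
    (by linear_combination (-1 + x^2*c) * h)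

theorem hm2 (a x c d : ℤ) (h : a * d - x ^ 2 * c = 1) :
    Q (1) (0) (0) (0) (0) (1) (0) (1 - a) (0) (0) (1) (0) (0) (d - x^2*c*d) (0) (d - x^2*c*d + x^4*c^2) *
      Q (1) (0) (0) (0) (0) (1) (0) (0) (0) (0) (1) (0) (0) (-1) (0) (1) =
    Q (1) (0) (0) (0) (0) (a) (0) (1 - a) (0) (0) (1) (0) (0) (-x^4*c^2) (0) (d - x^2*c*d + x^4*c^2) := by
  rw [mulQ]
  exact Q_congr (by ring)
    (by ring)
    (by ring)
    (by ring)
    (by ring)
    (by ring)
    (by ring)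
    (by ring)
    (by ring)
    (by ring)
    (by ring)
    (by ring)
    (by ring)
    (by ring)
    (by ring)
    (by ring)

theorem hm3 (a x c d : ℤ) (h : a * d - x ^ 2 * c = 1) :
    Q (1) (0) (0) (0) (0) (a) (0) (1 - a) (0) (0) (1) (0) (0) (-x^4*c^2) (0) (d - x^2*c*d + x^4*c^2) *
      Q (1) (0) (0) (0) (0) (1) (0) (1 - a) (0) (0) (1) (0) (0) (0) (0) (1) =
    Q (1) (0) (0) (0) (0) (a) (0) (1 - a^2) (0) (0) (1) (0) (0) (-x^4*c^2) (0) (d - x^2*c*d + a*x^4*c^2) := by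
  rw [mulQ]
  exact Q_congr (by ring)
    (by ring)
    (by ring)
    (by ring)
    (by ring)
    (by ring)
    (by ring)
    (by ring)
    (by ring)
    (by ring)
    (by ring)
    (by ring)
    (by ring)
    (by ring)
    (by ring)
    (by ring)

theorem ht0 (a x c d : ℤ) (h : a * d - x ^ 2 * c = 1) :
    Q (1) (0) (0) (0) (0) (1) (0) (a) (0) (0) (1) (0) (0) (0) (0) (1) *
      Q (a) (x) (0) (0) (x * c) (d) (0) (0) (0) (0) (d) (-(x * c)) (0) (0) (-x) (a) =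
    Q (a) (x) (0) (0) (x*c) (d) (-a*x) (a^2) (0) (0) (d) (-x*c) (0) (0) (-x) (a) := by
  rw [mulQ]
  exact Q_congr (by ring)
    (by ring)
    (by ring)
    (by ring)
    (by ring)
    (by ring)
    (by ring)
    (by ring)
    (by ring)
    (by ring)
    (by ring)
    (by ring)
    (by ring)
    (by ring)
    (by ring)
    (by ring)

theorem ht1 (a x c d : ℤ) (h : a * d - x ^ 2 * c = 1) :
    Q (a) (x) (0) (0) (x*c) (d) (-a*x) (a^2) (0) (0) (d) (-x*c) (0) (0) (-x) (a) *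
      Q (1) (0) (0) (0) (0) (1) (0) (-a) (0) (0) (1) (0) (0) (0) (0) (1) =
    Q (a) (x) (0) (-a*x) (x*c) (d) (-a*x) (-1 + a^2 - x^2*c) (0) (0) (d) (-x*c) (0) (0) (-x) (a) := by
  rw [mulQ]
  exact Q_congr (by ring)
    (by ring)
    (by ring)
    (by ring)
    (by ring)
    (by ring)
    (by ring)
    (by linear_combination (-1) * h)
    (by ring)
    (by ring)
    (by ring)
    (by ring)
    (by ring)
    (by ring)
    (by ring)
    (by ring)

theorem ht2 (a x c d : ℤ) (h : a * d - x ^ 2 * c = 1) :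
    Q (a) (x) (0) (-a*x) (x*c) (d) (-a*x) (-1 + a^2 - x^2*c) (0) (0) (d) (-x*c) (0) (0) (-x) (a) *
      Q (1) (0) (0) (x) (0) (1) (x) (0) (0) (0) (1) (0) (0) (0) (0) (1) =
    Q (a) (x) (x^2) (0) (x*c) (d) (x*d - a*x) (-1 + a^2) (0) (0) (d) (-x*c) (0) (0) (-x) (a) := by
  rw [mulQ]
  exact Q_congr (by ring)
    (by ring)
    (by ring)
    (by ring)
    (by ring)
    (by ring)
    (by ring)
    (by ring)
    (by ring)
    (by ring)
    (by ring)
    (by ring)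
    (by ring)
    (by ring)
    (by ring)
    (by ring)

theorem hr0 (a x c d : ℤ) (h : a * d - x ^ 2 * c = 1) :
    Q (1) (0) (0) (0) (0) (1) (0) (0) (c * d - x ^ 2 * c ^ 2 * d + x ^ 4 * c ^ 3 * d) (-(x * c * d) + x ^ 3 * c ^ 2 * d) (1) (0) (-(x * c * d) + x ^ 3 * c ^ 2 * d) (0) (0) (1) *
      Q (1) (0) (0) (0) (-(x * c)) (1) (0) (0) (0) (0) (1) (-(-(x * c))) (0) (0) (-0) (1) =
    Q (1) (0) (0) (0) (-x*c) (1) (0) (0) (c*d) (-x*c*d + x^3*c^2*d) (1) (x*c) (-x*c*d + x^3*c^2*d) (0) (0) (1) := by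
  rw [mulQ]
  exact Q_congr (by ring)
    (by ring)
    (by ring)
    (by ring)
    (by ring)
    (by ring)
    (by ring)
    (by ring)
    (by ring)
    (by ring)
    (by ring)
    (by ring)
    (by ring)
    (by ring)
    (by ring)
    (by ring)

theorem hr1 (a x c d : ℤ) (h : a * d - x ^ 2 * c = 1) :
    Q (1) (0) (0) (0) (-x*c) (1) (0) (0) (c*d) (-x*c*d + x^3*c^2*d) (1) (x*c) (-x*c*d + x^3*c^2*d) (0) (0) (1) *
      Q (1) (0) (0) (0) (0) (a) (0) (1 - a^2) (0) (0) (1) (0) (0) (-x^4*c^2) (0) (d - x^2*c*d + a*x^4*c^2) =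
    Q (1) (0) (0) (0) (-x*c) (a) (0) (1 - a^2) (c*d) (-x*c) (1) (a*x*c) (-x*c*d + x^3*c^2*d) (-x^4*c^2) (0) (d - x^2*c*d + a*x^4*c^2) := by
  rw [mulQ]
  exact Q_congr (by ring)
    (by ring)
    (by ring)
    (by ring)
    (by ring)
    (by ring)
    (by ring)
    (by ring)
    (by ring)
    (by linear_combination (-x*c + x^3*c^2) * h)
    (by ring)
    (by linear_combination (a*x*c - a*x^3*c^2) * h)
    (by ring)
    (by ring)
    (by ring)
    (by ring)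

theorem hr2 (a x c d : ℤ) (h : a * d - x ^ 2 * c = 1) :
    Q (1) (0) (0) (0) (-x*c) (a) (0) (1 - a^2) (c*d) (-x*c) (1) (a*x*c) (-x*c*d + x^3*c^2*d) (-x^4*c^2) (0) (d - x^2*c*d + a*x^4*c^2) *
      Q (a) (x) (x^2) (0) (x*c) (d) (x*d - a*x) (-1 + a^2) (0) (0) (d) (-x*c) (0) (0) (-x) (a) =
    Q (a) (x) (x^2) (0) (0) (1) (0) (0) (c) (0) (d) (0) (-x*c) (-x^2*c*d) (-x*d) (1) := by
  rw [mulQ]
  exact Q_congr (by ring)
    (by ring)
    (by ring)
    (by ring)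
    (by ring)
    (by linear_combination (1) * h)
    (by linear_combination (x) * h)
    (by ring)
    (by linear_combination (c) * h)
    (by ring)
    (by ring)
    (by ring)
    (by linear_combination (-x*c + x^3*c^2) * h)
    (by ring)
    (by ring)
    (by linear_combination (1 - x^2*c) * h)

theorem key (a x c d : ℤ) (h : a * d - x ^ 2 * c = 1) (h' : a * d - x * (x * c) = 1)
    (h1 : 1 * 1 - (d * x) * 0 = (1 : ℤ)) (h2 : 1 * 1 - 0 * (-(x * c)) = (1 : ℤ)) :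
    L a (x ^ 2) c d h * T !![0, -(c * x); -(c * x), 0] * U (sl 1 (d * x) 0 1 h1) =
      T !![c * d - x ^ 2 * c ^ 2 * d + x ^ 4 * c ^ 3 * d, -(x * c * d) + x ^ 3 * c ^ 2 * d;
        -(x * c * d) + x ^ 3 * c ^ 2 * d, 0] * U (sl 1 0 (-(x * c)) 1 h2) *
      (T !![0, 0; 0, 1] * T !![0, 0; 0, (1 - c * x ^ 2) * d - 1] * S !![0, 0; 0, 1 - a] *
        T !![0, 0; 0, -1] * S !![0, 0; 0, 1 - a]) *
      (S !![0, 0; 0, a] * U (sl a x (x * c) d h') * S !![0, 0; 0, -a] * S !![0, x; x, 0]) := by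
  have e1 : (L a (x ^ 2) c d h * T !![0, -(c * x); -(c * x), 0] * U (sl 1 (d * x) 0 1 h1) : GG 2).1 =
      Q (a) (x) (x^2) (0) (0) (1) (0) (0) (c) (0) (d) (0) (-x*c) (-x^2*c*d) (-x*d) (1) := by
    rw [Units.val_mul, Units.val_mul, L_val, T_val, U_val, hl0 a x c d h, hl1 a x c d h]
  have e2 : (T !![0, 0; 0, 1] * T !![0, 0; 0, (1 - c * x ^ 2) * d - 1] * S !![0, 0; 0, 1 - a] *
        T !![0, 0; 0, -1] * S !![0, 0; 0, 1 - a] : GG 2).1 =
      Q (1) (0) (0) (0) (0) (a) (0) (1 - a^2) (0) (0) (1) (0) (0) (-x^4*c^2) (0) (d - x^2*c*d + a*x^4*c^2) := by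
    rw [Units.val_mul, Units.val_mul, Units.val_mul, Units.val_mul, T_val, T_val, T_val, S_val,
      hm0 a x c d h, hm1 a x c d h, hm2 a x c d h, hm3 a x c d h]
  have e3 : (S !![0, 0; 0, a] * U (sl a x (x * c) d h') * S !![0, 0; 0, -a] * S !![0, x; x, 0] :
      GG 2).1 =
      Q (a) (x) (x^2) (0) (x*c) (d) (x*d - a*x) (-1 + a^2) (0) (0) (d) (-x*c) (0) (0) (-x) (a) := by
    rw [Units.val_mul, Units.val_mul, Units.val_mul, S_val, S_val, S_val, U_val,
      ht0 a x c d h, ht1 a x c d h, ht2 a x c d h]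
  apply Units.ext
  rw [e1, Units.val_mul, Units.val_mul, Units.val_mul, e2, e3, T_val, U_val,
    hr0 a x c d h, hr1 a x c d h, hr2 a x c d h]

end Pool.Agent.P8H72.JF.Idn

namespace Pool.Agent.P8H72.JF

open Matrix Idn

/-- **Package IDN** -/
theorem t_IDN : S_IDN := by
  intro M N hN a x c d h hMa hMx hMc hMd
  have h' : a * d - x * (x * c) = 1 := by linear_combination h
  have h1 : 1 * 1 - (d * x) * 0 = (1 : ℤ) := by ring
  have h2 : 1 * 1 - 0 * (-(x * c)) = (1 : ℤ) := by ring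
  have hkey := key a x c d h h' h1 h2
  have sT : ∀ p q t : ℤ, (!![p, q; q, t] : Matrix (Fin 2) (Fin 2) ℤ)ᵀ = !![p, q; q, t] := by
    intro p q t
    ext i j
    fin_cases i <;> fin_cases j <;> rfl
  have mS : ∀ p q t : ℤ, M ∣ p → M ∣ q → M ∣ t → S !![p, q; q, t] ∈ N := by
    intro p q t hp hq ht
    refine hN.s _ (sT p q t) fun i j => ?_
    fin_cases i <;> fin_cases j
    · exact hp
    · exact hq
    · exact hq
    · exact ht
  have mT : ∀ p q t : ℤ, M ∣ p → M ∣ q → M ∣ t → T !![p, q; q, t] ∈ N := by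
    intro p q t hp hq ht
    refine hN.t _ (sT p q t) fun i j => ?_
    fin_cases i <;> fin_cases j
    · exact hp
    · exact hq
    · exact hq
    · exact ht
  have mU : ∀ (p q r t : ℤ) (hh : p * t - q * r = 1), M ∣ p - 1 → M ∣ q → M ∣ r → M ∣ t - 1 →
      U (sl p q r t hh) ∈ N := by
    intro p q r t hh hp hq hr ht
    refine hN.u _ fun i j => ?_
    fin_cases i <;> fin_cases j
    · exact hp
    · change M ∣ q - 0
      rw [sub_zero]
      exact hq
    · change M ∣ r - 0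
      rw [sub_zero]
      exact hr
    · exact ht
  have hs : M ∣ c * x ^ 2 := Dvd.dvd.mul_right hMc _
  -- the factors
  have f1 : (T !![0, -(c * x); -(c * x), 0] : GG 2) ∈ N :=
    mT _ _ _ (dvd_zero _) ((Dvd.dvd.mul_right hMc _).neg_right) (dvd_zero _)
  have f2 : U (sl 1 (d * x) 0 1 h1) ∈ N :=
    mU _ _ _ _ _ (by rw [sub_self]; exact dvd_zero _) (Dvd.dvd.mul_left hMx _) (dvd_zero _)
      (by rw [sub_self]; exact dvd_zero _)
  have f3 : (T !![c * d - x ^ 2 * c ^ 2 * d + x ^ 4 * c ^ 3 * d, -(x * c * d) + x ^ 3 * c ^ 2 * d;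
        -(x * c * d) + x ^ 3 * c ^ 2 * d, 0] : GG 2) ∈ N := by
    refine mT _ _ _ ?_ ?_ (dvd_zero _)
    · obtain ⟨w, rfl⟩ := hMc
      exact ⟨w * d - x ^ 2 * w * (M * w) * d + x ^ 4 * w * (M * w) ^ 2 * d, by ring⟩
    · obtain ⟨w, rfl⟩ := hMc
      exact ⟨-(x * w * d) + x ^ 3 * w * (M * w) * d, by ring⟩
  have f4 : U (sl 1 0 (-(x * c)) 1 h2) ∈ N :=
    mU _ _ _ _ _ (by rw [sub_self]; exact dvd_zero _) (dvd_zero _)
      ((Dvd.dvd.mul_left hMc _).neg_right) (by rw [sub_self]; exact dvd_zero _)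
  have f5 : (T !![0, 0; 0, 1] * T !![0, 0; 0, (1 - c * x ^ 2) * d - 1] * S !![0, 0; 0, 1 - a] *
        T !![0, 0; 0, -1] * S !![0, 0; 0, 1 - a] : GG 2) ∈ N := by
    have g1 : (T !![0, 0; 0, (1 - c * x ^ 2) * d - 1] : GG 2) ∈ N := by
      refine mT _ _ _ (dvd_zero _) (dvd_zero _) ?_
      obtain ⟨w, rfl⟩ := hMc
      obtain ⟨w', hw'⟩ := hMd
      exact ⟨w' - w * x ^ 2 * d, by linear_combination hw'⟩
    have g2 : (S !![0, 0; 0, 1 - a] : GG 2) ∈ N :=
      mS _ _ _ (dvd_zero _) (dvd_zero _) (by rw [← neg_sub]; exact hMa.neg_right)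
    have g3 := hN.ct !![0, 0; 0, 1] (sT 0 0 1) _ (N.mul_mem g1 g2)
    have g4 : (T !![0, 0; 0, -1] : GG 2) = (T !![0, 0; 0, 1])⁻¹ := by
      apply Units.ext
      change fromBlocks 1 0 !![0, 0; 0, -1] 1 = fromBlocks 1 0 (-!![0, 0; 0, 1]) 1
      congr 1
      ext i j
      fin_cases i <;> fin_cases j <;> rfl
    have g5 := N.mul_mem g3 g2
    rw [g4]
    rw [← mul_assoc] at g5
    exact g5
  have f6 : (S !![0, 0; 0, a] * U (sl a x (x * c) d h') * S !![0, 0; 0, -a] * S !![0, x; x, 0] :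
      GG 2) ∈ N := by
    have g1 : U (sl a x (x * c) d h') ∈ N := mU _ _ _ _ _ hMa hMx (Dvd.dvd.mul_left hMc _) hMd
    have g3 := hN.cs !![0, 0; 0, a] (sT 0 0 a) _ g1
    have g4 : (S !![0, 0; 0, -a] : GG 2) = (S !![0, 0; 0, a])⁻¹ := by
      apply Units.ext
      change fromBlocks 1 !![0, 0; 0, -a] 0 1 = fromBlocks 1 (-!![0, 0; 0, a]) 0 1
      congr 1
      ext i j
      fin_cases i <;> fin_cases j <;> simp
    have g5 := N.mul_mem g3 (mS 0 x 0 (dvd_zero _) hMx (dvd_zero _))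
    rw [g4]
    exact g5
  have f7 := N.mul_mem (N.mul_mem (N.mul_mem f3 f4) f5) f6
  rw [← hkey] at f7
  exact (N.mul_mem_cancel_right f1).1 ((N.mul_mem_cancel_right f2).1 f7)

end Pool.Agent.P8H72.JF
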