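import Pool.Agent.P8H72.JF.Stm1

/-!
Package IND of project JF: induction on the set of fixed planes.
-/

set_option autoImplicit false

namespace Pool.Agent.P8H72.JF

open Matrix

theorem nice_mono {g : ℕ} {M M' : ℤ} {N : Subgroup (GG g)} (h : M ∣ M') (hN : Nice g M N) :
    Nice g M' N where
  s X h1 h2 := hN.s X h1 fun i j => h.trans (h2 i j)
  t X h1 h2 := hN.t X h1 fun i j => h.trans (h2 i j)
  u P h1 := hN.u P fun i j => h.trans (h1 i j)
  cs := hN.cs
  ct := hN.ct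

theorem t_IND : S_IND := by
  intro hBAS hSTA hSTB g k₀ M N hM h2 hN
  obtain ⟨hmul, -, hcmul, -, -, -, -, -⟩ := hBAS
  have hone : Symp (1 : Mat g) := by
    unfold Symp
    rw [Matrix.transpose_one, Matrix.one_mul, Matrix.mul_one]
  have claim : ∀ J : Finset (Fin g), k₀ ∉ J → ∀ M : ℤ, M ≠ 0 → 2 ∣ M → Nice g M N →
      ∃ M' : ℤ, M' ≠ 0 ∧ M ∣ M' ∧ ∀ A : GG g, Symp A.1 → Cg M' A.1 →
        ∃ n ∈ N, Symp n.1 ∧ Symp (n * A).1 ∧ Cg M (n * A).1 ∧ Fix (↑J : Set (Fin g)) (n * A).1 := by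
    intro J
    induction J using Finset.induction_on with
    | empty =>
      intro _ M hM h2 hN
      refine ⟨M, hM, dvd_rfl, fun A hA hA' => ⟨1, N.one_mem, hone, ?_, ?_, ?_⟩⟩
      · rw [one_mul]; exact hA
      · rw [one_mul]; exact hA'
      · intro j hj
        simp at hj
    | insert k J hkJ ih =>
      intro hk0 M hM h2 hN
      rw [Finset.mem_insert, not_or] at hk0
      obtain ⟨hk0, hk0J⟩ := hk0
      obtain ⟨M', hM', hdvd, ih⟩ := ih hk0J (M ^ 2) (pow_ne_zero 2 hM) (h2.trans (dvd_pow_self M two_ne_zero))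
        (nice_mono (dvd_pow_self M two_ne_zero) hN)
      refine ⟨M', hM', (dvd_pow_self M two_ne_zero).trans hdvd, fun A hA hA' => ?_⟩
      obtain ⟨n1, hn1, hs1, hs1', hc1, hf1⟩ := ih A hA hA'
      obtain ⟨n2, hn2, hs2, hc2, hf2, hcol⟩ := hSTA g (↑J : Set (Fin g)) k k₀ (by simpa using hkJ)
        (by simpa using hk0J) (Ne.symm hk0) M N hM h2 hN (n1 * A) hs1' hc1 hf1
      have hc1' : Cg M (n1 * A).1 := fun x y => (dvd_pow_self M two_ne_zero).trans (hc1 x y)
      have hs3 : Symp (n2 * (n1 * A)).1 := by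
        rw [Units.val_mul]
        exact hmul g _ _ hs2 hs1'
      have hc3 : Cg M (n2 * (n1 * A)).1 := by
        rw [Units.val_mul]
        exact hcmul g M _ _ hc2 hc1'
      obtain ⟨n3, hn3, hs4, hc4, hf4⟩ := hSTB g (↑J : Set (Fin g)) k (by simpa using hkJ) M N hN
        (n2 * (n1 * A)) hs3 hc3 hf2 hcol
      have he : n3 * n2 * n1 * A = n3 * (n2 * (n1 * A)) := by group
      refine ⟨n3 * n2 * n1, N.mul_mem (N.mul_mem hn3 hn2) hn1, ?_, ?_, ?_, ?_⟩
      · rw [Units.val_mul, Units.val_mul]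
        exact hmul g _ _ (hmul g _ _ hs4 hs2) hs1
      · rw [he, Units.val_mul]
        exact hmul g _ _ hs4 hs3
      · rw [he, Units.val_mul]
        exact hcmul g M _ _ hc4 hc3
      · rw [he, Finset.coe_insert]
        exact hf4
  obtain ⟨M', hM', -, h⟩ := claim (Finset.univ.erase k₀) (by simp) M hM h2 hN
  refine ⟨M', hM', fun A hA hA' => ?_⟩
  obtain ⟨n, hn, hs, hs', hc, hf⟩ := h A hA hA'
  refine ⟨n, hn, hs, hs', hc, fun j hj => hf j ?_⟩
  simpa using hj

end Pool.Agent.P8H72.JF
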