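import Pool.Agent.P8H72.JF.Stm2

/-!
# JF/KER (helper45): the kernel of the homology class
-/

set_option autoImplicit false

namespace Pool.Agent.P8H72.JF

theorem hm_of (g : ℕ) (y : Fin g ⊕ Fin g) :
    hm g (PresentedGroup.of y) = Multiplicative.ofAdd (Pi.single y 1) := by
  unfold hm
  rw [PresentedGroup.toGroup.of]
  unfold fh
  rw [FreeGroup.lift_apply_of]

/-- the product with given exponents in an abelian quotient -/
def kerS (g : ℕ) : Multiplicative (Fin g ⊕ Fin g → ℤ) →* Abelianization (Sg g) :=
  MonoidHom.mk' (fun v => ∏ y, (Abelianization.of (PresentedGroup.of y : Sg g)) ^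
    (Multiplicative.toAdd v y)) (by
      intro a b
      rw [← Finset.prod_mul_distrib]
      refine Finset.prod_congr rfl fun y _ => ?_
      rw [toAdd_mul, Pi.add_apply, zpow_add])

theorem kerS_hm (g : ℕ) : (kerS g).comp (hm g) = Abelianization.of := by
  refine PresentedGroup.ext fun y => ?_
  rw [MonoidHom.comp_apply, hm_of]
  change ∏ z, (Abelianization.of (PresentedGroup.of z : Sg g)) ^
    ((Pi.single y 1 : Fin g ⊕ Fin g → ℤ) z) = _
  rw [Finset.prod_eq_single y]
  · rw [Pi.single_eq_same, zpow_one]
  · intro z _ hz
    rw [Pi.single_eq_of_ne hz, zpow_zero]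
  · intro h
    exact absurd (Finset.mem_univ y) h

theorem t_KER : S_KER := by
  intro g x
  constructor
  · intro h
    have h1 : hm g x = 1 := by
      have h2 : Multiplicative.ofAdd (hv x) = 1 := by rw [h]; rfl
      exact h2
    have h3 : (Abelianization.of x : Abelianization (Sg g)) = 1 := by
      rw [← kerS_hm, MonoidHom.comp_apply, h1, map_one]
    have h4 : x ∈ (Abelianization.of : Sg g →* Abelianization (Sg g)).ker := h3
    rw [Abelianization.ker_of] at h4
    exact h4
  · intro h
    have h1 := Abelianization.commutator_subset_ker (hm g) h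
    rw [MonoidHom.mem_ker] at h1
    unfold hv
    rw [h1]
    rfl

end Pool.Agent.P8H72.JF
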