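import Pool.Agent.P8H72.JF.Stm1

/-! Project JF, package LFO (helper44): the elements `L` which are `1` modulo `M` -/

set_option autoImplicit false

namespace Pool.Agent.P8H72.JF

open Matrix

theorem L_mul_S (a b c d u : ℤ) (h : a * d - b * c = 1)
    (h' : a * (d + c * u) - (b + a * u) * c = 1) :
    L a b c d h * S !![u, 0; 0, 0] = L a (b + a * u) c (d + c * u) h' := by
  apply Units.ext
  change (fromBlocks !![a, 0; 0, 1] !![b, 0; 0, 0] !![c, 0; 0, 0] !![d, 0; 0, 1] : Mat 2) *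
    fromBlocks 1 !![u, 0; 0, 0] 0 1 =
    fromBlocks !![a, 0; 0, 1] !![b + a * u, 0; 0, 0] !![c, 0; 0, 0] !![d + c * u, 0; 0, 1]
  rw [fromBlocks_multiply, fromBlocks_inj]
  refine ⟨?_, ?_, ?_, ?_⟩ <;> ext i j <;> fin_cases i <;> fin_cases j <;> simp <;> ring

theorem L_mul_T (a b c d u : ℤ) (h : a * d - b * c = 1)
    (h' : (a + b * u) * d - b * (c + d * u) = 1) :
    L a b c d h * T !![u, 0; 0, 0] = L (a + b * u) b (c + d * u) d h' := by
  apply Units.ext
  change (fromBlocks !![a, 0; 0, 1] !![b, 0; 0, 0] !![c, 0; 0, 0] !![d, 0; 0, 1] : Mat 2) *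
    fromBlocks 1 0 !![u, 0; 0, 0] 1 =
    fromBlocks !![a + b * u, 0; 0, 1] !![b, 0; 0, 0] !![c + d * u, 0; 0, 0] !![d, 0; 0, 1]
  rw [fromBlocks_multiply, fromBlocks_inj]
  refine ⟨?_, ?_, ?_, ?_⟩ <;> ext i j <;> fin_cases i <;> fin_cases j <;> simp

theorem t_LFO : S_LFO := by
  intro hI hN M N hM h8 hNi a b c d h ha hb hc hd
  have hsy : ∀ u : ℤ, (!![u, 0; 0, 0] : Matrix (Fin 2) (Fin 2) ℤ)ᵀ = !![u, 0; 0, 0] := by
    intro u
    ext i j
    fin_cases i <;> fin_cases j <;> rfl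
  have hdv : ∀ t : ℤ, ∀ i j : Fin 2, M ∣ (!![M * t, 0; 0, 0] : Matrix (Fin 2) (Fin 2) ℤ) i j := by
    intro t i j
    fin_cases i <;> fin_cases j <;> simp
  have hS : ∀ t : ℤ, S !![M * t, 0; 0, 0] ∈ N := fun t => hNi.s _ (hsy _) (hdv t)
  have hT : ∀ t : ℤ, T !![M * t, 0; 0, 0] ∈ N := fun t => hNi.t _ (hsy _) (hdv t)
  refine hN M hM h8 (fun a b => ∀ (c d : ℤ) (h : a * d - b * c = 1), M ∣ a - 1 → M ∣ b → M ∣ c →
    M ∣ d - 1 → L a b c d h ∈ N) ?_ ?_ ?_ a b ha hb ⟨d, -c, by linarith⟩ c d h ha hb hc hd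
  · intro a b t hQ c d h ha hb hc hd
    have h' : a * (d + c * (M * t)) - (b + a * (M * t)) * c = 1 := by
      rw [← h]
      ring
    have h1 : L a (b + a * (M * t)) c (d + c * (M * t)) h' ∈ N := by
      have h2 := hQ c (d + c * (M * t)) (by rw [← h]; ring) ha
        (dvd_add hb ⟨a * t, by ring⟩) hc
        (by
          have : d + c * (M * t) - 1 = (d - 1) + M * (c * t) := by ring
          rw [this]
          exact dvd_add hd (dvd_mul_right _ _))
      have h3 : b + a * M * t = b + a * (M * t) := by ring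
      simp only [h3] at h2
      exact h2
    rw [← L_mul_S a b c d (M * t) h h'] at h1
    exact (Subgroup.mul_mem_cancel_right N (hS t)).mp h1
  · intro a b t hQ c d h ha hb hc hd
    have h' : (a + b * (M * t)) * d - b * (c + d * (M * t)) = 1 := by
      rw [← h]
      ring
    have h1 : L (a + b * (M * t)) b (c + d * (M * t)) d h' ∈ N := by
      have h2 := hQ (c + d * (M * t)) d (by rw [← h]; ring)
        (by
          have : a + b * M * t - 1 = (a - 1) + M * (b * t) := by ring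
          rw [this]
          exact dvd_add ha (dvd_mul_right _ _)) hb
        (dvd_add hc ⟨d * t, by ring⟩) hd
      have h3 : a + b * M * t = a + b * (M * t) := by ring
      simp only [h3] at h2
      exact h2
    rw [← L_mul_T a b c d (M * t) h h'] at h1
    exact (Subgroup.mul_mem_cancel_right N (hT t)).mp h1
  · intro a x ha hx _ c d h _ _ hc hd
    exact hI M N hNi a x c d h ha hx hc hd

end Pool.Agent.P8H72.JF
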