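import Pool.Agent.P8H72.JF.Stm1

/-!
# Project JF, package NTH: a pair `(a, b)` can be moved to a pair `(a', x ^ 2)` (helper82)
-/

set_option autoImplicit false

namespace Pool.Agent.P8H72.JF

open NumberTheorySymbols

namespace Nth

variable {M : ℤ} {Q : ℤ → ℤ → Prop}

theorem stepA (h1 : ∀ a b t : ℤ, Q a (b + a * M * t) → Q a b)
    (h3 : ∀ a x : ℤ, M ∣ a - 1 → M ∣ x → IsCoprime a x → Q a (x ^ 2))
    (a b y : ℤ) (ha : M ∣ a - 1) (hb : M ∣ b) (hab : IsCoprime a b) (hy : a ∣ y ^ 2 - b) : Q a b := by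
  obtain ⟨k, hk⟩ := ha
  have haM : IsCoprime a M := ⟨1, -k, by linear_combination hk⟩
  -- `x = y * (a-part)`
  obtain ⟨u, v, huv⟩ := haM
  have hx : a ∣ (y * (v * M)) ^ 2 - b := by
    have e : (y * (v * M)) ^ 2 - b = (y ^ 2 - b) + a * (y ^ 2 * (a * u ^ 2 - 2 * u)) := by
      have hv : v * M = 1 - u * a := by linear_combination huv
      rw [hv]; ring
    rw [e]
    exact dvd_add hy (dvd_mul_right _ _)
  have hxM : M ∣ (y * (v * M)) ^ 2 - b := by
    refine dvd_sub ?_ hb
    exact dvd_pow (Dvd.intro_left (y * v) (by ring)) two_ne_zero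
  obtain ⟨t, ht⟩ := (show IsCoprime a M from ⟨u, v, huv⟩).mul_dvd hx hxM
  have hcx : IsCoprime a (y * (v * M)) := by
    have : IsCoprime a ((y * (v * M)) ^ 2) := by
      have e : (y * (v * M)) ^ 2 = b + a * (M * t) := by linear_combination ht
      rw [e]
      exact IsCoprime.add_mul_left_right hab _
    exact IsCoprime.of_isCoprime_of_dvd_right this (dvd_pow_self _ two_ne_zero)
  have := h3 a (y * (v * M)) ⟨k, hk⟩ (Dvd.intro_left (y * v) (by ring)) hcx
  refine h1 a b t ?_
  have e : b + a * M * t = (y * (v * M)) ^ 2 := by linear_combination -ht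
  rw [e]
  exact this

/-- a prime in a residue class -/
theorem exPrime (a m : ℤ) (hm : m ≠ 0) (h : IsCoprime a m) :
    ∃ p : ℕ, p.Prime ∧ ∃ t : ℤ, (p : ℤ) = a + m * t := by
  have hm' : m.natAbs ≠ 0 := Int.natAbs_ne_zero.2 hm
  have h' : IsCoprime a (m.natAbs : ℤ) := by
    rcases Int.natAbs_eq m with e | e
    · rwa [← e]
    · have : (m.natAbs : ℤ) = -m := by rw [e, neg_neg, Int.natAbs_neg, Int.natAbs_natCast]
      rw [this]
      exact h.neg_right
  obtain ⟨p, -, hp, hpa⟩ := Nat.forall_exists_prime_gt_and_zmodEq 0 hm' h'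
  refine ⟨p, hp, ?_⟩
  have h2 : m ∣ (p : ℤ) - a := by
    have h3 : ((m.natAbs : ℤ)) ∣ (p : ℤ) - a := (Int.ModEq.dvd hpa.symm)
    exact Int.natAbs_dvd.1 h3
  obtain ⟨t, ht⟩ := h2
  exact ⟨t, by linear_combination ht⟩

theorem chi8_one {n : ℕ} (h : n % 8 = 1 ∨ n % 8 = 7) : J(2 | n) = 1 := by
  have ho : Odd n := by rw [Nat.odd_iff]; omega
  rw [jacobiSym.at_two ho, ZMod.χ₈_nat_eq_if_mod_eight, if_neg (by omega), if_pos h]

/-- the key computation: `q ≡ -p`, `p ≡ 1 mod 8` -/
theorem recip (n p q : ℕ) (hn : n ≠ 0) (hp : p % 8 = 1) (hq : q % 8 = 7)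
    (hpq : (n : ℤ) ∣ (q : ℤ) + p) : J((n : ℤ) | q) = J((n : ℤ) | p) := by
  obtain ⟨e, m, hm, rfl⟩ := Nat.exists_eq_two_pow_mul_odd hn
  have hpo : Odd p := by rw [Nat.odd_iff]; omega
  have hqo : Odd q := by rw [Nat.odd_iff]; omega
  push_cast
  rw [jacobiSym.mul_left, jacobiSym.mul_left, jacobiSym.pow_left, jacobiSym.pow_left,
    chi8_one (Or.inl hp), chi8_one (Or.inr hq), one_pow, one_mul, one_mul]
  have hmq : (m : ℤ) ∣ (q : ℤ) + p := by
    refine dvd_trans ?_ hpq
    push_cast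
    exact dvd_mul_left _ _
  have hmod : J((q : ℤ) | m) = J(-(p : ℤ) | m) := by
    apply jacobiSym.mod_left'
    refine (Int.emod_emod_of_dvd _ (dvd_refl _)).symm.trans ?_
    rw [Int.emod_emod_of_dvd _ (dvd_refl _)]
    exact Int.ModEq.symm ((Int.modEq_iff_dvd).2 (by simpa using hmq))
  have hR : J((m : ℤ) | p) = J((p : ℤ) | m) :=
    jacobiSym.quadratic_reciprocity_one_mod_four' hm (by omega)
  rw [hR]
  rcases Nat.odd_mod_four_iff.1 (Nat.odd_iff.1 hm) with h | h
  · rw [jacobiSym.quadratic_reciprocity_one_mod_four h hqo, hmod, jacobiSym.neg _ hm,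
      ZMod.χ₄_nat_one_mod_four h, one_mul]
  · rw [jacobiSym.quadratic_reciprocity_three_mod_four h (by omega), hmod, jacobiSym.neg _ hm,
      ZMod.χ₄_nat_three_mod_four h]
    ring

theorem exSq (p : ℕ) (hp : p.Prime) (b : ℤ) (h : J(b | p) = 1) : ∃ y : ℤ, (p : ℤ) ∣ y ^ 2 - b := by
  have : Fact p.Prime := ⟨hp⟩
  obtain ⟨r, hr⟩ := ZMod.isSquare_of_jacobiSym_eq_one h
  refine ⟨(r.val : ℤ), ?_⟩
  rw [← ZMod.intCast_zmod_eq_zero_iff_dvd]
  push_cast
  rw [ZMod.natCast_zmod_val, hr]
  ring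

end Nth

open Nth in
theorem t_NTH : S_NTH := by
  intro M hM h8 Q h1 h2 h3 a b haM hbM hab
  have h8' : ∀ z : ℤ, M ∣ z → (8 : ℤ) ∣ z := fun z hz => dvd_trans h8 hz
  rcases eq_or_ne b 0 with rfl | hb0
  · have ha1 : a = 1 := by
      have hu : IsUnit a := isCoprime_zero_right.1 hab
      rcases Int.isUnit_iff.1 hu with h | h
      · exact h
      · exfalso
        have := h8' _ haM
        rw [h] at this
        omega
    subst ha1
    exact stepA h1 h3 1 0 0 haM hbM hab (one_dvd _)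
  -- a prime `p`
  have haMc : IsCoprime a M := by
    obtain ⟨k, hk⟩ := haM
    exact ⟨1, -k, by linear_combination hk⟩
  obtain ⟨p, hp, t, ht⟩ := exPrime a (b * M) (mul_ne_zero hb0 hM) (hab.mul_right haMc)
  have hpM : M ∣ (p : ℤ) - 1 := by
    have e : (p : ℤ) - 1 = (a - 1) + M * (b * t) := by linear_combination ht
    rw [e]
    exact dvd_add haM (dvd_mul_right _ _)
  have hpb : IsCoprime (p : ℤ) b := by
    have e : (p : ℤ) = a + b * (M * t) := by linear_combination ht
    rw [e]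
    exact IsCoprime.add_mul_left_left hab _
  have hp8 : p % 8 = 1 := by
    have := h8' _ hpM
    omega
  have key : Q p b := by
    have hg : b.gcd p = 1 := Int.isCoprime_iff_gcd_eq_one.1 hpb.symm
    rcases jacobiSym.eq_one_or_neg_one hg with h | h
    · obtain ⟨y, hy⟩ := exSq p hp b h
      exact stepA h1 h3 p b y hpM hbM hpb hy
    · -- make `b` negative
      obtain ⟨b', s, hs, hneg⟩ : ∃ b' s : ℤ, b' = b + p * M * s ∧ b' < 0 := by
        refine ⟨b + p * M * (-M * (|b| + 1)), -M * (|b| + 1), rfl, ?_⟩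
        have h1 : 1 ≤ M ^ 2 := by
          have : 0 < M ^ 2 := by positivity
          omega
        have h2 : (1 : ℤ) ≤ p := by exact_mod_cast hp.one_lt.le
        have h3 : b ≤ |b| := le_abs_self b
        have h4 : 0 ≤ |b| := abs_nonneg b
        have h5 : 1 ≤ (p : ℤ) * M ^ 2 := by nlinarith
        nlinarith
      refine h1 p b s ?_
      rw [← hs]
      have hb'M : M ∣ b' := by
        rw [hs]
        exact dvd_add hbM ⟨p * s, by ring⟩
      have hpb' : IsCoprime (p : ℤ) b' := by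
        have e : b' = b + p * (M * s) := by linear_combination hs
        rw [e]
        exact IsCoprime.add_mul_left_right hpb _
      have hJ : J(b' | p) = -1 := by
        rw [← h]
        apply jacobiSym.mod_left'
        rw [hs, mul_assoc, Int.add_mul_emod_self_left]
      have hpMc : IsCoprime (p : ℤ) M := by
        obtain ⟨k, hk⟩ := hpM
        exact ⟨1, -k, by linear_combination hk⟩
      obtain ⟨q, hq, r, hr⟩ := exPrime (-(p : ℤ)) (b' * M) (mul_ne_zero hneg.ne hM)
        ((hpb'.mul_right hpMc).neg_left)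
      refine h2 p b' (-r) ?_
      have e1 : (p : ℤ) + b' * M * -r = -(q : ℤ) := by linear_combination hr
      rw [e1]
      have hqM : M ∣ -(q : ℤ) - 1 := by
        have e : -(q : ℤ) - 1 = ((p : ℤ) - 1) + M * (-(b' * r)) := by linear_combination -hr
        rw [e]
        exact dvd_add hpM (dvd_mul_right _ _)
      have hqb : IsCoprime (-(q : ℤ)) b' := by
        have e : -(q : ℤ) = p + b' * (-(M * r)) := by linear_combination -hr
        rw [e]
        exact IsCoprime.add_mul_left_left hpb' _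
      have hq8 : q % 8 = 7 := by
        have := h8' _ hqM
        omega
      have hn : ((b'.natAbs : ℕ) : ℤ) = -b' := by
        rw [Int.natCast_natAbs, abs_of_neg hneg]
      have hbn : b' = -((b'.natAbs : ℕ) : ℤ) := by rw [hn, neg_neg]
      have hqo : Odd q := by rw [Nat.odd_iff]; omega
      have hpo : Odd p := by rw [Nat.odd_iff]; omega
      have hrec := recip b'.natAbs p q (Int.natAbs_ne_zero.2 hneg.ne) hp8 hq8 (by
        rw [hn]
        refine (neg_dvd).2 ?_
        exact ⟨M * r, by linear_combination hr⟩)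
      have hJp : J((b'.natAbs : ℤ) | p) = -1 := by
        rw [← hJ]
        conv_rhs => rw [hbn]
        rw [jacobiSym.neg _ hpo, ZMod.χ₄_nat_one_mod_four (by omega), one_mul]
      have hJq : J(b' | q) = 1 := by
        rw [hbn, jacobiSym.neg _ hqo, ZMod.χ₄_nat_three_mod_four (by omega), hrec, hJp]
        norm_num
      obtain ⟨y, hy⟩ := exSq q hq b' hJq
      exact stepA h1 h3 _ b' y hqM hb'M hqb ((neg_dvd).2 hy)
  refine h2 a b t ?_
  have e : a + b * M * t = p := by linear_combination -ht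
  rw [e]
  exact key

end Pool.Agent.P8H72.JF
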