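import Pool.Agent.P8H72.JF.Stm1

/-! Project JF, package PRI (helper44): making a column unimodular -/

set_option autoImplicit false

namespace Pool.Agent.P8H72.JF

open Matrix

theorem t_PRI : S_PRI := by
  intro g D k l hk hl hkl u r e δ hu he
  classical
  by_cases hδ : δ = 0
  · refine ⟨0, fun i => if i ∈ D then r i else 0, fun i _ => rfl, fun i hi => if_neg hi, ?_⟩
    rw [hδ, mul_zero, zero_add] at he
    rw [smul_zero, add_zero, ← he]
    refine Finset.sum_congr rfl fun i _ => ?_
    by_cases hi : i ∈ D
    · simp only [if_pos hi]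
    · simp only [if_neg hi, hu i hi, mul_zero]
  · obtain ⟨t, ht⟩ : ∃ t : ℤ, u k + δ * t ≠ 0 := by
      by_cases h : u k = 0
      · exact ⟨1, by rw [h, mul_one, zero_add]; exact hδ⟩
      · exact ⟨0, by rwa [mul_zero, add_zero]⟩
    let F : Finset ℕ := (u k + δ * t).natAbs.primeFactors.filter (fun q : ℕ => ¬ (q : ℤ) ∣ u l)
    let s : ℤ := ∏ q ∈ F, (q : ℤ)
    let w : Fin g → ℤ := fun i => if i = k then t else if i = l then s else 0
    have hwk : w k = t := if_pos rfl
    have hwl : w l = s := by
      simp only [w, if_neg (Ne.symm hkl), if_pos]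
    have key : Ideal.span (Set.range (u + δ • w)) = ⊤ := by
      by_contra hne
      obtain ⟨m, hm, hle⟩ := Ideal.exists_le_maximal _ hne
      have hmem : ∀ i, u i + δ * w i ∈ m := fun i => hle (Ideal.subset_span ⟨i, rfl⟩)
      have hmp : m.IsPrime := hm.isPrime
      have hnk : u k + δ * t ∈ m := by
        have := hmem k
        rwa [hwk] at this
      have hp : Prime (Submodule.IsPrincipal.generator m) := by
        refine Submodule.IsPrincipal.prime_generator_of_isPrime m ?_
        rintro rfl
        exact ht (by simpa using hnk)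
      have hdv : ∀ x, x ∈ m ↔ Submodule.IsPrincipal.generator m ∣ x := fun x =>
        Submodule.IsPrincipal.mem_iff_generator_dvd m
      generalize Submodule.IsPrincipal.generator m = p at hp hdv
      have hq : p.natAbs.Prime := Int.prime_iff_natAbs_prime.mp hp
      have hqd : ∀ x : ℤ, (p.natAbs : ℤ) ∣ x ↔ p ∣ x := fun x => Int.natAbs_dvd
      have hmem' : ∀ i, p ∣ u i + δ * w i := fun i => (hdv _).mp (hmem i)
      by_cases hpd : p ∣ δ
      · have hpu : ∀ i, p ∣ u i := fun i =>
          (dvd_add_left (Dvd.dvd.mul_right hpd _)).mp (hmem' i)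
        have h1 : p ∣ 1 := by
          rw [← he]
          exact dvd_add (Dvd.dvd.mul_left hpd _)
            (Finset.dvd_sum fun i _ => Dvd.dvd.mul_left (hpu i) _)
        exact hp.not_isUnit (isUnit_of_dvd_one h1)
      · have h2 := hmem' l
        rw [hwl] at h2
        by_cases hul : p ∣ u l
        · have h3 : p ∣ δ * s := (dvd_add_right hul).mp h2
          have h4 : p ∣ s := (hp.dvd_or_dvd h3).resolve_left hpd
          obtain ⟨q', hq', h5⟩ := (Prime.dvd_finsetProd_iff hp _).mp h4
          have h6 := Finset.mem_filter.mp hq'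
          have h7 : p.natAbs ∣ q' := by
            have := Int.natAbs_dvd_natAbs.mpr h5
            simpa using this
          have h8 : p.natAbs = q' :=
            (Nat.prime_dvd_prime_iff_eq hq (Nat.prime_of_mem_primeFactors h6.1)).mp h7
          apply h6.2
          rw [← h8, hqd]
          exact hul
        · have h3 : p.natAbs ∈ F := by
            refine Finset.mem_filter.mpr ⟨Nat.mem_primeFactors.mpr ⟨hq, ?_, ?_⟩, ?_⟩
            · exact Int.natAbs_dvd_natAbs.mpr ((hdv _).mp hnk)
            · exact Int.natAbs_ne_zero.mpr ht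
            · rw [hqd]
              exact hul
          have h4 : p ∣ s := by
            rw [← hqd]
            exact Finset.dvd_prod_of_mem (fun q : ℕ => (q : ℤ)) h3
          exact hul ((dvd_add_left (Dvd.dvd.mul_left h4 _)).mp h2)
    have h1 : (1 : ℤ) ∈ Ideal.span (Set.range (u + δ • w)) := by
      rw [key]
      trivial
    obtain ⟨c, hc⟩ := (Ideal.mem_span_range_iff_exists_fun).mp h1
    have hw : ∀ i, i ∉ D → w i = 0 := by
      intro i hi
      have h2 : i ≠ k := fun h => hi (h ▸ hk)
      have h3 : i ≠ l := fun h => hi (h ▸ hl)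
      simp only [w, if_neg h2, if_neg h3]
    refine ⟨w, fun i => if i ∈ D then c i else 0, hw, fun i hi => if_neg hi, ?_⟩
    rw [← hc]
    refine Finset.sum_congr rfl fun i _ => ?_
    by_cases hi : i ∈ D
    · simp only [if_pos hi]
    · simp only [if_neg hi, Pi.add_apply, Pi.smul_apply, hu i hi, hw i hi, smul_zero, add_zero,
        mul_zero]

end Pool.Agent.P8H72.JF
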