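import Pool.Agent.P8H72.JF.Stm1

/-! # JF/STB (helper94): the column `b_k` -/

set_option autoImplicit false

namespace Pool.Agent.P8H72.JF

open Matrix

namespace STB

variable {g : ℕ}

/-- the matrix with the row `v` at the place `k` -/
def E (k : Fin g) (v : Fin g → ℤ) : Matrix (Fin g) (Fin g) ℤ := Matrix.of fun i j => if i = k then v j else 0

theorem E_sq (k : Fin g) (v : Fin g → ℤ) (hv : v k = 0) : E k v * E k v = 0 := by
  ext i j
  rw [Matrix.mul_apply]
  simp only [E, Matrix.of_apply, Matrix.zero_apply]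
  refine Finset.sum_eq_zero fun l _ => ?_
  by_cases h : l = k
  · subst h
    simp [hv]
  · simp [h]

theorem E_det (k : Fin g) (v : Fin g → ℤ) (hv : v k = 0) : (1 + E k v).det = 1 := by
  have e : E k v = Matrix.replicateCol Unit (Pi.single k 1 : Fin g → ℤ) * Matrix.replicateRow Unit v := by
    ext i j
    rw [Matrix.mul_apply]
    simp [E, Pi.single_apply]
  rw [e, Matrix.det_one_add_replicateCol_mul_replicateRow]
  simp [hv]

/-- the matrix `1 + E` -/
def P (k : Fin g) (v : Fin g → ℤ) (hv : v k = 0) : SpecialLinearGroup (Fin g) ℤ := ⟨1 + E k v, E_det k v hv⟩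

theorem P_inv (k : Fin g) (v : Fin g → ℤ) (hv : v k = 0) : ((P k v hv)⁻¹).1 = 1 - E k v := by
  have hd : (1 - E k v).det = 1 := by
    have h := E_det k (-v) (by simp [hv])
    have e : E k (-v) = - E k v := by
      ext i j
      simp only [E, Matrix.of_apply, Matrix.neg_apply, Pi.neg_apply]
      split_ifs <;> simp
    rwa [e, ← sub_eq_add_neg] at h
  have h2 : (P k v hv)⁻¹ = ⟨1 - E k v, hd⟩ := by
    refine inv_eq_of_mul_eq_one_right ?_
    apply Subtype.ext
    change (1 + E k v) * (1 - E k v) = 1
    rw [Matrix.mul_sub, Matrix.mul_one, Matrix.add_mul, Matrix.one_mul, E_sq k v hv]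
    simp
  rw [h2]

/-- the symmetric matrix with the row and the column `- v` at the place `k` -/
def X (k : Fin g) (v : Fin g → ℤ) : Matrix (Fin g) (Fin g) ℤ :=
  Matrix.of fun i j => if i = k then - v j else if j = k then - v i else 0

theorem X_symm (k : Fin g) (v : Fin g → ℤ) : (X k v)ᵀ = X k v := by
  ext i j
  simp only [X, Matrix.transpose_apply, Matrix.of_apply]
  by_cases hi : i = k <;> by_cases hj : j = k <;> simp [hi, hj]

end STB

open STB in
theorem t_STB : S_STB := by
  rintro ⟨hb1, -, hb3, -, hb5, hb6, hb7, hb8⟩ g J k hk M N hN A hA hC hF hak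
  obtain ⟨p, hp⟩ : ∃ p : Fin g → ℤ, ∀ i, A.1 (Sum.inl i) (Sum.inr k) = p i := ⟨_, fun _ => rfl⟩
  obtain ⟨q, hq⟩ : ∃ q : Fin g → ℤ, ∀ i, A.1 (Sum.inr i) (Sum.inr k) = q i := ⟨_, fun _ => rfl⟩
  have hJk : ∀ j ∈ J, j ≠ k := fun j hj h => hk (h ▸ hj)
  have hpJ : ∀ j ∈ J, p j = 0 := by
    intro j hj
    rw [← hp, (hb8 g J A.1 hA hF j hj (Sum.inr k)).1]
    simp
  have hqJ : ∀ j ∈ J, q j = 0 := by
    intro j hj
    rw [← hq, (hb8 g J A.1 hA hF j hj (Sum.inr k)).2]
    simp [Matrix.one_apply, hJk j hj]
  have hpM : ∀ i, M ∣ p i := by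
    intro i
    have h := hC (Sum.inl i) (Sum.inr k)
    rw [hp] at h
    simpa using h
  have hqM : ∀ i, i ≠ k → M ∣ q i := by
    intro i hi
    have h := hC (Sum.inr i) (Sum.inr k)
    rw [hq] at h
    simpa [Matrix.one_apply, hi] using h
  have hqk : q k = 1 := by
    have h := congrFun (congrFun hA (Sum.inl k)) (Sum.inr k)
    rw [Matrix.mul_assoc, Matrix.mul_apply] at h
    simp only [Matrix.transpose_apply, hak, Matrix.one_apply, ite_mul, one_mul, zero_mul, Finset.sum_ite_eq',
      Finset.mem_univ, if_true] at h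
    rw [Matrix.mul_apply, Fintype.sum_sum_type] at h
    simp only [Jm, Matrix.fromBlocks_apply₁₁, Matrix.fromBlocks_apply₁₂, Matrix.zero_apply, zero_mul,
      Finset.sum_const_zero, zero_add, Matrix.one_apply, ite_mul, one_mul, Finset.sum_ite_eq, Finset.mem_univ,
      if_true, hq] at h
    exact h
  -- the matrices
  set v : Fin g → ℤ := fun j => if j = k then 0 else q j with hv
  have hvk : v k = 0 := by simp [hv]
  have hvM : ∀ j, M ∣ v j := by
    intro j
    rw [hv]
    by_cases h : j = k
    · simp [h]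
    · simpa [h] using hqM j h
  have hvJ : ∀ j ∈ J, v j = 0 := by
    intro j hj
    simp [hv, hqJ j hj]
  set p' : Fin g → ℤ := fun i => p i + if i = k then v ⬝ᵥ p else 0 with hp'
  have hp'M : ∀ i, M ∣ p' i := by
    intro i
    refine dvd_add (hpM i) ?_
    split_ifs
    · exact Finset.dvd_sum fun j _ => Dvd.dvd.mul_right (hvM j) _
    · exact dvd_zero _
  have hp'J : ∀ j ∈ J, p' j = 0 := by
    intro j hj
    simp [hp', hpJ j hj, hJk j hj]
  have hPM : ∀ i j, M ∣ (P k v hvk).1 i j - (1 : Matrix (Fin g) (Fin g) ℤ) i j := by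
    intro i j
    change M ∣ (1 + E k v) i j - (1 : Matrix (Fin g) (Fin g) ℤ) i j
    rw [Matrix.add_apply, add_sub_cancel_left]
    simp only [E, Matrix.of_apply]
    split_ifs
    · exact hvM j
    · exact dvd_zero _
  have hPM' : ∀ i j, M ∣ ((P k v hvk)⁻¹).1 i j - (1 : Matrix (Fin g) (Fin g) ℤ) i j := by
    intro i j
    rw [P_inv, Matrix.sub_apply, sub_sub_cancel_left]
    simp only [E, Matrix.of_apply]
    split_ifs
    · exact (dvd_neg).2 (hvM j)
    · simp
  have hXM : ∀ i j, M ∣ X k p' i j := by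
    intro i j
    simp only [X, Matrix.of_apply]
    split_ifs
    · exact (dvd_neg).2 (hp'M j)
    · exact (dvd_neg).2 (hp'M i)
    · exact dvd_zero _
  refine ⟨S (X k p') * U (P k v hvk), N.mul_mem (hN.s _ (X_symm k p') hXM) (hN.u _ hPM), ?_, ?_, ?_⟩
  · exact hb1 g _ _ (hb5 g _ (X_symm k p')).1 (hb6 g _)
  · refine hb3 g M _ _ (hb7 g M _ hXM).1 ?_
    rintro (i | i) (j | j)
    · simpa [U, Matrix.one_apply] using hPM i j
    · simp [U]
    · simp [U]
    · have h := hPM' j i
      simp only [U, Matrix.fromBlocks_apply₂₂, Matrix.transpose_apply]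
      rw [show (1 : Mat g) (Sum.inr i) (Sum.inr j) = (1 : Matrix (Fin g) (Fin g) ℤ) j i by
        simp [Matrix.one_apply, eq_comm]]
      exact h
  · -- the product
    have hn : (S (X k p') * U (P k v hvk)).1 = fromBlocks (1 + E k v) (X k p' * (1 - E k v)ᵀ) 0 (1 - E k v)ᵀ := by
      change fromBlocks 1 (X k p') 0 1 * fromBlocks (P k v hvk).1 0 0 (((P k v hvk)⁻¹).1)ᵀ = _
      rw [P_inv, fromBlocks_multiply]
      simp [P]
    have hX2 : ∀ i j, j ≠ k → (X k p' * (1 - E k v)ᵀ : Matrix (Fin g) (Fin g) ℤ) i j = X k p' i j := by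
      intro i j hj
      rw [Matrix.mul_apply]
      simp [E, hj, Matrix.sub_apply, Matrix.one_apply]
    have hmv : (1 - E k v)ᵀ *ᵥ q = Pi.single k 1 := by
      ext i
      rw [Matrix.mulVec, dotProduct]
      have e : ∀ x, (1 - E k v)ᵀ i x * q x = (if x = i then q x else 0) - (if x = k then v i * q x else 0) := by
        intro x
        simp only [Matrix.transpose_apply, Matrix.sub_apply, Matrix.one_apply, E, Matrix.of_apply, sub_mul, ite_mul,
          one_mul, zero_mul]
      rw [Finset.sum_congr rfl fun x _ => e x, Finset.sum_sub_distrib]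
      simp only [Finset.sum_ite_eq', Finset.mem_univ, if_true, hqk, mul_one, Pi.single_apply, hv]
      by_cases hi : i = k
      · subst hi
        simp [hqk]
      · simp [hi]
    have hmp : ∀ i, ∑ x, (1 + E k v) i x * p x = p' i := by
      intro i
      have e : ∀ x, (1 + E k v) i x * p x = (if i = x then p x else 0) + (if i = k then v x * p x else 0) := by
        intro x
        simp only [Matrix.add_apply, Matrix.one_apply, E, Matrix.of_apply, add_mul, ite_mul,
          one_mul, zero_mul]
      rw [Finset.sum_congr rfl fun x _ => e x, Finset.sum_add_distrib, hp']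
      simp only [Finset.sum_ite_eq, Finset.mem_univ, if_true]
      by_cases hi : i = k
      · simp [hi, dotProduct]
      · simp [hi]
    -- columns of the product
    have hcol : ∀ (y : Fin g ⊕ Fin g), (∀ x, A.1 x y = (1 : Mat g) x y) → ∀ x,
        (S (X k p') * U (P k v hvk) * A).1 x y = (S (X k p') * U (P k v hvk)).1 x y := by
      intro y hy x
      rw [Units.val_mul, Matrix.mul_apply]
      simp [hy, Matrix.one_apply]
    rintro j (rfl | hj) x
    · refine ⟨?_, ?_⟩
      · rw [hcol _ hak, hn]
        rcases x with i | i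
        · simp [E, hvk, Matrix.one_apply]
        · simp
      · rw [Units.val_mul, Matrix.mul_apply, Fintype.sum_sum_type, hn]
        simp only [hp, hq]
        rcases x with i | i
        · simp only [Matrix.fromBlocks_apply₁₁, Matrix.fromBlocks_apply₁₂]
          have e : ∑ x, (X j p' * (1 - E j v)ᵀ : Matrix (Fin g) (Fin g) ℤ) i x * q x = - p' i := by
            have e1 : ∑ x, (X j p' * (1 - E j v)ᵀ : Matrix (Fin g) (Fin g) ℤ) i x * q x =
                ((X j p' * (1 - E j v)ᵀ) *ᵥ q) i := rfl
            rw [e1, ← Matrix.mulVec_mulVec, hmv]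
            by_cases hi : i = j
            · simp [X, hi]
            · simp [X, hi]
          rw [hmp, e]
          simp
        · simp only [Matrix.fromBlocks_apply₂₁, Matrix.fromBlocks_apply₂₂]
          have e : ∑ x, (1 - E j v)ᵀ i x * q x = (Pi.single j 1 : Fin g → ℤ) i := by
            rw [← hmv]
            rfl
          rw [e]
          simp [Pi.single_apply, Matrix.one_apply]
    · have hjk := hJk j hj
      refine ⟨?_, ?_⟩
      · rw [hcol _ (fun x => (hF j hj x).1), hn]
        rcases x with i | i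
        · simp [E, hvJ j hj, Matrix.one_apply]
        · simp
      · rw [hcol _ (fun x => (hF j hj x).2), hn]
        rcases x with i | i
        · rw [Matrix.fromBlocks_apply₁₂, hX2 i j hjk]
          simp [X, hp'J j hj, hjk]
        · simp [E, hjk.symm, Matrix.one_apply, eq_comm]

end Pool.Agent.P8H72.JF
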