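import Pool.Agent.P8H72.JF.Stm1

set_option autoImplicit false

namespace Pool.Agent.P8H72.JF

open Matrix

theorem t_SYM : S_SYM := by
  intro g D p r w hr hw h1
  refine ⟨Matrix.of fun i j => w i * r j + r i * w j - (w ⬝ᵥ p) * (r i * r j), ?_, ?_, ?_⟩
  · ext i j
    simp only [transpose_apply, of_apply]
    ring
  · intro i j hi
    simp only [of_apply]
    rw [hr i hi, hw i hi]
    ring
  · ext i
    have h2 : ((Matrix.of fun i j => w i * r j + r i * w j - (w ⬝ᵥ p) * (r i * r j)) *ᵥ p) i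
        = w i * (r ⬝ᵥ p) + r i * (w ⬝ᵥ p) - (w ⬝ᵥ p) * r i * (r ⬝ᵥ p) := by
      simp only [mulVec, dotProduct, of_apply, Finset.mul_sum]
      rw [← Finset.sum_add_distrib, ← Finset.sum_sub_distrib]
      refine Finset.sum_congr rfl fun j _ => ?_
      ring
    rw [h2, h1]
    ring

end Pool.Agent.P8H72.JF
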