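import Pool.Agent.P8H72.JF.Fin
import Pool.Agent.P8H72.JF.BAS
import Pool.Agent.P8H72.JF.CHA
import Pool.Agent.P8H72.JF.COL
import Pool.Agent.P8H72.JF.EMB
import Pool.Agent.P8H72.JF.FRM
import Pool.Agent.P8H72.JF.GEN1
import Pool.Agent.P8H72.JF.GEN2
import Pool.Agent.P8H72.JF.IDN
import Pool.Agent.P8H72.JF.IND
import Pool.Agent.P8H72.JF.KER
import Pool.Agent.P8H72.JF.LFO
import Pool.Agent.P8H72.JF.NTH
import Pool.Agent.P8H72.JF.PRI
import Pool.Agent.P8H72.JF.RHO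
import Pool.Agent.P8H72.JF.STB
import Pool.Agent.P8H72.JF.SYM
import Pool.Agent.P8H21.JF.HEI
import Pool.Agent.P8H42.JF.Twb
import Pool.Agent.P8H59.JF.Sta
import Pool.Agent.P8H75.JF.Twa

/-!
# Project JF: the congruence subgroup property of `Sp_{2g}(ℤ)`, and its consequence for `Aut π`
-/

set_option autoImplicit false

namespace Pool.Agent.P8H72.JF

open scoped commutatorElement

/-- the congruence subgroup property -/
theorem t_SPC : S_SPC :=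
  spc_of t_BAS t_SYM t_PRI t_COL Pool.Agent.P8H59.JF.t_STA t_STB t_IND t_IDN t_NTH t_LFO t_EMB

theorem main (n : ℕ)
    (V : Subgroup (MulAut (Sg (n + 3)))) [V.FiniteIndex] [V.Normal]
    (hV : ∀ φ : MulAut (Sg (n + 3)),
      (∀ x, φ x * x⁻¹ ∈ ⁅(⊤ : Subgroup (Sg (n + 3))), (⊤ : Subgroup (Sg (n + 3)))⁆) → φ ∈ V) :
    ∃ K : Subgroup (Sg (n + 3)), K.Characteristic ∧ K.FiniteIndex ∧
      ∀ φ : MulAut (Sg (n + 3)), (∀ x, φ x * x⁻¹ ∈ K) → φ ∈ V :=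
  main_of t_GEN1 t_GEN2 t_SPC t_RHO t_KER t_CHA Pool.Agent.P8H21.JF.t_HEI t_FRM Pool.Agent.P8H75.JF.t_TWA
    Pool.Agent.P8H42.JF.twb n V hV

end Pool.Agent.P8H72.JF
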