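import Pool.Agent.P8H25.CSP.Out

/-!
# Project JF: persistent quotients and filtrations

An abstract statement: let `J c` be normal subgroups of `Aut G` which contain the inner automorphisms and such that, inside every
congruence subgroup, the subgroups of finite index containing `J c` are congruence subgroups. Then the congruence subgroup property
is equivalent to the absence of quotients which persist on all `J c ∩ H'`.
-/

set_option autoImplicit false

namespace Pool.Agent.P8H72.JF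

open Subgroup Pool.Agent.P8H25.CSP

variable {G : Type} [Group G]

/-- the automorphisms which act on `G / K` as inner automorphisms -/
def innG (K : Subgroup G) (hK : K.Characteristic) : Subgroup (MulAut G) where
  carrier := {φ | ∃ h : G, ∀ x : G, φ x * (h * x * h⁻¹)⁻¹ ∈ K}
  one_mem' := ⟨1, fun x => by
    have : (1 : MulAut G) x * (1 * x * 1⁻¹)⁻¹ = 1 := by simp
    rw [this]
    exact K.one_mem⟩
  mul_mem' := by
    rintro φ ψ ⟨h, hh⟩ ⟨k, hk⟩
    refine ⟨φ k * h, fun x => ?_⟩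
    have h1 : φ (ψ x * (k * x * k⁻¹)⁻¹) ∈ K := by
      have := hK.fixed φ
      have h2 := hk x
      rw [← this] at h2
      exact h2
    have h3 : (φ * ψ) x * (φ k * h * x * (φ k * h)⁻¹)⁻¹ =
        φ (ψ x * (k * x * k⁻¹)⁻¹) * (φ k * (φ x * (h * x * h⁻¹)⁻¹) * (φ k)⁻¹) := by
      simp only [MulAut.mul_apply, map_mul, map_inv]
      group
    rw [h3]
    have hn : K.Normal := normal_of_characteristic K
    exact K.mul_mem h1 (hn.conj_mem _ (hh x) _)
  inv_mem' := by
    rintro φ ⟨h, hh⟩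
    refine ⟨φ⁻¹ h⁻¹, fun x => ?_⟩
    have hn : K.Normal := normal_of_characteristic K
    have h1 : ∀ y, y ∈ K → φ⁻¹ y ∈ K := by
      intro y hy
      have := hK.fixed φ⁻¹
      rw [← this] at hy
      exact hy
    set y := φ⁻¹ x with hy
    have hxy : x = φ y := by rw [hy, MulAut.apply_inv_self]
    -- `φ y = n h y h⁻¹`
    have h2 := hh (φ⁻¹ h⁻¹ * x * (φ⁻¹ h⁻¹)⁻¹)
    have h3 : φ⁻¹ x * (φ⁻¹ h⁻¹ * x * (φ⁻¹ h⁻¹)⁻¹)⁻¹ =
        (φ⁻¹ h⁻¹ * x * (φ⁻¹ h⁻¹)⁻¹ * (φ⁻¹ x)⁻¹)⁻¹ := by group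
    rw [h3]
    apply K.inv_mem
    have h4 : φ⁻¹ h⁻¹ * x * (φ⁻¹ h⁻¹)⁻¹ * (φ⁻¹ x)⁻¹ = φ⁻¹ (h⁻¹ * φ x * h * x⁻¹) := by
      simp only [map_mul, map_inv, MulAut.inv_apply_self, inv_inv]
    rw [h4]
    apply h1
    have h5 : h⁻¹ * φ x * h * x⁻¹ = h⁻¹ * (φ x * (h * x * h⁻¹)⁻¹) * h⁻¹⁻¹ := by group
    rw [h5]
    exact hn.conj_mem _ (hh x) _

theorem innG_normal (K : Subgroup G) (hK : K.Characteristic) : (innG K hK).Normal := by
  refine ⟨?_⟩
  rintro φ ⟨h, hh⟩ ψ
  refine ⟨ψ h, fun x => ?_⟩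
  have h1 : (ψ * φ * ψ⁻¹) x * (ψ h * x * (ψ h)⁻¹)⁻¹ =
      ψ (φ (ψ⁻¹ x) * (h * (ψ⁻¹ x) * h⁻¹)⁻¹) := by
    simp only [MulAut.mul_apply, map_mul, map_inv, MulAut.apply_inv_self]
  rw [h1]
  have h2 := hh (ψ⁻¹ x)
  have := hK.fixed ψ
  rw [← this] at h2
  exact h2

/-- `f` is surjective on `J c ∩ H'` for all `c` and all congruence subgroups `H'` contained in `H`. -/
def DeepP (J : ℕ → Subgroup (MulAut G)) (H : Subgroup (MulAut G)) {Q : Type} [Group Q] (f : H →* Q) : Prop :=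
  ∀ (c : ℕ) (H' : Subgroup (MulAut G)), H' ≤ H → Congruence H' → ((H' ⊓ J c).subgroupOf H).map f = ⊤

theorem deep_iff (J : ℕ → Subgroup (MulAut G)) (hJn : ∀ c, (J c).Normal)
    (hJ : ∀ (c : ℕ) (A : Subgroup (MulAut G)), Congruence A → ∀ V : Subgroup A, V.FiniteIndex →
      (∀ a : A, a.1 ∈ J c → a ∈ V) → Congruence (V.map A.subtype)) :
    CongruenceProperty G ↔ ∀ H : Subgroup (MulAut G), Congruence H → H.Normal →
      ∀ (Q : Type) [Group Q], Finite Q → IsSimpleGroup Q → ∀ f : H →* Q, Function.Surjective f →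
        (∀ (x : G) (y : H), (y : MulAut G) = MulAut.conj x → f y = 1) → ¬ DeepP J H f := by
  constructor
  · intro h H hH hHn Q _ hQ hQs f hf hfo hd
    obtain ⟨H', h1, h2, h3⟩ := csp_iff_simple.1 h H hH hHn Q hQ hQs f hf hfo
    apply h3
    rw [eq_top_iff, ← hd 0 H' h1 h2]
    exact map_mono (comap_mono inf_le_left)
  · intro h
    rw [csp_iff_simple]
    intro H hH hHn Q _ hQ hQs f hf hfo
    by_contra hcon
    push Not at hcon
    apply h H hH hHn Q hQ hQs f hf hfo
    intro c H' hH' hc'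
    have htop : (H'.subgroupOf H).map f = ⊤ := hcon H' hH' hc'
    -- the image of `J c ∩ H'` is normal
    set N : Subgroup Q := ((H' ⊓ J c).subgroupOf H).map f with hN
    have hNn : N.Normal := by
      refine ⟨?_⟩
      rintro _ ⟨a, ha, rfl⟩ q
      have hq : q ∈ (H'.subgroupOf H).map f := by
        rw [htop]
        trivial
      obtain ⟨b, hb, rfl⟩ := hq
      rw [← map_inv, ← map_mul, ← map_mul]
      refine ⟨b * a * b⁻¹, ?_, rfl⟩
      have hb' : (b : MulAut G) ∈ H' := hb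
      have ha' : (a : MulAut G) ∈ H' ⊓ J c := ha
      show ((b * a * b⁻¹ : H) : MulAut G) ∈ H' ⊓ J c
      refine ⟨?_, ?_⟩
      · exact H'.mul_mem (H'.mul_mem hb' ha'.1) (H'.inv_mem hb')
      · exact (hJn c).conj_mem _ ha'.2 _
    rcases hQs.eq_bot_or_eq_top_of_normal N hNn with hb | ht
    swap
    · exact ht
    exfalso
    -- the kernel of `f` on `H'`
    set F : H' →* Q := f.comp (inclusion hH') with hF
    have hFf : F.ker.FiniteIndex := by
      refine ⟨?_⟩
      rw [index_ker]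
      exact Nat.card_pos.ne'
    have h1 : Congruence (F.ker.map H'.subtype) := by
      refine hJ c H' hc' F.ker hFf ?_
      intro a ha
      rw [MonoidHom.mem_ker]
      have h2 : F a ∈ N := ⟨inclusion hH' a, ⟨a.2, ha⟩, rfl⟩
      rw [hb, mem_bot] at h2
      exact h2
    have h2 : F.ker.map H'.subtype ≤ H := (map_subtype_le _).trans hH'
    have h3 := hcon _ h2 h1
    have h4 : ((F.ker.map H'.subtype).subgroupOf H).map f = ⊥ := by
      rw [eq_bot_iff]
      rintro _ ⟨a, ha, rfl⟩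
      obtain ⟨b, hb1, hb2⟩ := ha
      have h5 : a = inclusion hH' b := Subtype.ext hb2.symm
      rw [mem_bot, h5]
      exact hb1
    rw [h4] at h3
    obtain ⟨x, hx⟩ := exists_ne (1 : Q)
    have : x ∈ (⊥ : Subgroup Q) := by
      rw [h3]
      trivial
    exact hx (mem_bot.1 this)

end Pool.Agent.P8H72.JF
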