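import Pool.Agent.P8H72.JF.Stm2

/-!
# Project JF: assembly (with the packages as hypotheses)
-/

set_option autoImplicit false

namespace Pool.Agent.P8H72.JF

open Matrix
open scoped commutatorElement

/-- the packages of part 1 give the congruence subgroup property -/
theorem spc_of (hBAS : S_BAS) (hSYM : S_SYM) (hPRI : S_PRI) (hCOL : S_COL) (hSTA : S_STA) (hSTB : S_STB)
    (hIND : S_IND) (hIDN : S_IDN) (hNTH : S_NTH) (hLFO : S_LFO) (hEMB : S_EMB) : S_SPC := by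
  intro n M N hM h8 hN
  have h2 : (2 : ℤ) ∣ M := Dvd.dvd.trans (by norm_num) h8
  obtain ⟨M', hM', hA⟩ := hIND hBAS (hSTA hBAS hSYM hPRI hCOL) (hSTB hBAS) (n + 3) 0 M N hM h2 hN
  refine ⟨M', hM', fun A hs hc => ?_⟩
  obtain ⟨m, hm, h1, h3, h4, h5⟩ := hA A hs hc
  have h01 : (0 : Fin (n + 3)) ≠ 1 := by
    intro h
    have := congrArg Fin.val h
    simp at this
  obtain ⟨N', hN', h6⟩ := hEMB hBAS (n + 3) 0 1 h01 M N hN
  obtain ⟨a, b, c, d, h, ha, hb, hc', hd, h7⟩ := h6 (m * A) h3 h4 h5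
  have h8' := h7 (hLFO hIDN hNTH M N' hM h8 hN' a b c d h ha hb hc' hd)
  have := mul_mem (inv_mem hm) h8'
  rwa [inv_mul_cancel_left] at this

theorem T_add {g : ℕ} (X Y : Matrix (Fin g) (Fin g) ℤ) : T (X + Y) = T X * T Y := by
  apply Units.ext
  rw [Units.val_mul]
  show fromBlocks 1 0 (X + Y) 1 = fromBlocks 1 0 X 1 * fromBlocks 1 0 Y 1
  rw [fromBlocks_multiply]
  simp

/-- **A subgroup of finite index of `Aut π` which contains the automorphisms acting trivially on homology contains the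
automorphisms acting trivially modulo a characteristic subgroup of finite index.** -/
theorem main_of (hGEN1 : S_GEN1) (hGEN2 : S_GEN2) (hSPC : S_SPC) (hRHO : S_RHO) (hKER : S_KER) (hCHA : S_CHA)
    (hHEI : S_HEI) (hFRM : S_FRM) (hTWA : S_TWA) (hTWB : S_TWB) (n : ℕ)
    (V : Subgroup (MulAut (Sg (n + 3)))) [V.FiniteIndex] [V.Normal]
    (hV : ∀ φ : MulAut (Sg (n + 3)),
      (∀ x, φ x * x⁻¹ ∈ ⁅(⊤ : Subgroup (Sg (n + 3))), (⊤ : Subgroup (Sg (n + 3)))⁆) → φ ∈ V) :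
    ∃ K : Subgroup (Sg (n + 3)), K.Characteristic ∧ K.FiniteIndex ∧
      ∀ φ : MulAut (Sg (n + 3)), (∀ x, φ x * x⁻¹ ∈ K) → φ ∈ V := by
  obtain ⟨ρ, hρ, hρu⟩ := hRHO (n + 3)
  set m := V.index with hmdef
  have hm0 : 0 < m := Nat.pos_of_ne_zero Subgroup.FiniteIndex.index_ne_zero
  set R : Subgroup (GG (n + 3)) := ρ.range with hR
  set N : Subgroup (GG (n + 3)) := V.map ρ with hNdef
  have hTW : ∀ B : GG (n + 3), (∃ φ : MulAut (Sg (n + 3)), ∀ x, hv (φ x) = B.1 *ᵥ hv x) → B ∈ R := by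
    rintro B ⟨φ, hφ⟩
    exact ⟨φ, hρu φ B hφ⟩
  have hgen := hGEN1 n R (fun i => ⟨hTW _ (hTWA (n + 3) i).1, hTW _ (hTWA (n + 3) i).2⟩) (by
    intro i j hij
    have h1 := hTW _ (hTWB (n + 3) i j hij)
    have h2 := mul_mem (mul_mem h1 (hTW _ (hTWA (n + 3) i).2)) (hTW _ (hTWA (n + 3) j).2)
    rw [← T_add, ← T_add] at h2
    have h3 : Matrix.single i j (1 : ℤ) + Matrix.single j i (1 : ℤ) - Matrix.single i i (1 : ℤ) -
        Matrix.single j j (1 : ℤ) + Matrix.single i i (1 : ℤ) + Matrix.single j j (1 : ℤ) =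
        Matrix.single i j 1 + Matrix.single j i 1 := by abel
    rwa [h3] at h2)
  have hNice := hGEN2 n R N m hm0 (by
    rintro _ ⟨φ, rfl⟩
    rw [← map_pow]
    exact Subgroup.mem_map_of_mem ρ (Subgroup.pow_index_mem V φ)) (by
    rintro _ ⟨φ, rfl⟩ _ ⟨ψ, hψ, rfl⟩
    rw [← map_inv, ← map_mul, ← map_mul]
    exact Subgroup.mem_map_of_mem ρ (Subgroup.Normal.conj_mem inferInstance ψ hψ φ)) hgen
  obtain ⟨M', hM', hA⟩ := hSPC n (8 * m) N (by positivity) (dvd_mul_right _ _) hNice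
  obtain ⟨K, hK1, hK2, hK3⟩ := hCHA hRHO (n + 3) (3 * M'.natAbs) (by
    have := Int.natAbs_pos.2 hM'
    positivity)
  refine ⟨K, hK1, hK2, fun φ hφ => ?_⟩
  have hvmul : ∀ x y : Sg (n + 3), hv (x * y) = hv x + hv y := fun x y => by
    unfold hv
    rw [map_mul, toAdd_mul]
  have hvinv : ∀ x : Sg (n + 3), hv x⁻¹ = - hv x := fun x => by
    unfold hv
    rw [map_inv, toAdd_inv]
  have hgenv : ∀ y, hv (PresentedGroup.of y : Sg (n + 3)) = Pi.single y 1 := by
    intro y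
    unfold hv Pool.Agent.P8H72.JF.hm
    rw [PresentedGroup.toGroup.of]
    simp [fh]
  -- congruence of the matrix
  have hcong : ∀ x y, ((3 * M'.natAbs : ℕ) : ℤ) ∣ (ρ φ).1 x y - (1 : Mat (n + 3)) x y := by
    intro x y
    have h1 := (hK3 _).1 (hφ (PresentedGroup.of y)) x
    rw [hvmul, hvinv, hρ, hgenv, mulVec_single_one] at h1
    have h2 : (1 : Mat (n + 3)) x y = (Pi.single y 1 : Fin (n + 3) ⊕ Fin (n + 3) → ℤ) x := by
      rw [Matrix.one_apply, Pi.single_apply]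
    rw [h2, sub_eq_add_neg]
    exact h1
  have hM'dvd : (M' : ℤ) ∣ ((3 * M'.natAbs : ℕ) : ℤ) := by
    rw [Nat.cast_mul, Int.natCast_natAbs]
    exact Dvd.dvd.mul_left ((dvd_abs _ _).2 (dvd_refl _)) _
  have h3dvd : (3 : ℤ) ∣ ((3 * M'.natAbs : ℕ) : ℤ) := by
    rw [Nat.cast_mul]
    exact dvd_mul_right _ _
  have hsymp : Symp (ρ φ).1 := by
    rcases hFRM hHEI (n + 3) (by omega) φ (ρ φ) (hρ φ) with h | h
    · exact h
    · exfalso
      -- modulo three
      set r : Mat (n + 3) →+* Matrix (Fin (n + 3) ⊕ Fin (n + 3)) (Fin (n + 3) ⊕ Fin (n + 3)) (ZMod 3) :=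
        (Int.castRingHom (ZMod 3)).mapMatrix with hr
      have h1 : r (ρ φ).1 = 1 := by
        have : r (ρ φ).1 = r 1 := by
          ext x y
          show (((ρ φ).1 x y : ℤ) : ZMod 3) = (((1 : Mat (n + 3)) x y : ℤ) : ZMod 3)
          rw [ZMod.intCast_eq_intCast_iff_dvd_sub]
          have := h3dvd.trans (hcong x y)
          rw [← neg_sub, dvd_neg] at this
          exact_mod_cast this
        rw [this, map_one]
      have h1' : r ((ρ φ).1)ᵀ = 1 := by
        have : r ((ρ φ).1)ᵀ = (r (ρ φ).1)ᵀ := rfl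
        rw [this, h1, transpose_one]
      have h2 := congrArg r h
      rw [map_mul, map_mul, h1, h1', one_mul, mul_one, map_neg] at h2
      have h4 := congrFun (congrFun h2 (Sum.inl 0)) (Sum.inr 0)
      have h5 : r (Jm (n + 3)) (Sum.inl 0) (Sum.inr 0) = 1 := by
        show (((Jm (n + 3)) (Sum.inl 0) (Sum.inr 0) : ℤ) : ZMod 3) = 1
        simp [Jm]
      rw [Matrix.neg_apply, h5] at h4
      exact absurd h4 (by decide)
  obtain ⟨ψ, hψ, hψe⟩ := hA (ρ φ) hsymp (fun x y => hM'dvd.trans (hcong x y))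
  have h6 : ψ⁻¹ * φ ∈ V := by
    apply hV
    intro x
    rw [← hKER, hvmul, hvinv, hρ, map_mul, map_inv, hψe, inv_mul_cancel, Units.val_one, one_mulVec]
    exact add_neg_cancel _
  have := mul_mem hψ h6
  rwa [mul_inv_cancel_left] at this

end Pool.Agent.P8H72.JF
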