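import Pool.Agent.P8H72.JF.Fin
import Pool.Agent.N66.TJ.Main

/-!
# Project JF: from normal subgroups of finite index of `Aut π` to subgroups of groups `A ≤ Aut π`
-/

set_option autoImplicit false

namespace Pool.Agent.P8H72.JF

open scoped commutatorElement

/-- the group of the automorphisms which act trivially on the abelianization -/
def IA (G : Type) [Group G] : Subgroup (MulAut G) :=
  R569.CS.lay (MonoidHom.id (MulAut G)) (⊤ : Subgroup G) ⁅(⊤ : Subgroup G), (⊤ : Subgroup G)⁆

theorem mem_IA {G : Type} [Group G] (φ : MulAut G) :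
    φ ∈ IA G ↔ ∀ x, φ x * x⁻¹ ∈ ⁅(⊤ : Subgroup G), (⊤ : Subgroup G)⁆ :=
  ⟨fun h x => h.2 x (Subgroup.mem_top x), fun h => ⟨fun _ => Subgroup.mem_top _, fun x _ => h x⟩⟩

instance IA_normal (G : Type) [Group G] : (IA G).Normal := by
  refine ⟨fun φ hφ ψ => ?_⟩
  rw [mem_IA] at hφ ⊢
  intro x
  have h1 : (ψ * φ * ψ⁻¹) x * x⁻¹ = ψ (φ (ψ⁻¹ x) * (ψ⁻¹ x)⁻¹) := by
    rw [MulAut.mul_apply, MulAut.mul_apply, map_mul, map_inv, MulAut.apply_inv_self]
  rw [h1]
  have h2 : (⁅(⊤ : Subgroup G), (⊤ : Subgroup G)⁆).Characteristic := inferInstance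
  exact Subgroup.characteristic_iff_le_comap.1 h2 ψ (hφ _)

/-- The reduction: if the normal subgroups of finite index of `Aut G` which contain `IA G` are congruence subgroups, then so are
the subgroups of finite index of `A / Inn G` which contain a term of the Johnson filtration, if `A · IA G` has finite index. -/
theorem reduce {G : Type} [Group G] [Group.FG G]
    (hG : ∀ (V : Subgroup (MulAut G)), V.FiniteIndex → V.Normal → IA G ≤ V →
      ∃ K : Subgroup G, K.Characteristic ∧ K.FiniteIndex ∧ ∀ φ : MulAut G, (∀ x, φ x * x⁻¹ ∈ K) → φ ∈ V)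
    (A : Subgroup (MulAut G)) (hInn : ∀ x : G, MulAut.conj x ∈ A) (hA : (A ⊔ IA G).FiniteIndex) (c : ℕ)
    (V : Subgroup A) (hV : V.FiniteIndex)
    (h : ∀ a : A, (∃ g, ∀ x, a.1 x * (g * x * g⁻¹)⁻¹ ∈ (⊤ : Subgroup G).lowerCentralSeries c) → a ∈ V) :
    ∃ K : Subgroup G, K.Characteristic ∧ K.FiniteIndex ∧
      ∀ a : A, (∃ g, ∀ x, a.1 x * (g * x * g⁻¹)⁻¹ ∈ K) → a ∈ V := by
  refine N66.TJ.outer_general A hInn (⊤ : Subgroup G) (fun V hV hle => ?_) c V hV h
  -- the subgroup `V · IA` has finite index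
  set q : MulAut G →* MulAut G ⧸ IA G := QuotientGroup.mk' (IA G) with hq
  have hqs : Function.Surjective q := QuotientGroup.mk'_surjective _
  set f : A →* MulAut G ⧸ IA G := q.comp A.subtype with hf
  have hAr : (f.range).comap q = A ⊔ IA G := by
    rw [hf, MonoidHom.range_comp, Subgroup.range_subtype, Subgroup.comap_map_eq, hq,
      QuotientGroup.ker_mk']
  have hr : f.range.index ≠ 0 := by
    rw [← Subgroup.index_comap_of_surjective f.range hqs, hAr]
    exact hA.index_ne_zero
  have h1 : (V.map f.rangeRestrict).index ≠ 0 := by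
    have h2 := Subgroup.index_map_dvd (H := V) (f := f.rangeRestrict) f.rangeRestrict_surjective
    intro h3
    rw [h3, zero_dvd_iff] at h2
    exact hV.index_ne_zero h2
  have h2 : ((V.map f.rangeRestrict).map f.range.subtype).index ≠ 0 := by
    rw [Subgroup.index_map_subtype]
    exact mul_ne_zero h1 hr
  have h3 : (V.map f.rangeRestrict).map f.range.subtype = V.map f := by
    rw [Subgroup.map_map]
    rfl
  rw [h3] at h2
  set W : Subgroup (MulAut G) := (V.map f).comap q with hW
  have hWf : W.FiniteIndex := ⟨by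
    rw [hW, Subgroup.index_comap_of_surjective _ hqs]
    exact h2⟩
  have hIW : IA G ≤ W := by
    intro φ hφ
    refine ⟨1, V.one_mem, ?_⟩
    have : q φ = 1 := (QuotientGroup.eq_one_iff φ).2 hφ
    rw [map_one]
    exact this.symm
  have hIc : IA G ≤ W.normalCore := Subgroup.normal_le_normalCore.2 hIW
  obtain ⟨K, hK1, hK2, hK3⟩ := hG W.normalCore inferInstance inferInstance hIc
  refine ⟨K, hK1, hK2, fun a ha => ?_⟩
  obtain ⟨v, hv, hve⟩ := W.normalCore_le (hK3 a.1 ha)
  have h4 : (v⁻¹ * a : A) ∈ V := by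
    apply hle
    have h5 : q ((v : MulAut G)⁻¹ * a.1) = 1 := by
      rw [map_mul, map_inv]
      have : q v.1 = q a.1 := hve
      rw [this, inv_mul_cancel]
    have h6 : (v : MulAut G)⁻¹ * a.1 ∈ IA G := (QuotientGroup.eq_one_iff _).1 h5
    exact h6
  have := V.mul_mem hv h4
  rwa [mul_inv_cancel_left] at this

end Pool.Agent.P8H72.JF
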