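import Pool.Agent.P8H72.JF.Stm2

/-!
# Project JF, package RHO: the action on homology (helper53)
-/

set_option autoImplicit false

namespace Pool.Agent.P8H72.JF

open Matrix

theorem hv_mul {g : ℕ} (x y : Sg g) : hv (x * y) = hv x + hv y := by
  unfold hv
  rw [map_mul]
  rfl

theorem hv_of {g : ℕ} (y : Fin g ⊕ Fin g) :
    hv (PresentedGroup.of (rels := ({rel g} : Set (FreeGroup (Fin g ⊕ Fin g)))) y) = Pi.single y 1 := by
  unfold hv hm
  rw [PresentedGroup.toGroup.of]
  unfold fh
  rw [FreeGroup.lift_apply_of]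
  rfl

/-- the matrix of an automorphism -/
def rmat {g : ℕ} (φ : MulAut (Sg g)) : Mat g := Matrix.of fun x y => hv (φ (PresentedGroup.of y)) x

theorem hv_aut {g : ℕ} (φ : MulAut (Sg g)) (x : Sg g) : hv (φ x) = rmat φ *ᵥ hv x := by
  have h : (hm g).comp φ.toMonoidHom =
      (AddMonoidHom.toMultiplicative (Matrix.mulVecLin (rmat φ)).toAddMonoidHom).comp (hm g) := by
    refine PresentedGroup.ext fun y => ?_
    apply Multiplicative.toAdd.injective
    change hv (φ (PresentedGroup.of y)) = rmat φ *ᵥ hv (PresentedGroup.of y)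
    rw [hv_of, Matrix.mulVec_single_one]
    rfl
  exact congrArg Multiplicative.toAdd (DFunLike.congr_fun h x)

theorem rmat_mul {g : ℕ} (φ ψ : MulAut (Sg g)) : rmat (φ * ψ) = rmat φ * rmat ψ := by
  ext x y
  change hv (φ (ψ (PresentedGroup.of y))) x = _
  rw [hv_aut φ]
  rfl

theorem rmat_one {g : ℕ} : rmat (1 : MulAut (Sg g)) = 1 := by
  ext x y
  change hv (PresentedGroup.of y) x = _
  rw [hv_of, Matrix.one_apply, Pi.single_apply]

/-- the representation with values in matrices -/
def rhom (g : ℕ) : MulAut (Sg g) →* Mat g where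
  toFun := rmat
  map_one' := rmat_one
  map_mul' := rmat_mul

/-- the homology representation -/
theorem t_RHO : S_RHO := by
  intro g
  refine ⟨(rhom g).toHomUnits, fun φ x => hv_aut φ x, fun φ B hB => ?_⟩
  apply Units.ext
  change rmat φ = B.1
  ext x y
  change hv (φ (PresentedGroup.of y)) x = _
  rw [hB, hv_of, Matrix.mulVec_single_one]
  rfl

end Pool.Agent.P8H72.JF
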