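import Mathlib

/-!
# Project JF, part 1 (matrices): the congruence subgroup property of `Sp_{2g}(ℤ)`, `g ≥ 3`

THEOREM (MP_59b15d_al): for `g ≥ 3` every subgroup of finite index of `Mod(S_g) = Out(π)` which contains a term of the
Johnson filtration (the kernel of `Out π → Out (π / γ_{c+1} π)`) contains a congruence subgroup. The starting file
reduces it to the action on `π / [π, π] = ℤ^{2g}`. Here: matrices. Library: the theorem of Bass-Lazard-Serre-Mennicke for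
`SL_n(ℤ)`, `n ≥ 3` (`Pool.Agent.Helper460_CSP.bls`).

Every package is a Prop `S_XXX`; please prove it as `theorem t_XXX : S_XXX` in `Pool/Agent/P8H72/JF/XXX.lean`
(import this file only, and Mathlib; GEN2 also `Pool.Agent.Helper460_CSP.Bls`). No package depends on another proof unless
it is a hypothesis of the Prop.
-/

set_option autoImplicit false

namespace Pool.Agent.P8H72.JF

open Matrix

/-- integer matrices of size `2g`; `inl` = the first `g` coordinates (`a`), `inr` = the last `g` (`b`) -/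
abbrev Mat (g : ℕ) : Type := Matrix (Fin g ⊕ Fin g) (Fin g ⊕ Fin g) ℤ

/-- `GL_{2g}(ℤ)` -/
abbrev GG (g : ℕ) : Type := (Mat g)ˣ

/-- `S X = [[1, X], [0, 1]]` -/
def S {g : ℕ} (X : Matrix (Fin g) (Fin g) ℤ) : GG g where
  val := fromBlocks 1 X 0 1
  inv := fromBlocks 1 (-X) 0 1
  val_inv := by simp [fromBlocks_multiply]
  inv_val := by simp [fromBlocks_multiply]

/-- `T Y = [[1, 0], [Y, 1]]` -/
def T {g : ℕ} (Y : Matrix (Fin g) (Fin g) ℤ) : GG g where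
  val := fromBlocks 1 0 Y 1
  inv := fromBlocks 1 0 (-Y) 1
  val_inv := by simp [fromBlocks_multiply]
  inv_val := by simp [fromBlocks_multiply]

theorem blk_aux {g : ℕ} {A B : Matrix (Fin g) (Fin g) ℤ} (h1 : A * B = 1) :
    (fromBlocks A 0 0 Bᵀ : Mat g) * fromBlocks B 0 0 Aᵀ = 1 := by
  rw [fromBlocks_multiply, ← transpose_mul, h1]
  simp only [Matrix.zero_mul, Matrix.mul_zero, add_zero, zero_add, transpose_one]
  exact fromBlocks_one

/-- `U P = [[P, 0], [0, (P⁻¹)ᵀ]]` -/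
def U {g : ℕ} (P : SpecialLinearGroup (Fin g) ℤ) : GG g where
  val := fromBlocks P.1 0 0 ((P⁻¹).1)ᵀ
  inv := fromBlocks (P⁻¹).1 0 0 (P.1)ᵀ
  val_inv := blk_aux (congrArg Subtype.val (mul_inv_cancel P))
  inv_val := blk_aux (congrArg Subtype.val (inv_mul_cancel P))

/-- the matrix of the intersection form, `ω(u, v) = ∑ (u_{a_i} v_{b_i} - u_{b_i} v_{a_i})` -/
def Jm (g : ℕ) : Mat g := fromBlocks 0 1 (-1) 0

/-- symplectic matrices -/
def Symp {g : ℕ} (A : Mat g) : Prop := Aᵀ * Jm g * A = Jm g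

/-- `A ≡ 1 mod M` -/
def Cg {g : ℕ} (M : ℤ) (A : Mat g) : Prop := ∀ x y, M ∣ A x y - (1 : Mat g) x y

/-- `A` fixes the basis vectors `a_j`, `b_j` with `j ∈ J` -/
def Fix {g : ℕ} (J : Set (Fin g)) (A : Mat g) : Prop :=
  ∀ j ∈ J, ∀ x, A x (Sum.inl j) = (1 : Mat g) x (Sum.inl j) ∧ A x (Sum.inr j) = (1 : Mat g) x (Sum.inr j)

/-- the properties of the subgroup `N` of `GL_{2g}(ℤ)` which are used -/
structure Nice (g : ℕ) (M : ℤ) (N : Subgroup (GG g)) : Prop where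
  s : ∀ X : Matrix (Fin g) (Fin g) ℤ, Xᵀ = X → (∀ i j, M ∣ X i j) → S X ∈ N
  t : ∀ Y : Matrix (Fin g) (Fin g) ℤ, Yᵀ = Y → (∀ i j, M ∣ Y i j) → T Y ∈ N
  u : ∀ P : SpecialLinearGroup (Fin g) ℤ,
    (∀ i j, M ∣ P.1 i j - (1 : Matrix (Fin g) (Fin g) ℤ) i j) → U P ∈ N
  cs : ∀ X : Matrix (Fin g) (Fin g) ℤ, Xᵀ = X → ∀ n ∈ N, S X * n * (S X)⁻¹ ∈ N
  ct : ∀ Y : Matrix (Fin g) (Fin g) ℤ, Yᵀ = Y → ∀ n ∈ N, T Y * n * (T Y)⁻¹ ∈ N

/-- the element of `SL_2(ℤ)` in the first plane of `ℤ^4` -/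
def L (a b c d : ℤ) (h : a * d - b * c = 1) : GG 2 where
  val := fromBlocks !![a, 0; 0, 1] !![b, 0; 0, 0] !![c, 0; 0, 0] !![d, 0; 0, 1]
  inv := fromBlocks !![d, 0; 0, 1] !![-b, 0; 0, 0] !![-c, 0; 0, 0] !![a, 0; 0, 1]
  val_inv := by
    rw [fromBlocks_multiply, ← fromBlocks_one]
    congr 1 <;> ext i j <;> fin_cases i <;> fin_cases j <;> simp <;> linarith
  inv_val := by
    rw [fromBlocks_multiply, ← fromBlocks_one]
    congr 1 <;> ext i j <;> fin_cases i <;> fin_cases j <;> simp <;> linarith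

/-- Package SYM (25 lines). Symmetric matrices with a prescribed value.
Proof. `X i j = w i * r j + r i * w j - (w ⬝ᵥ p) * (r i * r j)`. Then
`X p = w (r·p) + r (w·p) - (w·p) (r·p) r = w`. -/
def S_SYM : Prop :=
  ∀ (g : ℕ) (D : Set (Fin g)) (p r w : Fin g → ℤ), (∀ i, i ∉ D → r i = 0) → (∀ i, i ∉ D → w i = 0) →
    r ⬝ᵥ p = 1 →
      ∃ X : Matrix (Fin g) (Fin g) ℤ, Xᵀ = X ∧ (∀ i j, i ∉ D → X i j = 0) ∧ X *ᵥ p = w

/-- Package PRI (80 lines). If `δ` and `u` are unimodular together then `u + δ w` is unimodular for some `w`.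
Proof. First choose `t` with `n := u k + δ t ≠ 0` (if `δ = 0` then `r ⬝ᵥ u = 1`: take `w = 0`, `r' =` the restriction of `r`
to `D`; if `δ ≠ 0` one of `t = 0, 1` works). Let `s := ∏` of the prime factors `q` of `|n|` with `¬ q ∣ u l`
(`Finset.prod` over `n.natAbs.primeFactors.filter`), `w := t` at `k`, `s` at `l`, `0` elsewhere. The ideal (gcd) generated
by the numbers `(u + δ w) i`, `i ∈ D`, is everything: otherwise a prime `q` divides all of them (`IsCoprime`/gcd of a finite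
family; e.g. `Finset.gcd`, `Ideal.span` and a maximal ideal, or `Int.gcd`), so `q ∣ n`. If `q ∣ δ` then `q ∣ u i` for all
`i ∈ D`, hence for all `i`, contradiction to `e * δ + r ⬝ᵥ u = 1`. If `¬ q ∣ δ`: if `q ∣ u l` then
`¬ q ∣ s` (`s` is a product of primes different from `q`) and `q ∣ u l + δ s` gives `q ∣ δ s`, contradiction; if `¬ q ∣ u l` then
`q ∣ s`, so `q ∣ u l`, contradiction. So there is `r'` with `r' ⬝ᵥ (u + δ w) = 1`; replace its values outside `D` by `0`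
(there `u + δ w = 0`). -/
def S_PRI : Prop :=
  ∀ (g : ℕ) (D : Set (Fin g)) (k l : Fin g), k ∈ D → l ∈ D → k ≠ l →
    ∀ (u r : Fin g → ℤ) (e δ : ℤ), (∀ i, i ∉ D → u i = 0) → e * δ + r ⬝ᵥ u = 1 →
      ∃ w r' : Fin g → ℤ, (∀ i, i ∉ D → w i = 0) ∧ (∀ i, i ∉ D → r' i = 0) ∧ r' ⬝ᵥ (u + δ • w) = 1

/-- Package COL (120 lines), may assume SYM and PRI. Reduction of a column.
Proof. Let `δ := gcd` of the `a i`; `a k ≡ 1 mod M ^ 2` is odd, so `δ ≠ 0`; `a = δ • a''` with `ρ ⬝ᵥ a'' = 1` for some `ρ` supported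
in `D` (`Finset.gcd`, `Int` Bezout; `a''` is supported in `D`), and `δ` is coprime to `M` (it divides `a k`).
Write `c = M ^ 2 • c'`. From `α ⬝ᵥ a + β ⬝ᵥ c = 1`: `(α ⬝ᵥ a'') δ + (M • β) ⬝ᵥ (M • c') = 1`. PRI with `u := M • c'` gives `w`, `r'`
with `r' ⬝ᵥ p = 1`, `p := M • c' + δ • w`. SYM (with `p := a''`, `r := ρ`, target `w`) gives `Y₀` with `Y₀ a'' = w`; put
`Y := M • Y₀`: `c + Y a = M ^ 2 c' + M δ w = M p =: c1`. SYM (with `p`, `r'`, target `w₂`, where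
`e_k - a = M ^ 2 w₂`) gives `X₀` with `X₀ p = w₂`; `X := M • X₀`: `a + X c1 = a + M ^ 2 w₂ = e_k`. SYM (with `p := e_k`,
`r := e_k`, target `-p`) gives `Z₀`; `Z := M • Z₀`: `c1 + Z e_k = M p - M p = 0`. -/
def S_COL : Prop :=
  S_SYM → S_PRI → ∀ (g : ℕ) (D : Set (Fin g)) (k l : Fin g), k ∈ D → l ∈ D → k ≠ l →
    ∀ (M : ℤ) (a c α β : Fin g → ℤ), M ≠ 0 → 2 ∣ M → (∀ i, i ∉ D → a i = 0) → (∀ i, i ∉ D → c i = 0) →
      α ⬝ᵥ a + β ⬝ᵥ c = 1 → (∀ i, M ^ 2 ∣ a i - (Pi.single k 1 : Fin g → ℤ) i) → (∀ i, M ^ 2 ∣ c i) →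
        ∃ Y X Z : Matrix (Fin g) (Fin g) ℤ, (Yᵀ = Y ∧ Xᵀ = X ∧ Zᵀ = Z) ∧
          (∀ i j, M ∣ Y i j ∧ M ∣ X i j ∧ M ∣ Z i j) ∧
          (∀ i j, i ∉ D → Y i j = 0 ∧ X i j = 0 ∧ Z i j = 0) ∧
          a + X *ᵥ (c + Y *ᵥ a) = Pi.single k 1 ∧ c + Y *ᵥ a + Z *ᵥ (Pi.single k 1 : Fin g → ℤ) = 0

/-- Package BAS (80 lines). Elementary facts.
Proof. `Symp`, `Cg`: direct (`Cg` of a product: `A B - 1 = (A - 1) B + (B - 1)`; of an inverse:
`A⁻¹ - 1 = - A⁻¹ (A - 1)`). (6), (7): `fromBlocks` computations. (8): a symplectic matrix which fixes `a_j`, `b_j` satisfies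
`A = 1` in the rows `a_j`, `b_j`: `Jm * A = (Aᵀ)⁻¹ * Jm`, equivalently `Aᵀ Jm A = Jm` gives for the column `y` of `A`:
`(Aᵀ Jm A) (inl j) y = ∑ ... ` and `Aᵀ (inl j) = e_{inl j}`, so `(Jm A) (inl j) y = Jm (inl j) y`, i.e.
`A (inr j) y = 1 (inr j) y`; the same with `inr j`. -/
def S_BAS : Prop :=
  (∀ (g : ℕ) (A B : Mat g), Symp A → Symp B → Symp (A * B)) ∧
  (∀ (g : ℕ) (A : GG g), Symp A.1 → Symp (A⁻¹).1) ∧
  (∀ (g : ℕ) (M : ℤ) (A B : Mat g), Cg M A → Cg M B → Cg M (A * B)) ∧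
  (∀ (g : ℕ) (M : ℤ) (A : GG g), Cg M A.1 → Cg M (A⁻¹).1) ∧
  (∀ (g : ℕ) (X : Matrix (Fin g) (Fin g) ℤ), Xᵀ = X → Symp (S X).1 ∧ Symp (T X).1) ∧
  (∀ (g : ℕ) (P : SpecialLinearGroup (Fin g) ℤ), Symp (U P).1) ∧
  (∀ (g : ℕ) (M : ℤ) (X : Matrix (Fin g) (Fin g) ℤ), (∀ i j, M ∣ X i j) → Cg M (S X).1 ∧ Cg M (T X).1) ∧
  (∀ (g : ℕ) (J : Set (Fin g)) (A : Mat g), Symp A → Fix J A → ∀ j ∈ J, ∀ y,
    A (Sum.inl j) y = (1 : Mat g) (Sum.inl j) y ∧ A (Sum.inr j) y = (1 : Mat g) (Sum.inr j) y)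

/-- Package STA (120 lines), may assume BAS and COL (with its hypotheses). The column `a_k`.
Proof. Let `D := Jᶜ`, `a i := A (inl i) (inl k)`, `c i := A (inr i) (inl k)`. By BAS (8) they vanish for `i ∈ J` (as `k ∉ J`).
`A` is invertible, so the row `inl k` of `A⁻¹` times the column gives `α ⬝ᵥ a + β ⬝ᵥ c = 1`. COL gives `Y X Z`; put
`n := T Z * S X * T Y`, which is in `N`, symplectic and `≡ 1 mod M`. The column `inl k` of `n * A`:
`T Y` maps `(a; c)` to `(a; c + Y a)`, `S X` to `(a + X (c + Y a); ..) = (e_k; c + Y a)`, `T Z` to `(e_k; 0)`. `n * A` still fixes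
`a_j`, `b_j`, `j ∈ J`, since `Y`, `X`, `Z` are symmetric and vanish outside `D × D`. -/
def S_STA : Prop :=
  S_BAS → S_SYM → S_PRI → S_COL → ∀ (g : ℕ) (J : Set (Fin g)) (k l : Fin g), k ∉ J → l ∉ J → k ≠ l →
    ∀ (M : ℤ) (N : Subgroup (GG g)), M ≠ 0 → 2 ∣ M → Nice g M N →
      ∀ A : GG g, Symp A.1 → Cg (M ^ 2) A.1 → Fix J A.1 →
        ∃ n ∈ N, Symp n.1 ∧ Cg M n.1 ∧ Fix J (n * A).1 ∧
          ∀ x, (n * A).1 x (Sum.inl k) = (1 : Mat g) x (Sum.inl k)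

/-- Package STB (150 lines), may assume BAS. The column `b_k`.
Proof. Let `v` be the column `b_k` of `A`, `p i := A (inl i) (inr k)`, `q i := A (inr i) (inr k)`; they vanish for `i ∈ J`
(BAS (8)), `q k = 1` (from `Aᵀ Jm A = Jm` at the place `(inl k, inr k)`, the column `inl k` being `e_{inl k}`), and `M ∣ p i`,
`M ∣ q i` for `i ≠ k`. Let `P ∈ SL_g(ℤ)` be the matrix with `P k j = q j` for `j ≠ k` and `P = 1` elsewhere
(`P = 1 + E`, `E ^ 2 = 0`, `P⁻¹ = 1 - E`, `(P⁻¹)ᵀ = 1 - Eᵀ`, `Eᵀ e_k = q - e_k`, `E` vanishing on `e_k`). `U P` fixes the column `a_k = e_{inl k}` and the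
`a_j`, `b_j` with `j ∈ J` (`q j = 0`), and maps `(p; q)` to `(p'; q - Eᵀ q) = (p'; q - (q - e_k)) = (p'; e_k)`,
`p' = P p` with `M ∣ p' i` for all `i` and `p' i = 0` for `i ∈ J`. Let `X` be the symmetric matrix with `X e_k = -p'`,
`X i j = 0` if `i ≠ k` and `j ≠ k` (`X k k = -p' k`, `X i k = X k i = -p' i`). `S X` fixes all `a`'s and the `b_j`, `j ∈ J`, and maps
`(p'; e_k)` to `(0; e_k)`. `n := S X * U P`. -/
def S_STB : Prop :=
  S_BAS → ∀ (g : ℕ) (J : Set (Fin g)) (k : Fin g), k ∉ J →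
    ∀ (M : ℤ) (N : Subgroup (GG g)), Nice g M N →
      ∀ A : GG g, Symp A.1 → Cg M A.1 → Fix J A.1 → (∀ x, A.1 x (Sum.inl k) = (1 : Mat g) x (Sum.inl k)) →
        ∃ n ∈ N, Symp n.1 ∧ Cg M n.1 ∧ Fix (insert k J) (n * A).1

/-- Package IND (100 lines), may assume BAS, STA and STB (in the form below).
Proof. `Nice g M N` implies `Nice g M' N` if `M ∣ M'`. By induction on the finite set `J` (not containing `k₀`) there is
`M' ≠ 0`, `M ∣ M'`, such that for every symplectic `A ≡ 1 mod M'` there is `n ∈ N`, symplectic, with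
`n * A ≡ 1 mod M` and `Fix J (n * A)`; here `M ≠ 0`, `2 ∣ M` is arbitrary with `Nice g M N`. Empty set: `n = 1`. Step from `J` to
`insert k J`: use the induction hypothesis for `M ^ 2` instead of `M` (`Nice g (M ^ 2) N` holds), then STA with `l := k₀` and STB.
At the end `J = univ \ {k₀}`. -/
def S_IND : Prop :=
  S_BAS →
  (∀ (g : ℕ) (J : Set (Fin g)) (k l : Fin g), k ∉ J → l ∉ J → k ≠ l →
    ∀ (M : ℤ) (N : Subgroup (GG g)), M ≠ 0 → 2 ∣ M → Nice g M N →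
      ∀ A : GG g, Symp A.1 → Cg (M ^ 2) A.1 → Fix J A.1 →
        ∃ n ∈ N, Symp n.1 ∧ Cg M n.1 ∧ Fix J (n * A).1 ∧
          ∀ x, (n * A).1 x (Sum.inl k) = (1 : Mat g) x (Sum.inl k)) →
  (∀ (g : ℕ) (J : Set (Fin g)) (k : Fin g), k ∉ J →
    ∀ (M : ℤ) (N : Subgroup (GG g)), Nice g M N →
      ∀ A : GG g, Symp A.1 → Cg M A.1 → Fix J A.1 → (∀ x, A.1 x (Sum.inl k) = (1 : Mat g) x (Sum.inl k)) →
        ∃ n ∈ N, Symp n.1 ∧ Cg M n.1 ∧ Fix (insert k J) (n * A).1) →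
  ∀ (g : ℕ) (k₀ : Fin g) (M : ℤ) (N : Subgroup (GG g)), M ≠ 0 → 2 ∣ M → Nice g M N →
    ∃ M' : ℤ, M' ≠ 0 ∧ ∀ A : GG g, Symp A.1 → Cg M' A.1 →
      ∃ n ∈ N, Symp n.1 ∧ Symp (n * A).1 ∧ Cg M (n * A).1 ∧ Fix {k | k ≠ k₀} (n * A).1

/-- Package IDN (120 lines). The identity between long and short roots (checked by computer).
Proof. Let `s := a * d - 1 = c * x ^ 2`, `E12 = !![0,1;0,0]` etc. Then, with `y := -c*x`, `α := -x*c`,
`β := -x*c*d + x^3*c^2*d`, `γ := c*d - x^2*c^2*d + x^4*c^3*d`, `e := (1-s)*d - 1`: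
`L a (x^2) c d * T !![0,y;y,0] * U !![1, d*x; 0, 1] = T !![γ,β;β,0] * U !![1,0;α,1] * L₂ * τ`, where
`τ = S !![0,0;0,a] * U !![a, x; x*c, d] * S !![0,0;0,-a] * S !![0,x;x,0]` and
`L₂ = T !![0,0;0,1] * T !![0,0;0,e] * S !![0,0;0,1-a] * T !![0,0;0,-1] * S !![0,0;0,1-a]` (this is the matrix
`[[a, 1-a^2], [-s^2, (1-s)*d + a*s^2]]` in the second plane). All factors except the `L` are in `N` (`M` divides
`a-1, x, c, d-1, s, e, y, α, β, γ`; conjugates by `S !![0,0;0,a]` and by `T !![0,0;0,1]`). Compare the 16 entries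
(`Matrix.ext`, `Sum` cases, `fin_cases`), each follows from `h` by `linear_combination (polynomial) * h`; to find the polynomials
simply substitute `a * d = 1 + c * x^2` where possible. It may be easier to first prove
`L a .. * T .. = (4 × 4 matrix)` step by step. -/
def S_IDN : Prop :=
  ∀ (M : ℤ) (N : Subgroup (GG 2)), Nice 2 M N → ∀ (a x c d : ℤ) (h : a * d - x ^ 2 * c = 1),
    M ∣ a - 1 → M ∣ x → M ∣ c → M ∣ d - 1 → L a (x ^ 2) c d h ∈ N

/-- Package NTH (150 lines). Number theory: a pair `(a, b)` can be moved to a pair `(a', x ^ 2)`.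
Proof. If `b = 0` then `a ∣ 1` and `a ≡ 1 mod 8`, so `a = 1`, and `Q 1 (0 ^ 2)`. Otherwise `a ≠ 0`; by the first rule we may assume
`b > 0` (add `a * M * t`). Dirichlet (`Nat.forall_exists_prime_gt_and_eq_mod` or
`Nat.infinite_setOf_prime_and_eq_mod`) gives a prime `p ≡ a mod b * |M|`, and by the second rule we may assume `a = p` (`p ≡ 1 mod M`,
so `p ≡ 1 mod 8`; `p` does not divide `b`, `M`).
(A) If `b' ≡ square mod p'` where `p'` is `±` a prime not dividing `b' M`, `p' ≡ 1 mod M`, `M ∣ b'`: choose `x` with `x ≡ y mod p'`, `y ^ 2 ≡ b'`,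
`x ≡ 0 mod M` (CRT); then `p' * M ∣ x ^ 2 - b'`, so `Q p' (x ^ 2)` gives `Q p' b'` by the first rule.
If the Jacobi symbol `(b / p)` is `1` use (A). If it is `-1`: choose `t` with `b' := b + p * M * t < 0`; still `(b' / p) = -1`, and it
suffices to prove `Q p b'`. Dirichlet: a prime `q ≡ -p mod |b'| * |M|`; `a' := -q = p + b' * M * t'`, and it suffices to prove
`Q (-q) b'`, by (A) it suffices that `(b' / q) = 1`. Let `n := -b' > 0`, `n = 2 ^ e * n'`, `n'` odd. `p ≡ 1`, `q ≡ -1 mod 8`, so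
`(-1/p) = 1`, `(-1/q) = -1`, `(2/p) = (2/q) = 1`; by reciprocity `(n'/q) = (q/n') (-1)^((n'-1)/2)`
`= (-p/n') (-1)^((n'-1)/2) = (p/n') = (n'/p)`. So `(b'/q) = -(n/q) = -(n/p) = -(b'/p) = 1`
(`jacobiSym.quadratic_reciprocity_three_mod_four` etc.). -/
def S_NTH : Prop :=
  ∀ (M : ℤ), M ≠ 0 → 8 ∣ M → ∀ Q : ℤ → ℤ → Prop,
    (∀ a b t : ℤ, Q a (b + a * M * t) → Q a b) → (∀ a b t : ℤ, Q (a + b * M * t) b → Q a b) →
    (∀ a x : ℤ, M ∣ a - 1 → M ∣ x → IsCoprime a x → Q a (x ^ 2)) →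
      ∀ a b : ℤ, M ∣ a - 1 → M ∣ b → IsCoprime a b → Q a b

/-- Package LFO (80 lines), may assume IDN and NTH. All elements `L ≡ 1 mod M` are in `N`.
Proof. Let `Q a b` be: if `M ∣ a - 1`, `M ∣ b`, then for all `c d` and `h` with `M ∣ c`, `M ∣ d - 1`, `L a b c d h ∈ N`. First
rule: `L a b c d * S !![M*a*t... ]`: precisely `L a b c d h * S !![M*t,0;0,0] = L a (b + a*M*t) c (d + c*M*t) _` and
`S !![M*t,0;0,0] ∈ N`. Second rule: `L a b c d h * T !![M*t,0;0,0] = L (a + b*M*t) b (c + d*M*t) d _`. Third rule: IDN. -/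
def S_LFO : Prop :=
  S_IDN → S_NTH → ∀ (M : ℤ) (N : Subgroup (GG 2)), M ≠ 0 → 8 ∣ M → Nice 2 M N →
    ∀ (a b c d : ℤ) (h : a * d - b * c = 1), M ∣ a - 1 → M ∣ b → M ∣ c → M ∣ d - 1 → L a b c d h ∈ N

/-- Package EMB (150 lines), may assume BAS. The embedding of `GL_4` in `GL_{2g}` by the planes `k₀`, `l`.
Proof. Let `e : Fin 2 → Fin g`, `e 0 = k₀`, `e 1 = l`, `e' = Sum.map e e` (injective). For a matrix `B` of size `4` let `em B` be the matrix
with `em B (e' x) (e' y) = B x y` and `em B = 1` elsewhere (for instance `em B := (reindex of) fromBlocks B 0 0 1` along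
`Equiv` of `Fin g ⊕ Fin g` with `(Fin 2 ⊕ Fin 2) ⊕ (complement of the range of e')`, or
`em B = 1 + E * (B - 1) * Eᵀ` with `E x y = if x = e' y then 1 else 0`, `Eᵀ * E = 1`: this makes `em` multiplicative at
once: recommended). It is a monoid homomorphism, so it gives `GG 2 →* GG g`; `N' := N.comap`. `em (S X) = S (e X eᵀ)`,
`em (T Y) = T (e Y eᵀ)`, `em (U P) = U (1 + e (P - 1) eᵀ)` (with the `g × 2` matrix `e`; `1 + e (P - 1) eᵀ` has determinant one: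
it is the image of `P` under a homomorphism, `Matrix.det_one_add_mul_comm`). So `Nice 2 M N'`. If `A` is symplectic with `Fix {k ≠ k₀}` then (BAS (8)) `A`
is `em` of `L a b c d` with the four entries in the plane `k₀`; `a d - b c = 1` from `Aᵀ Jm A = Jm`. -/
def S_EMB : Prop :=
  S_BAS → ∀ (g : ℕ) (k₀ l : Fin g), k₀ ≠ l → ∀ (M : ℤ) (N : Subgroup (GG g)), Nice g M N →
    ∃ N' : Subgroup (GG 2), Nice 2 M N' ∧ ∀ A : GG g, Symp A.1 → Cg M A.1 → Fix {k | k ≠ k₀} A.1 →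
      ∃ (a b c d : ℤ) (h : a * d - b * c = 1), M ∣ a - 1 ∧ M ∣ b ∧ M ∣ c ∧ M ∣ d - 1 ∧
        (L a b c d h ∈ N' → A ∈ N)

/-- Package GEN1 (150 lines). Generation.
Proof. `S`, `T` are additive: `S (X + X') = S X * S X'`, `U` is multiplicative. Let `w i := T E_ii * S (-E_ii) * T E_ii` (`∈ R`; in the plane `i` it is
`[[0,-1],[1,0]]`, the identity elsewhere). For `j = i + 1` conjugation of `T (E_ij + E_ji)` by `w i` or its inverse is
`U (1 ± E_ij)` or `U (1 ± E_ji)` (compute once which), by `w j` the other; so `U (transvection i j t)`,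
`U (transvection j i t)` are in `R` for adjacent `i`, `j`; commutators `[t_ij, t_jk] = t_ik` give all
transvections (induction on the distance), and they generate `SL_g(ℤ)` (for `g = n + 3`: `Pool.Agent.Helper460_CSP.bls` with `M = 1` says that
the normal closure is everything; or better: use `Matrix.Pivot`-free argument: `bls` is for the normal closure, so use the euclidean algorithm, or look in
`Pool/Agent/Helper460_CSP/Vec.lean` (`El_trans`) or elsewhere in the library for `SL_n(ℤ)` generated by transvections).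
`U P * T Y * (U P)⁻¹ = T ((P⁻¹)ᵀ Y P⁻¹)`: from `T (E_11)` one gets `T (v vᵀ)` for `v = e_i`, `e_i + e_j`, hence all symmetric `Y`;
the same for `S`. -/
def S_GEN1 : Prop :=
  ∀ (n : ℕ) (R : Subgroup (GG (n + 3))),
    (∀ i, S (Matrix.single i i 1) ∈ R ∧ T (Matrix.single i i 1) ∈ R) →
    (∀ i j : Fin (n + 3), (j : ℕ) = i + 1 → T (Matrix.single i j 1 + Matrix.single j i 1) ∈ R) →
      (∀ X : Matrix (Fin (n + 3)) (Fin (n + 3)) ℤ, Xᵀ = X → S X ∈ R ∧ T X ∈ R) ∧ ∀ P, U P ∈ R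

/-- Package GEN2 (60 lines; import `Pool.Agent.Helper460_CSP.Bls`). Normal subgroups of finite index are nice.
Proof. Let `M := 8 * m`. `S X` with `X = M • X'`: `S X = (S X') ^ M ∈ N`. The same for `T`. `cs`, `ct`: `N` is normalised by
`R`. `u`: the subgroup `{P | U P ∈ N}` of `SL_g(ℤ)` is normal, contains `tv i j h M = (tv i j h 1) ^ M`, so it contains `El M`
(`El_le`) and by `bls` all `P` with `Cgr M P`. -/
def S_GEN2 : Prop :=
  ∀ (n : ℕ) (R N : Subgroup (GG (n + 3))) (m : ℕ), 0 < m → (∀ r ∈ R, r ^ m ∈ N) →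
    (∀ r ∈ R, ∀ x ∈ N, r * x * r⁻¹ ∈ N) →
    ((∀ X : Matrix (Fin (n + 3)) (Fin (n + 3)) ℤ, Xᵀ = X → S X ∈ R ∧ T X ∈ R) ∧ ∀ P, U P ∈ R) →
      Nice (n + 3) (8 * m) N

end Pool.Agent.P8H72.JF
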