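import Pool.Agent.P8H72.JF.Stm1

/-!
# Project JF, part 2 (surface groups)

Please prove `theorem t_XXX : S_XXX` in `Pool/Agent/P8H72/JF/XXX.lean` (import this file only).
-/

set_option autoImplicit false

namespace Pool.Agent.P8H72.JF

open Matrix
open scoped commutatorElement

/-- The relator `[a_1, b_1] ⋯ [a_g, b_g]` of the surface group. -/
def rel (g : ℕ) : FreeGroup (Fin g ⊕ Fin g) :=
  (List.ofFn (fun i : Fin g =>
    FreeGroup.of (Sum.inl i : Fin g ⊕ Fin g) * FreeGroup.of (Sum.inr i : Fin g ⊕ Fin g) *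
    (FreeGroup.of (Sum.inl i : Fin g ⊕ Fin g))⁻¹ *
    (FreeGroup.of (Sum.inr i : Fin g ⊕ Fin g))⁻¹)).prod

/-- The fundamental group of the closed orientable surface of genus `g`. -/
abbrev Sg (g : ℕ) : Type := PresentedGroup ({rel g} : Set (FreeGroup (Fin g ⊕ Fin g)))

/-- the class in `ℤ^{2g}` of an element of the free group -/
def fh (g : ℕ) : FreeGroup (Fin g ⊕ Fin g) →* Multiplicative (Fin g ⊕ Fin g → ℤ) :=
  FreeGroup.lift fun x => Multiplicative.ofAdd (Pi.single x 1)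

theorem fh_rel (g : ℕ) : fh g (rel g) = 1 := by
  unfold rel
  rw [map_list_prod]
  refine List.prod_eq_one ?_
  intro x hx
  rw [List.mem_map] at hx
  obtain ⟨y, hy, rfl⟩ := hx
  rw [List.mem_ofFn] at hy
  obtain ⟨i, rfl⟩ := hy
  rw [map_mul, map_mul, map_mul, mul_comm (fh g (FreeGroup.of (Sum.inl i)))
    (fh g (FreeGroup.of (Sum.inr i))), map_inv, map_inv]
  group

/-- the homology class, as a homomorphism -/
def hm (g : ℕ) : Sg g →* Multiplicative (Fin g ⊕ Fin g → ℤ) :=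
  PresentedGroup.toGroup (rels := {rel g}) (f := fun x => fh g (FreeGroup.of x)) (fun r hr => by
    rw [Set.mem_singleton_iff] at hr
    subst hr
    have : FreeGroup.lift (fun x => fh g (FreeGroup.of x)) = fh g := by
      ext x
      simp
    rw [this, fh_rel])

/-- the homology class of an element of the surface group, a vector in `ℤ^{2g}` -/
def hv {g : ℕ} (x : Sg g) : Fin g ⊕ Fin g → ℤ := Multiplicative.toAdd (hm g x)

/-- Package RHO (100 lines). The action on homology.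
Proof. `hv` is additive and `hv (PresentedGroup.of y) = Pi.single y 1`. For `φ` let `A φ` be the matrix with columns
`hv (φ (of y))`. For all `x`: `hv (φ x) = A φ *ᵥ hv x` (two homomorphisms to `Multiplicative (ℤ^{2g})` which agree on the generators:
`PresentedGroup.ext`). So `A (φ * ψ) = A φ * A ψ` (compare the columns `y`: `hv (φ (ψ (of y))) = A φ *ᵥ (A ψ *ᵥ e_y)`), `A 1 = 1`, and
`A φ` is a unit with inverse `A φ⁻¹` (`MonoidHom.toHomUnits`). The second statement: `x = of y`. -/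
def S_RHO : Prop :=
  ∀ g : ℕ, ∃ ρ : MulAut (Sg g) →* GG g, (∀ φ x, hv (φ x) = (ρ φ).1 *ᵥ hv x) ∧
    ∀ (φ : MulAut (Sg g)) (B : GG g), (∀ x, hv (φ x) = B.1 *ᵥ hv x) → ρ φ = B

/-- Package KER (60 lines). The kernel of `hv`.
Proof. `⇐`: `Multiplicative (ℤ^{2g})` is commutative. `⇒`: let `q : Sg g →* Abelianization (Sg g)`. Let
`s : Multiplicative (Fin g ⊕ Fin g → ℤ) →* Abelianization (Sg g)`, `s v = ∏ y, q (of y) ^ (v y)`. `s ∘ hm = q` (`PresentedGroup.ext`). So
`hv x = 0` implies `q x = 1`. (`⁅⊤, ⊤⁆ = commutator _` by definition.) -/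
def S_KER : Prop := ∀ (g : ℕ) (x : Sg g), hv x = 0 ↔ x ∈ ⁅(⊤ : Subgroup (Sg g)), (⊤ : Subgroup (Sg g))⁆

/-- Package CHA (80 lines), may assume RHO. Characteristic subgroups.
Proof. `K` is the kernel of the composition of `hm` with `Multiplicative (ℤ^{2g}) → Multiplicative (Fin g ⊕ Fin g → ZMod m)`: of finite index as the target is
finite. Characteristic: if `m` divides `hv x` then it divides `hv (φ x) = ρ φ *ᵥ hv x` (`Subgroup.characteristic_iff_le_comap`). -/
def S_CHA : Prop :=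
  S_RHO → ∀ (g m : ℕ), 0 < m → ∃ K : Subgroup (Sg g), K.Characteristic ∧ K.FiniteIndex ∧
    ∀ x, x ∈ K ↔ ∀ y, (m : ℤ) ∣ hv x y

/-- Package HEI (180 lines). The intersection form and endomorphisms of the free group which preserve the normal closure of the
relator.
Proof. Let `H` be the Heisenberg group: triples `(a, b, c)` of integers with
`(a, b, c) (a', b', c') = (a + a', b + b', c + c' + a b')`. For `p ≠ q` (or all `p`, `q`) in `Fin g ⊕ Fin g` let `h p q : FreeGroup →* H` be the homomorphism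
with `p ↦ (1, 0, 0)`, `q ↦ (0, 1, 0)`, other generators `↦ 1` (if `p = q` take the trivial one, or skip: the matrices are alternating).
Then `h p q w = ((fh w) p, (fh w) q, *)` and `[(a, b, c), (a', b', c')] = (0, 0, a b' - a' b)`. So for any endomorphism
`f` with matrix `A`, `h p q (f (rel g)) = h p q (∏ [f a_i, f b_i]) = (0, 0, ∑_i (A p (inl i) * A q (inr i) - A q (inl i) * A p (inr i)))`
`= (0, 0, (A * Jm g * Aᵀ) p q)`; for `f = id`: `(0, 0, Jm g p q)`. The set of the `w` such that there is `k : ℤ` with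
`h p q w = (0, 0, k * Jm g p q)` for all `p ≠ q` is a normal subgroup (the elements `(0, 0, c)` are central) which contains `rel g`,
so it contains the normal closure and `f (rel g)`. Hence `A * Jm g * Aᵀ = k • Jm g` off the diagonal; on the diagonal both sides vanish.
(`Pool.Agent.Helper460_CSP.Jo1` has such a Heisenberg group `Hs R` and `ph`, for inspiration.) -/
def S_HEI : Prop :=
  ∀ (g : ℕ) (f : FreeGroup (Fin g ⊕ Fin g) →* FreeGroup (Fin g ⊕ Fin g)) (A : Mat g),
    (∀ x, Multiplicative.toAdd (fh g (f x)) = A *ᵥ Multiplicative.toAdd (fh g x)) →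
      f (rel g) ∈ Subgroup.normalClosure ({rel g} : Set (FreeGroup (Fin g ⊕ Fin g))) →
        ∃ k : ℤ, A * Jm g * Aᵀ = k • Jm g

/-- Package FRM (100 lines), may assume HEI. Automorphisms of the surface group preserve the intersection form up to the sign.
Proof. Choose for every generator `y` an element `w y` of the free group with class `φ (of y)` and let `f := FreeGroup.lift w`; then
`mk (f x) = φ (mk x)` (`PresentedGroup.mk`), so `mk (f (rel g)) = 1`, i.e. `f (rel g)` is in the normal closure, and the matrix of `f` is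
`A` (`hv (mk x) = toAdd (fh x)`). HEI: `A Jm Aᵀ = k • Jm`. The same for `φ⁻¹` and `A⁻¹`: `A⁻¹ Jm (A⁻¹)ᵀ = k' • Jm`, so `Jm = k k' • Jm`,
`k k' = 1` (`0 < g`), `k = 1` or `k = -1`, `k' = k`. `A⁻¹ Jm (A⁻¹)ᵀ = k • Jm`; take inverses (`Jm * Jm = -1`): `Aᵀ Jm A = k • Jm`. -/
def S_FRM : Prop :=
  S_HEI → ∀ (g : ℕ), 0 < g → ∀ (φ : MulAut (Sg g)) (A : GG g), (∀ x, hv (φ x) = A.1 *ᵥ hv x) →
    Symp A.1 ∨ (A.1)ᵀ * Jm g * A.1 = - Jm g

/-- Package TWA (120 lines). Dehn twists along `a_i` and `b_i`.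
Proof. The endomorphism `f` of the free group with `b_i ↦ b_i a_i`, other generators fixed, fixes `[a_i, b_i]`
(`a (b a) a⁻¹ (b a)⁻¹ = a b a⁻¹ b⁻¹`) and the other factors, so it fixes `rel g` (`map_list_prod`, `List.ofFn`). It has the inverse `b_i ↦ b_i a_i⁻¹`
(also fixing `rel g`). So both descend to the surface group (`PresentedGroup.toGroup`) and are inverse automorphisms. On homology: the vector of `b_i`
goes to that of `b_i` plus that of `a_i`: this is `S E_ii` (compare on generators). For `T E_ii`: `a_i ↦ a_i b_i`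
(`(a b) b (a b)⁻¹ b⁻¹ = a b a⁻¹ b⁻¹`). -/
def S_TWA : Prop :=
  ∀ (g : ℕ) (i : Fin g),
    (∃ φ : MulAut (Sg g), ∀ x, hv (φ x) = (S (Matrix.single i i (1 : ℤ))).1 *ᵥ hv x) ∧
    (∃ φ : MulAut (Sg g), ∀ x, hv (φ x) = (T (Matrix.single i i (1 : ℤ))).1 *ᵥ hv x)

/-- Package TWB (180 lines). The connecting Dehn twists.
Proof. `j = i + 1`; `c := b_i⁻¹ a_j b_j a_j⁻¹` in the free group; `f`: `a_i ↦ a_i c`, `b_i ↦ c⁻¹ b_i c`, `a_j ↦ c⁻¹ a_j`, the other generators
(also `b_j`) fixed. Then `f c = c`: `f (a_j b_j a_j⁻¹) = c⁻¹ (a_j b_j a_j⁻¹) c`, `f (b_i⁻¹) = c⁻¹ b_i⁻¹ c`, so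
`f c = c⁻¹ b_i⁻¹ a_j b_j a_j⁻¹ c = c`. `[a_i, b_i] [a_j, b_j] = (a_i b_i a_i⁻¹) c b_j⁻¹` and `f (a_i b_i a_i⁻¹) = a_i b_i a_i⁻¹`: so `f` fixes the product of
the two adjacent factors and all other factors, hence `rel g` (write the product over `List.ofFn` as
`(∏ before i) * [a_i,b_i] * [a_j,b_j] * (∏ after j)`; for instance by partial products `∏_{m < n}` and induction on `n`).
The inverse: `a_i ↦ a_i c⁻¹`, `b_i ↦ c b_i c⁻¹`, `a_j ↦ c a_j` (it also fixes `c` and `rel g`). On homology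
`a_i ↦ a_i - b_i + b_j`, `a_j ↦ a_j + b_i - b_j`, `b`'s fixed: `T Y` with `Y = E_ij + E_ji - E_ii - E_jj`. -/
def S_TWB : Prop :=
  ∀ (g : ℕ) (i j : Fin g), (j : ℕ) = i + 1 →
    ∃ φ : MulAut (Sg g), ∀ x, hv (φ x) = (T (Matrix.single i j (1 : ℤ) + Matrix.single j i (1 : ℤ)
      - Matrix.single i i (1 : ℤ) - Matrix.single j j (1 : ℤ))).1 *ᵥ hv x

/-- Package SPC (60 lines), may assume the two Props below (they are IND and LFO + EMB). The congruence subgroup property
of `Sp_{2g}(ℤ)` for nice subgroups: taken by helper72. -/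
def S_SPC : Prop :=
  ∀ (n : ℕ) (M : ℤ) (N : Subgroup (GG (n + 3))), M ≠ 0 → 8 ∣ M → Nice (n + 3) M N →
    ∃ M' : ℤ, M' ≠ 0 ∧ ∀ A : GG (n + 3), Symp A.1 → Cg M' A.1 → A ∈ N

end Pool.Agent.P8H72.JF
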